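import Pool.Agent.MpA.Ops

set_option autoImplicit false

/-!
Analytic multipliers, trigonometric polynomials, characters.
-/

namespace Pool.Agent.MpA

open Filter Topology
open scoped ENNReal

noncomputable section

variable {p : ℝ≥0∞} [Fact (1 ≤ p)]

lemma coef_mul_lim (hp : p ≠ ⊤) (T S : Mp p) (n : ℤ) :
    Tendsto (fun X : Finset ℤ => ∑ x ∈ X, coef T (n - x) * coef S x) atTop (𝓝 (coef (T * S) n)) := by
  have h1 : Tendsto (fun X => T.1 (cut (S.1 (del 0)) X)) atTop (𝓝 (T.1 (S.1 (del 0)))) :=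
    (T.1.continuous.tendsto _).comp (cut_tendsto hp _)
  have h2 : Continuous (fun f : El p => f n) :=
    (lp.lipschitzWith_one_eval (E := fun _ : ℤ => ℂ) p n).continuous
  have h3 := (h2.tendsto _).comp h1
  have h4 : ((fun f : El p => f n) ∘ fun X => T.1 (cut (S.1 (del 0)) X)) =
      fun X : Finset ℤ => ∑ x ∈ X, coef T (n - x) * coef S x := by
    funext X
    simp only [Function.comp_apply]
    rw [T_cut]
    rfl
  rw [h4] at h3
  exact h3

lemma analytic_mul (hp : p ≠ ⊤) {T S : Mp p} (hT : IsAnalytic T) (hS : IsAnalytic S) : IsAnalytic (T * S) := by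
  intro n hn
  have h1 := coef_mul_lim hp T S n
  have h2 : (fun X : Finset ℤ => ∑ x ∈ X, coef T (n - x) * coef S x) = fun _ => 0 := by
    funext X
    apply Finset.sum_eq_zero
    intro x _
    rcases lt_or_ge x 0 with h | h
    · rw [hS x h, mul_zero]
    · rw [hT (n - x) (by linarith), zero_mul]
  rw [h2] at h1
  exact (tendsto_nhds_unique h1 tendsto_const_nhds)

/-- trigonometric polynomials become analytic after a shift -/
lemma trig_shift (hp : p ≠ ⊤) {q : Mp p}
    (hq : q ∈ Algebra.adjoin ℂ ({T : Mp p | IsAnalytic T} ∪ {zM (-1)})) :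
    ∃ W : ℕ, IsAnalytic (zM (W : ℤ) * q) := by
  induction hq using Algebra.adjoin_induction with
  | mem x hx =>
    rcases hx with hx | hx
    · refine ⟨0, ?_⟩
      intro n hn
      rw [coef_zM_mul]
      exact hx _ (by push_cast; linarith)
    · rw [Set.mem_singleton_iff] at hx
      rw [hx]
      refine ⟨1, ?_⟩
      intro n hn
      rw [coef_zM_mul, coef_zM, if_neg]
      intro h
      push_cast at h
      linarith
  | algebraMap c =>
    refine ⟨0, ?_⟩
    intro n hn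
    rw [coef_zM_mul, Algebra.algebraMap_eq_smul_one, coef_smul, ← zM_zero, coef_zM, if_neg (by
      intro h; push_cast at h; linarith), mul_zero]
  | add x y _ _ hx hy =>
    obtain ⟨W1, h1⟩ := hx
    obtain ⟨W2, h2⟩ := hy
    refine ⟨max W1 W2, ?_⟩
    intro n hn
    have e1 := h1 (n - (max W1 W2 : ℕ) + W1) (by
      have : (W1 : ℤ) ≤ (max W1 W2 : ℕ) := by exact_mod_cast le_max_left _ _
      linarith)
    have e2 := h2 (n - (max W1 W2 : ℕ) + W2) (by
      have : (W2 : ℤ) ≤ (max W1 W2 : ℕ) := by exact_mod_cast le_max_right _ _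
      linarith)
    rw [coef_zM_mul, add_sub_cancel_right] at e1 e2
    rw [coef_zM_mul, coef_add, e1, e2, add_zero]
  | mul x y _ _ hx hy =>
    obtain ⟨W1, h1⟩ := hx
    obtain ⟨W2, h2⟩ := hy
    refine ⟨W1 + W2, ?_⟩
    have h3 := analytic_mul hp h1 h2
    have h4 : (zM (W1 : ℤ) * x) * (zM (W2 : ℤ) * y) = zM ((W1 + W2 : ℕ) : ℤ) * (x * y) := by
      push_cast
      rw [← zM_mul, mul_assoc, ← mul_assoc x, ← comm_zM x, mul_assoc, mul_assoc]
    rw [← h4]
    exact h3

lemma shift_more {q : Mp p} {W W' : ℕ} (h : IsAnalytic (zM (W : ℤ) * q)) (hW : W ≤ W') :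
    IsAnalytic (zM (W' : ℤ) * q) := by
  intro n hn
  have e1 := h (n - W' + W) (by
    have : (W : ℤ) ≤ W' := by exact_mod_cast hW
    linarith)
  rw [coef_zM_mul, add_sub_cancel_right] at e1
  rw [coef_zM_mul, e1]

/-- approximation of elements of `Sa` -/
lemma Sa_approx {T : Mp p} (hT : T ∈ Sa p) {ε : ℝ} (hε : 0 < ε) :
    ∃ q ∈ Algebra.adjoin ℂ ({T : Mp p | IsAnalytic T} ∪ {zM (-1)}), ‖T - q‖ ≤ ε := by
  have h1 : T ∈ closure ((Algebra.adjoin ℂ ({T : Mp p | IsAnalytic T} ∪ {zM (-1)}) :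
    Subalgebra ℂ (Mp p)) : Set (Mp p)) := hT
  obtain ⟨q, hq, hd⟩ := Metric.mem_closure_iff.1 h1 ε hε
  refine ⟨q, hq, ?_⟩
  rw [dist_eq_norm] at hd
  exact hd.le

lemma adjoin_le {q : Mp p} (hq : q ∈ Algebra.adjoin ℂ ({T : Mp p | IsAnalytic T} ∪ {zM (-1)})) : q ∈ Sa p :=
  Subalgebra.le_topologicalClosure _ hq

lemma zM_mem_adj (k : ℤ) : (zM k : Mp p) ∈ Algebra.adjoin ℂ ({T : Mp p | IsAnalytic T} ∪ {zM (-1)}) := by
  have hpos : ∀ k : ℕ, (zM (k : ℤ) : Mp p) ∈ Algebra.adjoin ℂ ({T : Mp p | IsAnalytic T} ∪ {zM (-1)}) := by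
    intro k
    apply Algebra.subset_adjoin
    left
    intro n hn
    rw [coef_zM, if_neg]
    intro h
    have : (0 : ℤ) ≤ k := by positivity
    linarith
  have hneg : ∀ k : ℕ, (zM (-(k : ℤ)) : Mp p) ∈ Algebra.adjoin ℂ ({T : Mp p | IsAnalytic T} ∪ {zM (-1)}) := by
    intro k
    induction k with
    | zero => simpa using hpos 0
    | succ k ih =>
      have h1 : (zM (-((k + 1 : ℕ) : ℤ)) : Mp p) = zM (-(k : ℤ)) * zM (-1) := by
        rw [zM_mul]; congr 1; push_cast; ring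
      rw [h1]
      exact Subalgebra.mul_mem _ ih (Algebra.subset_adjoin (Or.inr rfl))
  rcases Int.eq_nat_or_neg k with ⟨n, rfl | rfl⟩
  · exact hpos n
  · exact hneg n

lemma zM_mem_Sa (k : ℤ) : (zM k : Mp p) ∈ Sa p := adjoin_le (zM_mem_adj k)

lemma Sa_closed : IsClosed ((Sa p : Subalgebra ℂ (Mp p)) : Set (Mp p)) :=
  Subalgebra.isClosed_topologicalClosure _

lemma Wc_le_Sa : Wc p ≤ Sa p := by
  have h : Algebra.adjoin ℂ (Set.range (zM (p := p))) ≤ Sa p := by
    apply Algebra.adjoin_le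
    rintro x ⟨k, rfl⟩
    exact zM_mem_Sa k
  exact Subalgebra.topologicalClosure_minimal h Sa_closed

lemma analytic_mem_Sa {T : Mp p} (hT : IsAnalytic T) : T ∈ Sa p :=
  adjoin_le (Algebra.subset_adjoin (Or.inl hT))

lemma tsum_mem_Sa {ι : Type} {g : ι → Mp p} (hg : Summable g) (h : ∀ i, g i ∈ Sa p) : ∑' i, g i ∈ Sa p := by
  refine Sa_closed.mem_of_tendsto hg.hasSum (Eventually.of_forall fun s => ?_)
  exact (Sa p).sum_mem (fun i _ => h i)

section characters

variable {m₁ m₂ : Mp p →ₐ[ℂ] ℂ}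

lemma m_cont (m : Mp p →ₐ[ℂ] ℂ) : Continuous m := map_continuous m

lemma m_zM (m : Mp p →ₐ[ℂ] ℂ) (k : ℤ) : m (zM k) = (m (zM 1)) ^ k := by
  have h0 : m (zM 1) * m (zM (-1)) = 1 := by
    rw [← map_mul, zM_mul, add_neg_cancel, zM_zero, map_one]
  have h1 : m (zM 1) ≠ 0 := left_ne_zero_of_mul_eq_one h0
  have h2 : m (zM (-1)) = (m (zM 1))⁻¹ := eq_inv_of_mul_eq_one_right h0
  induction k using Int.induction_on with
  | zero => rw [zM_zero, map_one, zpow_zero]
  | succ k ih => rw [← zM_mul, map_mul, ih, zpow_add_one₀ h1]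
  | pred k ih => rw [sub_eq_add_neg, ← zM_mul, map_mul, ih, h2, zpow_add₀ h1, zpow_neg_one]

lemma zM_one_analytic : IsAnalytic (zM 1 : Mp p) := by
  intro n hn
  rw [coef_zM, if_neg (by intro h; linarith)]

lemma agree_zM (hA : ∀ T : Mp p, IsAnalytic T → m₁ T = m₂ T) (k : ℤ) : m₁ (zM k) = m₂ (zM k) := by
  rw [m_zM, m_zM m₂, hA _ zM_one_analytic]

lemma agree_Sa (hA : ∀ T : Mp p, IsAnalytic T → m₁ T = m₂ T) {T : Mp p} (hT : T ∈ Sa p) : m₁ T = m₂ T := by
  have hcl : IsClosed {T : Mp p | m₁ T = m₂ T} := isClosed_eq (m_cont m₁) (m_cont m₂)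
  have h1 : ∀ q ∈ Algebra.adjoin ℂ ({T : Mp p | IsAnalytic T} ∪ {zM (-1)}), m₁ q = m₂ q := by
    intro q hq
    induction hq using Algebra.adjoin_induction with
    | mem x hx =>
      rcases hx with hx | hx
      · exact hA x hx
      · rw [Set.mem_singleton_iff] at hx
        rw [hx]; exact agree_zM hA _
    | algebraMap c => rw [AlgHomClass.commutes, AlgHomClass.commutes]
    | add x y _ _ hx hy => rw [map_add, map_add, hx, hy]
    | mul x y _ _ hx hy => rw [map_mul, map_mul, hx, hy]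
  have h2 : closure ((Algebra.adjoin ℂ ({T : Mp p | IsAnalytic T} ∪ {zM (-1)}) : Subalgebra ℂ (Mp p)) : Set (Mp p)) ⊆
      {T : Mp p | m₁ T = m₂ T} := hcl.closure_subset_iff.2 h1
  exact h2 hT

lemma m_cv (m : Mp p →ₐ[ℂ] ℂ) {r : ℤ → ℂ} (hr : Summable fun n => ‖r n‖) :
    HasSum (fun n : ℤ => r n * (m (zM 1)) ^ n) (m (cv r)) := by
  have h1 := (cv_summable (p := p) hr).hasSum.map m (m_cont m)
  have h2 : (m ∘ fun n => r n • (zM n : Mp p)) = fun n : ℤ => r n * (m (zM 1)) ^ n := by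
    funext n
    simp only [Function.comp_apply]
    rw [map_smul, m_zM, smul_eq_mul]
  rw [h2] at h1
  exact h1

/-- the key of the argument: sums of nearly analytic pieces -/
lemma agree_limit (hA : ∀ T : Mp p, IsAnalytic T → m₁ T = m₂ T) {A : ℕ → Mp p} {u : Mp p}
    (hu : ∀ f : El p, Tendsto (fun J => (∑ k ∈ Finset.range J, A k : Mp p).1 f) atTop (𝓝 (u.1 f)))
    (S : Mp p) {q : ℕ → Mp p} (hq : ∀ k, IsAnalytic (q k)) (hW : ∀ k, A k * S - q k ∈ Sa p)
    (hn : ∀ k, ‖A k * S - q k‖ ≤ (1 / 2) ^ k) : m₁ (u * S) = m₂ (u * S) := by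
  have hsum : Summable (fun k => A k * S - q k) :=
    Summable.of_norm_bounded summable_geometric_two hn
  set e : Mp p := ∑' k, (A k * S - q k) with he
  have he' : m₁ e = m₂ e := agree_Sa hA (tsum_mem_Sa hsum hW)
  have hw : IsAnalytic (u * S - e) := by
    intro n hneg
    have h1 : Tendsto (fun J => coef ((∑ k ∈ Finset.range J, A k) * S) n) atTop (𝓝 (coef (u * S) n)) :=
      coef_limit (U := fun J => (∑ k ∈ Finset.range J, A k) * S) (u := u * S) (fun f => hu (S.1 f)) n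
    have h2 : Tendsto (fun J => coef (∑ k ∈ Finset.range J, (A k * S - q k)) n) atTop (𝓝 (coef e n)) := by
      have h3 := hsum.hasSum.tendsto_sum_nat
      exact ((coefL n).continuous.tendsto _).comp h3
    have h3 := h1.sub h2
    have h4 : (fun J => coef ((∑ k ∈ Finset.range J, A k) * S) n - coef (∑ k ∈ Finset.range J, (A k * S - q k)) n)
        = fun _ => 0 := by
      funext J
      rw [← coef_sub, Finset.sum_mul, ← Finset.sum_sub_distrib]
      have h5 : ∑ k ∈ Finset.range J, (A k * S - (A k * S - q k)) = ∑ k ∈ Finset.range J, q k := by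
        apply Finset.sum_congr rfl; intro k _; abel
      rw [h5, ← coefL_apply, map_sum]
      apply Finset.sum_eq_zero
      intro k _
      exact hq k n hneg
    rw [h4] at h3
    rw [coef_sub]
    exact tendsto_nhds_unique h3 tendsto_const_nhds
  have h1 := hA _ hw
  rw [map_sub, map_sub, he'] at h1
  exact sub_left_injective h1

end characters

end

end Pool.Agent.MpA
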