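import Mathlib

set_option autoImplicit false

/-!
Definitions used in the statement of the theorem on characters of `M_p`.
-/

namespace Pool.Agent.MpA.Stmt

open scoped ENNReal

noncomputable section

/-- `ℓ^p(ℤ)`, complex valued sequences -/
def Ell (p : ℝ≥0∞) : Type := lp (fun _ : ℤ => ℂ) p

instance instEllGroup (p : ℝ≥0∞) [Fact (1 ≤ p)] : NormedAddCommGroup (Ell p) :=
  lp.normedAddCommGroup (E := fun _ : ℤ => ℂ) (p := p)

instance instEllSpace (p : ℝ≥0∞) [Fact (1 ≤ p)] : NormedSpace ℂ (Ell p) :=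
  lp.instNormedSpace (E := fun _ : ℤ => ℂ) (p := p) (𝕜 := ℂ)

/-- the `n`-th coordinate of a sequence -/
def coord {p : ℝ≥0∞} (f : Ell p) (n : ℤ) : ℂ := (show lp (fun _ : ℤ => ℂ) p from f) n

/-- the sequence `δ_0` -/
def delta (p : ℝ≥0∞) : Ell p := lp.single p (0 : ℤ) (1 : ℂ)

/-- bounded operators on `ℓ^p(ℤ)` -/
def Op (p : ℝ≥0∞) [Fact (1 ≤ p)] : Type := Ell p →L[ℂ] Ell p

instance instOpRing (p : ℝ≥0∞) [Fact (1 ≤ p)] : NormedRing (Op p) :=
  ContinuousLinearMap.toNormedRing (𝕜 := ℂ) (E := Ell p)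

instance instOpAlgebra (p : ℝ≥0∞) [Fact (1 ≤ p)] : NormedAlgebra ℂ (Op p) :=
  ContinuousLinearMap.toNormedAlgebra (𝕜 := ℂ) (E := Ell p)

/-- the value of an operator at a sequence -/
def Op.ap {p : ℝ≥0∞} [Fact (1 ≤ p)] (T : Op p) (f : Ell p) : Ell p := (show Ell p →L[ℂ] Ell p from T) f

/-- The multiplier algebra `M_p` of the space of distributions on the circle whose Fourier
coefficients are in `ℓ^p`, seen on the side of the coefficients: the bounded operators on `ℓ^p(ℤ)`
which commute with the shift `S`, `(S f) n = f (n - 1)` (multiplication by `z`). -/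
def MS (p : ℝ≥0∞) [Fact (1 ≤ p)] : Subalgebra ℂ (Op p) :=
  Subalgebra.centralizer ℂ {S : Op p | ∀ f n, coord (S.ap f) n = coord f (n - 1)}

/-- `M_p` with the operator norm -/
def M (p : ℝ≥0∞) [Fact (1 ≤ p)] : Type := MS p

instance instMRing (p : ℝ≥0∞) [Fact (1 ≤ p)] : NormedRing (M p) := SubringClass.toNormedRing (MS p)

instance instMAlgebra (p : ℝ≥0∞) [Fact (1 ≤ p)] : NormedAlgebra ℂ (M p) :=
  SubalgebraClass.toNormedAlgebra (MS p)

variable {p : ℝ≥0∞} [Fact (1 ≤ p)]

/-- a multiplier as an operator -/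
def M.op (T : M p) : Op p := (show MS p from T).1

/-- the `n`-th Fourier coefficient of the multiplier `T`: the `n`-th coordinate of `T δ_0` -/
def coef (T : M p) (n : ℤ) : ℂ := coord (T.op.ap (delta p)) n

/-- `T` is in `M_p A`: the Fourier coefficients with negative index vanish. -/
def IsAnalytic (T : M p) : Prop := ∀ n : ℤ, n < 0 → coef T n = 0

/-- `T` is a trigonometric polynomial. -/
def IsTrig (T : M p) : Prop := {n : ℤ | coef T n ≠ 0}.Finite

/-- the closed subalgebra of `M_p` generated by `M_p A` and the trigonometric polynomials -/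
def Sar (p : ℝ≥0∞) [Fact (1 ≤ p)] : Set (M p) :=
  closure (Algebra.adjoin ℂ {T : M p | IsAnalytic T ∨ IsTrig T} : Set (M p))

/-- `T` is regular at the point `μ` of the circle: there is a function `r` on the circle with
absolutely summable Fourier coefficients and `r μ ≠ 0` such that `r T` is in the closed algebra
generated by `M_p A` and the trigonometric polynomials. -/
def RegularAt (T : M p) (μ : ℂ) : Prop :=
  ∃ R : M p, Summable (fun n => ‖coef R n‖) ∧ ∑' n : ℤ, coef R n * μ ^ n ≠ 0 ∧ R * T ∈ Sar p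

/-- the point `lam` of the circle is at most an isolated singularity of `T`: all points `μ ≠ lam`
of the circle in a neighbourhood of `lam` are regular for `T` (nothing is asked at `lam`). -/
def IsolatedAt (T : M p) (lam : ℂ) : Prop :=
  ∃ ε : ℝ, 0 < ε ∧ ∀ μ : ℂ, ‖μ‖ = 1 → μ ≠ lam → ‖μ - lam‖ < ε → RegularAt T μ

end

end Pool.Agent.MpA.Stmt
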