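import Pool.Agent.MpA.Rot
import Pool.Agent.MpA.Stmt

set_option autoImplicit false

/-!
Transport to the definitions of the statement.
-/

namespace Pool.Agent.MpA

open Filter Topology
open scoped ENNReal

noncomputable section

variable {p : ℝ≥0∞} [Fact (1 ≤ p)]

lemma shift_unique (S : Stmt.Op p) (hS : ∀ f n, Stmt.coord (S.ap f) n = Stmt.coord f (n - 1)) :
    (show El p →L[ℂ] El p from S) = sh p 1 := by
  ext f n
  exact hS f n

lemma sh_mem (f : El p) (n : ℤ) : Stmt.coord ((show Stmt.Op p from sh p 1).ap f) n = Stmt.coord (p := p) f (n - 1) := rfl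

/-- from the internal algebra to the algebra of the statement -/
def toM (T : Mp p) : Stmt.M p :=
  (show Stmt.MS p from ⟨(show Stmt.Op p from T.1), by
    refine (Subalgebra.mem_centralizer_iff ℂ).2 ?_
    intro S hS
    have h1 := shift_unique S hS
    have h2 := comm_sh T 1
    rw [← h1] at h2
    exact h2⟩)

/-- from the algebra of the statement to the internal algebra -/
def ofM (T : Stmt.M p) : Mp p :=
  ⟨(show El p →L[ℂ] El p from T.op), by
    refine (Subalgebra.mem_centralizer_iff ℂ).2 ?_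
    intro S hS
    rw [Set.mem_singleton_iff] at hS
    have h1 : T.op ∈ Stmt.MS p := (show Stmt.MS p from T).2
    have h2 := (Subalgebra.mem_centralizer_iff ℂ).1 h1 (show Stmt.Op p from sh p 1) (fun f n => sh_mem f n)
    rw [hS]
    exact h2⟩

lemma ofM_toM (T : Mp p) : ofM (toM T) = T := rfl
lemma toM_ofM (T : Stmt.M p) : toM (ofM T) = T := rfl

/-- `toM` as an algebra homomorphism -/
def toMA : Mp p →ₐ[ℂ] Stmt.M p where
  toFun := toM
  map_one' := rfl
  map_mul' _ _ := rfl
  map_zero' := rfl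
  map_add' _ _ := rfl
  commutes' _ := rfl

/-- `ofM` as an algebra homomorphism -/
def ofMA : Stmt.M p →ₐ[ℂ] Mp p where
  toFun := ofM
  map_one' := rfl
  map_mul' _ _ := rfl
  map_zero' := rfl
  map_add' _ _ := rfl
  commutes' _ := rfl

lemma norm_ofM (T : Stmt.M p) : ‖ofM T‖ = ‖T‖ := rfl

lemma ofMA_cont : Continuous (ofMA : Stmt.M p → Mp p) := by
  apply continuous_of_linear_of_bound (𝕜 := ℂ) (C := 1)
  · intro T S; exact map_add ofMA T S
  · intro c T; exact map_smul ofMA c T
  · intro T; rw [one_mul]; exact (norm_ofM T).le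

lemma toMA_cont : Continuous (toMA : Mp p → Stmt.M p) := by
  apply continuous_of_linear_of_bound (𝕜 := ℂ) (C := 1)
  · intro T S; exact map_add toMA T S
  · intro c T; exact map_smul toMA c T
  · intro T
    rw [one_mul]
    have := norm_ofM (toM T)
    rw [ofM_toM] at this
    exact this.symm.le

instance : CompleteSpace (Stmt.M p) := by
  have h : IsUniformInducing (ofMA : Stmt.M p → Mp p) := by
    have h1 : Isometry (ofMA : Stmt.M p → Mp p) := AddMonoidHomClass.isometry_of_norm ofMA norm_ofM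
    exact h1.isUniformInducing
  refine (completeSpace_iff_isComplete_range h).2 ?_
  have h2 : Set.range (ofMA : Stmt.M p → Mp p) = Set.univ := by
    rw [Set.eq_univ_iff_forall]
    intro T
    exact ⟨toM T, ofM_toM T⟩
  rw [h2]
  exact isComplete_univ

lemma coef_ofM (T : Stmt.M p) (n : ℤ) : coef (ofM T) n = Stmt.coef T n := rfl

/-- trigonometric polynomials are in `Sa` -/
lemma trig_mem (hp : p ≠ ⊤) (T : Mp p) (hT : {n : ℤ | coef T n ≠ 0}.Finite) : T ∈ Sa p := by
  have hs : Summable fun n => ‖coef T n‖ := by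
    apply summable_of_ne_finset_zero (s := hT.toFinset)
    intro n hn
    rw [Set.Finite.mem_toFinset] at hn
    have h0 : coef T n = 0 := by
      by_contra h; exact hn h
    rw [h0, norm_zero]
  rw [eq_cv hp T hs]
  exact Wc_le_Sa (cv_mem _ hs)

lemma Sar_le (hp : p ≠ ⊤) {T : Stmt.M p} (hT : T ∈ Stmt.Sar p) : ofM T ∈ Sa p := by
  have h1 : Algebra.adjoin ℂ {T : Stmt.M p | Stmt.IsAnalytic T ∨ Stmt.IsTrig T} ≤ (Sa p).comap ofMA := by
    apply Algebra.adjoin_le
    rintro x (hx | hx)
    · exact analytic_mem_Sa hx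
    · exact trig_mem hp _ hx
  have h2 : IsClosed (((Sa p).comap ofMA : Subalgebra ℂ (Stmt.M p)) : Set (Stmt.M p)) :=
    Sa_closed.preimage ofMA_cont
  have h3 : closure (Algebra.adjoin ℂ {T : Stmt.M p | Stmt.IsAnalytic T ∨ Stmt.IsTrig T} : Set (Stmt.M p)) ⊆
      (((Sa p).comap ofMA : Subalgebra ℂ (Stmt.M p)) : Set (Stmt.M p)) := h2.closure_subset_iff.2 h1
  exact h3 hT

lemma regular_ofM (hp : p ≠ ⊤) {T : Stmt.M p} {μ : ℂ} (h : Stmt.RegularAt T μ) : RegularAt (ofM T) μ := by
  obtain ⟨R, h1, h2, h3⟩ := h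
  exact ⟨ofM R, h1, h2, Sar_le hp h3⟩

/-- the theorem, with the definitions of the statement -/
theorem main (hp1 : 1 < p) (hp : p ≠ ⊤) (z : Stmt.M p) (hz : ∀ n, Stmt.coef z n = if n = 1 then 1 else 0)
    (m₁ m₂ : Stmt.M p →ₐ[ℂ] ℂ) (h : ∀ T : Stmt.M p, Stmt.IsAnalytic T → m₁ T = m₂ T) (T : Stmt.M p)
    (hT : T ∈ closure (Algebra.adjoin ℂ {S : Stmt.M p | Stmt.IsolatedAt S (m₁ z)} : Set (Stmt.M p))) :
    m₁ T = m₂ T := by
  have hz' : z = toM (zM 1) := by
    have h1 : ofM z = zM 1 := by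
      apply eq_of_coef hp
      intro n
      rw [coef_ofM, hz, coef_zM]
    rw [← h1, toM_ofM]
  have hgen : ∀ S : Stmt.M p, Stmt.IsolatedAt S (m₁ z) → m₁ S = m₂ S := by
    rintro S ⟨ε, hε, hS⟩
    have h1 := at_point hp1 hp (m₁.comp toMA) (m₂.comp toMA) (fun T hT => h (toM T) hT) (ofM S) hε (by
      intro μ hμ1 hμ2 hμ3
      apply regular_ofM hp
      apply hS μ hμ1
      · rw [hz']; exact hμ2
      · rw [hz']; exact hμ3)
    exact h1
  have hcl : IsClosed {T : Stmt.M p | m₁ T = m₂ T} := isClosed_eq (map_continuous m₁) (map_continuous m₂)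
  have h1 : ∀ q ∈ Algebra.adjoin ℂ {S : Stmt.M p | Stmt.IsolatedAt S (m₁ z)}, m₁ q = m₂ q := by
    intro q hq
    induction hq using Algebra.adjoin_induction with
    | mem x hx => exact hgen x hx
    | algebraMap c => rw [AlgHomClass.commutes, AlgHomClass.commutes]
    | add x y _ _ hx hy => rw [map_add, map_add, hx, hy]
    | mul x y _ _ hx hy => rw [map_mul, map_mul, hx, hy]
  exact (hcl.closure_subset_iff.2 h1) hT

end

end Pool.Agent.MpA
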