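import Pool.Agent.MpA.Dec

set_option autoImplicit false

/-!
Weak (1,1) bound for convolution kernels on `ℤ` satisfying Hoermander's condition.
-/

namespace Pool.Agent.MpA

open Finset
open scoped BigOperators

noncomputable section

/-- `ℓ^p` bound (with constant `C`, not raised to the power `1/p`) of the convolution with `K`
between finitely supported sequences. -/
def KB (p C : ℝ) (K : ℤ → ℂ) : Prop :=
  ∀ (X Y : Finset ℤ) (f : ℤ → ℂ), ∑ y ∈ Y, ‖∑ x ∈ X, K (y - x) * f x‖ ^ p ≤ C * ∑ x ∈ X, ‖f x‖ ^ p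

/-- Hoermander's condition with constant `A`. -/
def Horm (A : ℝ) (K : ℤ → ℂ) : Prop :=
  ∀ (h : ℤ) (Y : Finset ℤ), (∀ y ∈ Y, 2 * |h| ≤ |y|) → ∑ y ∈ Y, ‖K (y - h) - K y‖ ≤ A

/-- convolution of `K` with a sequence on `[0, 2^R)` -/
def TK (K : ℤ → ℂ) (R : ℕ) (e : ℕ → ℂ) (y : ℤ) : ℂ := ∑ x ∈ range (2 ^ R), K (y - x) * e x

lemma TK_decomp (K : ℤ → ℂ) (R : ℕ) (e : ℕ → ℂ) (lam : ℝ) (y : ℤ) :
    TK K R e y = TK K R (gg R e lam) y + ∑ p ∈ Pb R e lam, TK K R (uu R e p) y := by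
  unfold TK
  rw [Finset.sum_comm, ← Finset.sum_add_distrib]
  apply Finset.sum_congr rfl
  intro x _
  rw [← Finset.mul_sum, ← mul_add]
  congr 1
  unfold gg
  ring

/-- base point of a block -/
def bp (R : ℕ) (p : ℕ × ℕ) : ℤ := (p.2 * 2 ^ (R - p.1) : ℕ)

/-- length of a block -/
def bl (R : ℕ) (p : ℕ × ℕ) : ℤ := (2 ^ (R - p.1) : ℕ)

lemma blk_int {R : ℕ} {p : ℕ × ℕ} {x : ℕ} (hx : x ∈ blk R p.1 p.2) :
    bp R p ≤ (x : ℤ) ∧ (x : ℤ) < bp R p + bl R p := by
  unfold blk at hx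
  rw [mem_Ico, add_mul, one_mul] at hx
  unfold bp bl
  constructor
  · exact_mod_cast hx.1
  · exact_mod_cast hx.2

lemma bl_pos (R : ℕ) (p : ℕ × ℕ) : 0 < bl R p := by unfold bl; positivity

/-- far part: outside of the doubled interval the bad part contributes `A` times its mass -/
lemma far_bad {K : ℤ → ℂ} {A : ℝ} (hA : Horm A K) {R : ℕ} {e : ℕ → ℂ} {lam : ℝ} {p : ℕ × ℕ}
    (hp : p ∈ Pb R e lam) (Y : Finset ℤ) (hY : ∀ y ∈ Y, 2 * bl R p ≤ |y - bp R p|) :
    ∑ y ∈ Y, ‖TK K R (uu R e p) y‖ ≤ A * ∑ x ∈ range (2 ^ R), ‖uu R e p x‖ := by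
  have h1 : ∀ y : ℤ, TK K R (uu R e p) y =
      ∑ x ∈ range (2 ^ R), (K (y - x) - K (y - bp R p)) * uu R e p x := by
    intro y
    unfold TK
    simp_rw [sub_mul]
    rw [Finset.sum_sub_distrib, ← Finset.mul_sum, sum_uu hp, mul_zero, sub_zero]
  calc ∑ y ∈ Y, ‖TK K R (uu R e p) y‖
      ≤ ∑ y ∈ Y, ∑ x ∈ range (2 ^ R), ‖K (y - x) - K (y - bp R p)‖ * ‖uu R e p x‖ := by
        apply Finset.sum_le_sum
        intro y _
        rw [h1 y]
        refine (norm_sum_le _ _).trans (le_of_eq ?_)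
        apply Finset.sum_congr rfl
        intro x _
        rw [norm_mul]
    _ = ∑ x ∈ range (2 ^ R), (∑ y ∈ Y, ‖K (y - x) - K (y - bp R p)‖) * ‖uu R e p x‖ := by
        rw [Finset.sum_comm]
        apply Finset.sum_congr rfl
        intro x _
        rw [Finset.sum_mul]
    _ ≤ ∑ x ∈ range (2 ^ R), A * ‖uu R e p x‖ := by
        apply Finset.sum_le_sum
        intro x _
        by_cases hx : x ∈ blk R p.1 p.2
        · apply mul_le_mul_of_nonneg_right _ (norm_nonneg _)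
          have hb := blk_int hx
          have h2 := hA ((x : ℤ) - bp R p) (Y.map (Equiv.subRight (bp R p)).toEmbedding) (by
            intro y hy
            rw [Finset.mem_map_equiv] at hy
            have h3 := hY _ hy
            simp only [Equiv.subRight_symm_apply, add_sub_cancel_right] at h3
            rw [abs_of_nonneg (by linarith [hb.1])]
            linarith [hb.2])
          rw [Finset.sum_map] at h2
          refine le_trans (le_of_eq ?_) h2
          apply Finset.sum_congr rfl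
          intro y _
          simp only [Equiv.coe_toEmbedding, Equiv.subRight_apply]
          congr 2
          congr 1
          ring
        · have : uu R e p x = 0 := by unfold uu; rw [if_neg hx]
          rw [this]; simp
    _ = A * ∑ x ∈ range (2 ^ R), ‖uu R e p x‖ := by rw [Finset.mul_sum]

lemma near_card (c l : ℤ) (hl : 0 < l) (Y : Finset ℤ) :
    ((Y.filter (fun y => ¬ 2 * l ≤ |y - c|)).card : ℝ) ≤ 4 * l := by
  have h1 : Y.filter (fun y => ¬ 2 * l ≤ |y - c|) ⊆ Finset.Ico (c - 2 * l) (c + 2 * l) := by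
    intro y hy
    rw [mem_filter, not_le, abs_lt] at hy
    rw [Finset.mem_Ico]
    constructor <;> linarith [hy.2.1, hy.2.2]
  have h2 := Finset.card_le_card h1
  rw [Int.card_Ico] at h2
  have h3 : ((c + 2 * l - (c - 2 * l)).toNat : ℤ) = 4 * l := by
    rw [Int.toNat_of_nonneg (by linarith)]; ring
  have h4 : ((Y.filter (fun y => ¬ 2 * l ≤ |y - c|)).card : ℤ) ≤ 4 * l := by
    rw [← h3]; exact_mod_cast h2
  exact_mod_cast h4

theorem weak_root {K : ℤ → ℂ} {A B : ℝ} (hA0 : 0 ≤ A) (hB0 : 0 ≤ B) (hB : KB 2 B K) (hA : Horm A K)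
    (R : ℕ) (e : ℕ → ℂ) (α : ℝ) (hα : 0 < α)
    (hroot : ((2 : ℝ) ^ R)⁻¹ * ∑ x ∈ range (2 ^ R), ‖e x‖ ≤ α) (Y : Finset ℤ) :
    α * ∑ y ∈ Y, (if α < ‖TK K R e y‖ then (1 : ℝ) else 0) ≤
      (4 + 24 * B + 4 * A) * ∑ x ∈ range (2 ^ R), ‖e x‖ := by
  set n1 := ∑ x ∈ range (2 ^ R), ‖e x‖ with hn1
  have hn10 : 0 ≤ n1 := Finset.sum_nonneg fun _ _ => norm_nonneg _
  have hblk0 : blk R 0 0 = range (2 ^ R) := by
    unfold blk; simp
  have havg0 : avgB R e 0 0 ≤ α := by
    unfold avgB; rw [hblk0]; simpa using hroot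
  set P := Pb R e α with hP
  -- pointwise
  have hpt : ∀ y : ℤ, (if α < ‖TK K R e y‖ then α else 0) ≤
      (∑ p ∈ P, if ¬ 2 * bl R p ≤ |y - bp R p| then α else 0) +
      4 / α * ‖TK K R (gg R e α) y‖ ^ 2 +
      2 * ∑ p ∈ P, (if 2 * bl R p ≤ |y - bp R p| then ‖TK K R (uu R e p) y‖ else 0) := by
    intro y
    have t1 : 0 ≤ ∑ p ∈ P, if ¬ 2 * bl R p ≤ |y - bp R p| then α else 0 := by
      apply Finset.sum_nonneg; intro p _; split_ifs <;> linarith
    have t2 : 0 ≤ 4 / α * ‖TK K R (gg R e α) y‖ ^ 2 := by positivity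
    have t3 : 0 ≤ 2 * ∑ p ∈ P, (if 2 * bl R p ≤ |y - bp R p| then ‖TK K R (uu R e p) y‖ else 0) := by
      apply mul_nonneg (by positivity)
      apply Finset.sum_nonneg; intro p _
      split_ifs <;> first | exact le_rfl | exact norm_nonneg _
    split_ifs with hc
    · by_cases hex : ∃ p ∈ P, ¬ 2 * bl R p ≤ |y - bp R p|
      · obtain ⟨p, hp, hap⟩ := hex
        have h1 : α ≤ ∑ p ∈ P, if ¬ 2 * bl R p ≤ |y - bp R p| then α else 0 := by
          have := Finset.single_le_sum (f := fun p => if ¬ 2 * bl R p ≤ |y - bp R p| then α else 0)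
            (fun q _ => by
              show (0 : ℝ) ≤ if ¬ 2 * bl R q ≤ |y - bp R q| then α else 0
              split_ifs <;> linarith) hp
          simp only [hap, not_false_eq_true, if_true] at this
          exact this
        linarith
      · push Not at hex
        set a := ‖TK K R (gg R e α) y‖ with ha
        set b := ∑ p ∈ P, ‖TK K R (uu R e p) y‖ with hb
        have h1 : α < a + b := by
          refine lt_of_lt_of_le hc ?_
          rw [TK_decomp K R e α y, ha, hb]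
          exact (norm_add_le _ _).trans (by gcongr; exact norm_sum_le _ _)
        have h2 : ∑ p ∈ P, (if 2 * bl R p ≤ |y - bp R p| then ‖TK K R (uu R e p) y‖ else 0) = b := by
          rw [hb]
          apply Finset.sum_congr rfl
          intro p hp
          rw [if_pos (hex p hp)]
        rw [h2]
        have hA0 : 0 ≤ a := norm_nonneg _
        have hB0 : 0 ≤ b := Finset.sum_nonneg fun _ _ => norm_nonneg _
        rcases le_or_gt (α / 2) a with hle | hlt
        · have h5 : α ≤ 4 / α * a ^ 2 := by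
            rw [div_mul_eq_mul_div, le_div_iff₀ hα]
            nlinarith
          linarith
        · linarith
    · linarith
  have hcount : α * ∑ y ∈ Y, (if α < ‖TK K R e y‖ then (1 : ℝ) else 0) =
      ∑ y ∈ Y, (if α < ‖TK K R e y‖ then α else 0) := by
    rw [Finset.mul_sum]
    apply Finset.sum_congr rfl
    intro y _
    split_ifs <;> ring
  have hT1 : ∑ y ∈ Y, (∑ p ∈ P, if ¬ 2 * bl R p ≤ |y - bp R p| then α else 0) ≤ 4 * n1 := by
    rw [Finset.sum_comm]
    calc ∑ p ∈ P, ∑ y ∈ Y, (if ¬ 2 * bl R p ≤ |y - bp R p| then α else 0)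
        ≤ ∑ p ∈ P, 4 * (α * (2 ^ R * ((2 : ℝ) ^ p.1)⁻¹)) := by
          apply Finset.sum_le_sum
          intro p hp
          rw [← Finset.sum_filter, Finset.sum_const, nsmul_eq_mul]
          have h1 := near_card (bp R p) (bl R p) (bl_pos R p) Y
          have h2 : ((bl R p : ℤ) : ℝ) = 2 ^ R * ((2 : ℝ) ^ p.1)⁻¹ := by
            unfold bl
            have hpR : p.1 ≤ R := (mem_Pb.1 hp).1
            push_cast
            have h3 : (2 : ℝ) ^ R = 2 ^ p.1 * 2 ^ (R - p.1) := by rw [← pow_add]; congr 1; omega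
            rw [h3]; field_simp
          rw [h2] at h1
          nlinarith [mul_le_mul_of_nonneg_right h1 hα.le]
      _ = 4 * (2 ^ R * (α * ∑ p ∈ P, ((2 : ℝ) ^ p.1)⁻¹)) := by
          rw [Finset.mul_sum, Finset.mul_sum, Finset.mul_sum]
          apply Finset.sum_congr rfl; intro p _; ring
      _ ≤ 4 * (2 ^ R * (((2 : ℝ) ^ R)⁻¹ * n1)) := by
          have := Pb_measure R e α
          gcongr
      _ = 4 * n1 := by
          rw [mul_inv_cancel_left₀ (by positivity)]
  have hT2 : ∑ y ∈ Y, (4 / α * ‖TK K R (gg R e α) y‖ ^ 2) ≤ 24 * B * n1 := by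
    have hL2 : ∑ y ∈ Y, ‖TK K R (gg R e α) y‖ ^ 2 ≤ B * ∑ x ∈ range (2 ^ R), ‖gg R e α x‖ ^ 2 := by
      have h1 := hB ((range (2 ^ R)).map Nat.castEmbedding) Y (fun z => gg R e α z.toNat)
      simp only [Finset.sum_map, Nat.castEmbedding_apply, Int.toNat_natCast] at h1
      have h2 : ∀ x : ℝ, x ^ (2 : ℝ) = x ^ 2 := fun x => Real.rpow_two x
      simp only [h2] at h1
      exact h1
    calc ∑ y ∈ Y, (4 / α * ‖TK K R (gg R e α) y‖ ^ 2)
        = 4 / α * ∑ y ∈ Y, ‖TK K R (gg R e α) y‖ ^ 2 := by rw [Finset.mul_sum]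
      _ ≤ 4 / α * (B * ∑ x ∈ range (2 ^ R), ‖gg R e α x‖ ^ 2) := by gcongr
      _ ≤ 4 / α * (B * ∑ x ∈ range (2 ^ R), 2 * α * ‖gg R e α x‖) := by
          gcongr with x hx
          rw [pow_two]
          exact mul_le_mul_of_nonneg_right (norm_gg_le hα havg0 (mem_range.1 hx)) (norm_nonneg _)
      _ = 8 * B * ∑ x ∈ range (2 ^ R), ‖gg R e α x‖ := by
          rw [← Finset.mul_sum]
          field_simp
          ring
      _ ≤ 8 * B * (3 * n1) := by
          gcongr
          exact sum_norm_gg R e α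
      _ = 24 * B * n1 := by ring
  have hT3 : ∑ y ∈ Y, (2 * ∑ p ∈ P,
      (if 2 * bl R p ≤ |y - bp R p| then ‖TK K R (uu R e p) y‖ else 0)) ≤ 4 * A * n1 := by
    rw [← Finset.mul_sum, Finset.sum_comm]
    calc 2 * ∑ p ∈ P, ∑ y ∈ Y, (if 2 * bl R p ≤ |y - bp R p| then ‖TK K R (uu R e p) y‖ else 0)
        ≤ 2 * ∑ p ∈ P, A * ∑ x ∈ range (2 ^ R), ‖uu R e p x‖ := by
          apply mul_le_mul_of_nonneg_left _ (by norm_num)
          apply Finset.sum_le_sum
          intro p hp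
          rw [← Finset.sum_filter]
          exact far_bad hA hp _ (fun y hy => (mem_filter.1 hy).2)
      _ = 2 * A * ∑ p ∈ P, ∑ x ∈ range (2 ^ R), ‖uu R e p x‖ := by
          rw [← Finset.mul_sum]; ring
      _ ≤ 2 * A * (2 * n1) := by
          gcongr
          exact sum_sum_norm_uu R e α
      _ = 4 * A * n1 := by ring
  rw [hcount]
  calc ∑ y ∈ Y, (if α < ‖TK K R e y‖ then α else 0)
      ≤ ∑ y ∈ Y, ((∑ p ∈ P, if ¬ 2 * bl R p ≤ |y - bp R p| then α else 0) +
      4 / α * ‖TK K R (gg R e α) y‖ ^ 2 +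
      2 * ∑ p ∈ P, (if 2 * bl R p ≤ |y - bp R p| then ‖TK K R (uu R e p) y‖ else 0)) :=
        Finset.sum_le_sum (fun y _ => hpt y)
    _ = ∑ y ∈ Y, (∑ p ∈ P, if ¬ 2 * bl R p ≤ |y - bp R p| then α else 0) +
        ∑ y ∈ Y, (4 / α * ‖TK K R (gg R e α) y‖ ^ 2) +
        ∑ y ∈ Y, (2 * ∑ p ∈ P,
          (if 2 * bl R p ≤ |y - bp R p| then ‖TK K R (uu R e p) y‖ else 0)) := by
        rw [Finset.sum_add_distrib, Finset.sum_add_distrib]
    _ ≤ 4 * n1 + 24 * B * n1 + 4 * A * n1 := add_le_add (add_le_add hT1 hT2) hT3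
    _ = (4 + 24 * B + 4 * A) * n1 := by ring

/-- weak (1,1) -/
theorem weak11 {K : ℤ → ℂ} {A B : ℝ} (hA0 : 0 ≤ A) (hB0 : 0 ≤ B) (hB : KB 2 B K) (hA : Horm A K)
    (R : ℕ) (e : ℕ → ℂ) (α : ℝ) (hα : 0 < α) (Y : Finset ℤ) :
    α * ∑ y ∈ Y, (if α < ‖TK K R e y‖ then (1 : ℝ) else 0) ≤
      (4 + 24 * B + 4 * A) * ∑ x ∈ range (2 ^ R), ‖e x‖ := by
  set e' : ℕ → ℂ := fun x => if x < 2 ^ R then e x else 0 with he'
  obtain ⟨M, hM⟩ : ∃ M : ℕ, (∑ x ∈ range (2 ^ R), ‖e x‖) / α < 2 ^ M :=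
    pow_unbounded_of_one_lt _ (by norm_num)
  have hsub : range (2 ^ R) ⊆ range (2 ^ (R + M)) := by
    apply Finset.range_subset_range.2
    exact Nat.pow_le_pow_right (by norm_num) (by omega)
  have h1 : ∑ x ∈ range (2 ^ (R + M)), ‖e' x‖ = ∑ x ∈ range (2 ^ R), ‖e x‖ := by
    rw [← Finset.sum_subset hsub]
    · apply Finset.sum_congr rfl
      intro x hx
      rw [he']; simp only; rw [if_pos (mem_range.1 hx)]
    · intro x _ hx
      rw [he']; simp only; rw [if_neg (fun h => hx (mem_range.2 h))]; simp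
  have h2 : ∀ y, TK K (R + M) e' y = TK K R e y := by
    intro y
    unfold TK
    rw [← Finset.sum_subset hsub]
    · apply Finset.sum_congr rfl
      intro x hx
      rw [he']; simp only; rw [if_pos (mem_range.1 hx)]
    · intro x _ hx
      rw [he']; simp only; rw [if_neg (fun h => hx (mem_range.2 h))]; simp
  have h3 := weak_root hA0 hB0 hB hA (R + M) e' α hα (by
    rw [h1, inv_mul_le_iff₀ (by positivity)]
    rw [div_lt_iff₀ hα] at hM
    refine hM.le.trans ?_
    gcongr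
    · norm_num
    · omega) Y
  rw [h1] at h3
  simp only [h2] at h3
  exact h3

end

end Pool.Agent.MpA
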