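import Pool.Agent.MpA.Scale

set_option autoImplicit false

/-!
The main argument at the point `1`.
-/

namespace Pool.Agent.MpA

open Filter Topology
open scoped ENNReal

noncomputable section

variable {p : ℝ≥0∞} [Fact (1 ≤ p)]

/-- choice of the scales -/
lemma exists_scales (W : ℕ → ℝ → ℝ → ℕ) {a0 : ℝ} (ha0 : 0 < a0) :
    ∃ a : ℕ → ℝ, a 0 = a0 ∧ (∀ j, 0 < a j) ∧ (∀ j, a (j + 1) ≤ a j / 8) ∧
      ∀ j, (W j (a j) (a (j + 1)) : ℝ) * a (j + 2) ≤ 1 := by
  let s : ℕ → ℝ × ℝ := fun j => Nat.rec (a0, a0 / 8)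
    (fun j q => (q.2, min (q.2 / 8) (1 / ((W j q.1 q.2 : ℝ) + 1)))) j
  have hs : ∀ j, s (j + 1) = ((s j).2, min ((s j).2 / 8) (1 / ((W j (s j).1 (s j).2 : ℝ) + 1))) := fun j => rfl
  have h2 : ∀ j, 0 < (s j).1 ∧ 0 < (s j).2 ∧ (s j).2 ≤ (s j).1 / 8 := by
    intro j
    induction j with
    | zero => exact ⟨ha0, by show 0 < a0 / 8; positivity, le_rfl⟩
    | succ j ih =>
      rw [hs]
      refine ⟨ih.2.1, ?_, min_le_left _ _⟩
      have h := ih.2.1
      exact lt_min (by linarith) (by positivity)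
  refine ⟨fun j => (s j).1, rfl, fun j => (h2 j).1, fun j => ?_, fun j => ?_⟩
  · show (s (j + 1)).1 ≤ (s j).1 / 8
    rw [hs]; exact (h2 j).2.2
  · show (W j (s j).1 (s (j + 1)).1 : ℝ) * (s (j + 2)).1 ≤ 1
    rw [hs (j + 1), hs j]
    show (W j (s j).1 (s j).2 : ℝ) * min ((s j).2 / 8) (1 / ((W j (s j).1 (s j).2 : ℝ) + 1)) ≤ 1
    set w : ℝ := (W j (s j).1 (s j).2 : ℝ)
    have hw : 0 ≤ w := Nat.cast_nonneg _
    calc w * min ((s j).2 / 8) (1 / (w + 1)) ≤ w * (1 / (w + 1)) := by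
          gcongr; exact min_le_right _ _
      _ ≤ 1 := by
          rw [mul_one_div, div_le_one (by positivity)]; linarith

variable {m₁ m₂ : Mp p →ₐ[ℂ] ℂ}

/-- value of a character at `Ψ_a` -/
lemma m_PsiM (m : Mp p →ₐ[ℂ] ℂ) (h1 : m (zM 1) = 1) {a : ℝ} (ha : 0 < a) (ha2 : a ≤ 1 / 4) :
    m (PsiM a) = 1 := by
  have h := m_cv m (P_csum ha ha2)
  simp only [h1, one_zpow, mul_one] at h
  have h2 := P_sym ha ha2 (x := 0) (by simp)
  simp only [mul_zero, ee_zero, mul_one] at h2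
  have h3 := h.unique h2
  unfold PsiM
  rw [h3, Psi_one ha (by simpa using ha.le)]
  simp

/-- one class (even or odd) of scales -/
lemma one_class (hp : p ≠ ⊤) (hp1 : 1 < p.toReal) (hA : ∀ T : Mp p, IsAnalytic T → m₁ T = m₂ T)
    (T : Mp p) {a : ℕ → ℝ} {R : ℕ → ℕ} (ha0 : a 0 ≤ 1 / 8) (hpos : ∀ j, 0 < a j)
    (hlac : ∀ j, a (j + 1) ≤ a j / 8) (hR : ∀ j, (R j : ℝ) * a (j + 2) ≤ 1)
    (hT : ∀ j, ∃ q : Mp p, IsAnalytic (zM (R j : ℤ) * q) ∧ (PsiM (a j) - PsiM (a (j + 1))) * T - q ∈ Sa p ∧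
      ‖(PsiM (a j) - PsiM (a (j + 1))) * T - q‖ ≤ (1 / 2) ^ j)
    (h1 : ∀ j, ∃ q : Mp p, IsAnalytic (zM (R j : ℤ) * q) ∧ (PsiM (a j) - PsiM (a (j + 1))) - q ∈ Sa p ∧
      ‖(PsiM (a j) - PsiM (a (j + 1))) - q‖ ≤ (1 / 2) ^ j) (i : ℕ) :
    ∃ u v : Mp p, m₁ u = m₂ u ∧ m₁ (u * T) = m₂ (u * T) ∧
      ∀ n, Tendsto (fun J => coef (∑ k ∈ Finset.range J, (PsiM (a (2 * k + i)) - PsiM (a (2 * k + i + 1))) : Mp p) n)
        atTop (𝓝 (coef (v * u) n)) := by
  have hle : ∀ j, a j ≤ 1 / 8 := by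
    intro j
    induction j with
    | zero => exact ha0
    | succ j ih => have := hlac j; linarith
  set α : ℕ → ℝ := fun k => a (2 * k + i) with hα
  set β : ℕ → ℝ := fun k => a (2 * k + i + 1) with hβ
  set ρ : ℕ → ℤ := fun k => (R (2 * k + i) : ℤ) with hρ
  have hαβ : ∀ k, α (k + 1) ≤ β k / 8 := by
    intro k
    have := hlac (2 * k + i + 1)
    simp only [hα, hβ]
    rw [show 2 * (k + 1) + i = 2 * k + i + 1 + 1 by ring]
    exact this
  have hS : Sc α β ρ := by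
    refine ⟨fun k => hpos _, fun k => (hle _).trans (by norm_num), fun k => hlac _, fun k => ?_, fun k => ?_⟩
    · have := hαβ k
      have := hpos (2 * k + i + 1)
      simp only [hβ] at *
      linarith
    · simp only [hρ, hα]
      have := hR (2 * k + i)
      rw [show 2 * (k + 1) + i = 2 * k + i + 2 by ring]
      push_cast
      rw [abs_of_nonneg (Nat.cast_nonneg _)]
      linarith
  set α' : ℕ → ℝ := fun k => 2 * α k with hα'
  set β' : ℕ → ℝ := fun k => β k / 2 with hβ'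
  set ρ' : ℕ → ℤ := fun k => -ρ k with hρ'
  have hS' : Sc α' β' ρ' := by
    refine ⟨fun k => ?_, fun k => ?_, fun k => ?_, fun k => ?_, fun k => ?_⟩
    · have := hS.pos k; simp only [hβ']; linarith
    · have := hle (2 * k + i); simp only [hα', hα]; linarith
    · have := hS.c1 k; have := hS.αpos k; simp only [hα', hβ']; linarith
    · have := hαβ k; have := hS.pos k; simp only [hα', hβ']; linarith
    · simp only [hρ', hα', hρ, hα]
      have := hR (2 * k + i)
      rw [show 2 * (k + 1) + i = 2 * k + i + 2 by ring]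
      push_cast
      rw [abs_neg, abs_of_nonneg (Nat.cast_nonneg _)]
      linarith
  obtain ⟨u, hu⟩ := UM_limit (p := p) hp hp1 hS
  obtain ⟨v, hv⟩ := UM_limit (p := p) hp hp1 hS'
  refine ⟨u, v, ?_, ?_, ?_⟩
  · choose q hq1 hq2 hq3 using h1
    have h := agree_limit hA (A := fun k => zM (ρ k) * (PsiM (α k) - PsiM (β k))) (u := u) hu 1
      (q := fun k => zM (ρ k) * q (2 * k + i)) (fun k => hq1 _) (fun k => ?_) (fun k => ?_)
    · rw [mul_one] at h; exact h
    · rw [mul_one, ← mul_sub]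
      exact (Sa p).mul_mem (zM_mem_Sa _) (hq2 _)
    · rw [mul_one, ← mul_sub]
      refine (norm_zM_mul _ _).trans ((hq3 _).trans ?_)
      exact pow_le_pow_of_le_one (by norm_num) (by norm_num) (by omega)
  · choose q hq1 hq2 hq3 using hT
    refine agree_limit hA (A := fun k => zM (ρ k) * (PsiM (α k) - PsiM (β k))) (u := u) hu T
      (q := fun k => zM (ρ k) * q (2 * k + i)) (fun k => hq1 _) (fun k => ?_) (fun k => ?_)
    · rw [mul_assoc, ← mul_sub]
      exact (Sa p).mul_mem (zM_mem_Sa _) (hq2 _)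
    · rw [mul_assoc, ← mul_sub]
      refine (norm_zM_mul _ _).trans ((hq3 _).trans ?_)
      exact pow_le_pow_of_le_one (by norm_num) (by norm_num) (by omega)
  · intro n
    have h2 := limit_mul (U := UM α β ρ) (V := UM α' β' ρ') (UM_norm hp hp1 hS') hu hv
    have h3 := coef_limit (U := fun J => UM α' β' ρ' J * UM α β ρ J) h2 n
    have h4 : (fun J => coef (UM α' β' ρ' J * UM α β ρ J : Mp p) n) = fun J =>
        coef (∑ k ∈ Finset.range J, (PsiM (α k) - PsiM (β k)) : Mp p) n := by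
      funext J
      rw [VU_eq hp hS hS' (fun k => rfl) (fun k => rfl) (fun k => rfl) hαβ J]
    rw [h4] at h3
    exact h3

/-- the theorem at the point `1`, for multipliers locally in `Sa` on a punctured neighbourhood -/
theorem core (hp : p ≠ ⊤) (hp1 : 1 < p.toReal) (hA : ∀ T : Mp p, IsAnalytic T → m₁ T = m₂ T)
    (hm : m₁ (zM 1) = 1) (T : Mp p) {a0 : ℝ} (ha0 : 0 < a0) (ha8 : a0 ≤ 1 / 8)
    (hloc : ∀ a b : ℝ, 0 < b → b ≤ a → a ≤ a0 → (PsiM a - PsiM b) * T ∈ Sa p) : m₁ T = m₂ T := by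
  -- approximations
  have hW : ∀ (j : ℕ) (a b : ℝ), ∃ W : ℕ, 0 < b → b ≤ a → a ≤ a0 →
      (∃ q : Mp p, IsAnalytic (zM (W : ℤ) * q) ∧ (PsiM a - PsiM b) * T - q ∈ Sa p ∧
        ‖(PsiM a - PsiM b) * T - q‖ ≤ (1 / 2) ^ j) ∧
      (∃ q : Mp p, IsAnalytic (zM (W : ℤ) * q) ∧ (PsiM a - PsiM b) - q ∈ Sa p ∧
        ‖(PsiM a - PsiM b) - q‖ ≤ (1 / 2) ^ j) := by
    intro j a b
    by_cases h : 0 < b ∧ b ≤ a ∧ a ≤ a0
    · obtain ⟨hb, hba, ha⟩ := h
      have hT := hloc a b hb hba ha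
      have h1 : (PsiM a - PsiM b : Mp p) ∈ Sa p :=
        (Sa p).sub_mem (Wc_le_Sa (PsiM_mem (by linarith) (by linarith))) (Wc_le_Sa (PsiM_mem hb (by linarith)))
      obtain ⟨q, hq, hqn⟩ := Sa_approx hT (show (0 : ℝ) < (1 / 2) ^ j by positivity)
      obtain ⟨q', hq', hqn'⟩ := Sa_approx h1 (show (0 : ℝ) < (1 / 2) ^ j by positivity)
      obtain ⟨W, hW⟩ := trig_shift hp hq
      obtain ⟨W', hW'⟩ := trig_shift hp hq'
      refine ⟨max W W', fun _ _ _ => ⟨⟨q, shift_more hW (le_max_left _ _), ?_, hqn⟩,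
        ⟨q', shift_more hW' (le_max_right _ _), ?_, hqn'⟩⟩⟩
      · exact (Sa p).sub_mem hT (adjoin_le hq)
      · exact (Sa p).sub_mem h1 (adjoin_le hq')
    · exact ⟨0, fun hb hba ha => absurd ⟨hb, hba, ha⟩ h⟩
  choose W hW using hW
  obtain ⟨a, ha00, hpos, hlac, hR⟩ := exists_scales W ha0
  have hle : ∀ j, a j ≤ a0 := by
    intro j
    induction j with
    | zero => rw [ha00]
    | succ j ih => have := hlac j; have := hpos j; linarith
  have hall := fun j => hW j (a j) (a (j + 1)) (hpos _) (by have := hlac j; have := hpos j; linarith) (hle j)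
  have hcl := one_class hp hp1 hA T (a := a) (R := fun j => W j (a j) (a (j + 1))) (by rw [ha00]; exact ha8)
    hpos hlac hR (fun j => (hall j).1) (fun j => (hall j).2)
  obtain ⟨u0, v0, hu0, huT0, hl0⟩ := hcl 0
  obtain ⟨u1, v1, hu1, huT1, hl1⟩ := hcl 1
  -- `v0 u0 + v1 u1 = Ψ`
  have hkey : v0 * u0 + v1 * u1 = (PsiM a0 : Mp p) := by
    apply eq_of_coef hp
    intro n
    have h1 := (hl0 n).add (hl1 n)
    rw [coef_add]
    have h2 : (fun J => coef (∑ k ∈ Finset.range J, (PsiM (a (2 * k + 0)) - PsiM (a (2 * k + 0 + 1))) : Mp p) n +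
        coef (∑ k ∈ Finset.range J, (PsiM (a (2 * k + 1)) - PsiM (a (2 * k + 1 + 1))) : Mp p) n) =
        fun J => coef (PsiM a0 : Mp p) n - coef (PsiM (a (2 * J)) : Mp p) n := by
      funext J
      rw [← coef_add, ← coef_sub]
      congr 1
      induction J with
      | zero => simp [ha00]
      | succ J ih =>
        rw [Finset.sum_range_succ, Finset.sum_range_succ,
          show 2 * (J + 1) = 2 * J + 1 + 1 by ring, add_zero]
        rw [← sub_eq_zero] at ih ⊢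
        rw [← ih]
        abel
    rw [h2] at h1
    have h3 : Tendsto (fun J => coef (PsiM (a (2 * J)) : Mp p) n) atTop (𝓝 0) := by
      apply squeeze_zero_norm (a := fun J => 5 * (1 / 8 : ℝ) ^ J)
      · intro J
        have hb : a (2 * J) ≤ 1 / 4 := (hle _).trans (by linarith)
        rw [coef_PsiM (hpos _) hb, Complex.norm_real, Real.norm_eq_abs]
        refine (P_abs_le5 (hpos _) n).trans ?_
        have h4 : ∀ k, a k ≤ (1 / 8 : ℝ) ^ k := by
          intro k
          induction k with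
          | zero => rw [ha00]; simp only [pow_zero]; linarith
          | succ k ih => have := hlac k; rw [pow_succ]; linarith
        have h5 : (1 / 8 : ℝ) ^ (2 * J) ≤ (1 / 8) ^ J :=
          pow_le_pow_of_le_one (by norm_num) (by norm_num) (by omega)
        have := h4 (2 * J)
        linarith
      · have := (tendsto_pow_atTop_nhds_zero_of_lt_one (show (0 : ℝ) ≤ 1 / 8 by norm_num)
          (by norm_num)).const_mul 5
        simpa using this
    have h4 := (tendsto_const_nhds (x := coef (PsiM a0 : Mp p) n)).sub h3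
    rw [sub_zero] at h4
    exact tendsto_nhds_unique h1 h4
  have h1 := congrArg m₁ hkey
  rw [map_add, map_mul, map_mul, m_PsiM m₁ hm ha0 (by linarith)] at h1
  have hfin : ∀ u : Mp p, m₁ u = m₂ u → m₁ (u * T) = m₂ (u * T) → m₁ u ≠ 0 → m₁ T = m₂ T := by
    intro u h2 h3 h4
    rw [map_mul, map_mul, ← h2] at h3
    exact mul_left_cancel₀ h4 h3
  by_cases h2 : m₁ u0 = 0
  · have h3 : m₁ u1 ≠ 0 := by
      intro h3
      rw [h2, h3] at h1
      simp at h1
    exact hfin u1 hu1 huT1 h3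
  · exact hfin u0 hu0 huT0 h2

end

end Pool.Agent.MpA
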