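import Mathlib

set_option autoImplicit false

/-!
Calderon-Zygmund decomposition on `[0, 2^R)` (copied from `Pool.Agent.H72.MT.Weak`, helper93) and the
weak (1,1) bound for convolution operators on `ℤ` satisfying Hoermander's condition.
-/

namespace Pool.Agent.MpA

open Finset
open scoped BigOperators

noncomputable section

/-! ### Calderón–Zygmund decomposition -/

/-- dyadic block of level `j` -/
def blk (R j q : ℕ) : Finset ℕ := Ico (q * 2 ^ (R - j)) ((q + 1) * 2 ^ (R - j))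

lemma mem_blk {R j q x : ℕ} : x ∈ blk R j q ↔ x / 2 ^ (R - j) = q := by
  unfold blk
  rw [mem_Ico, Nat.div_eq_iff (by positivity)]
  have h : 0 < 2 ^ (R - j) := by positivity
  constructor
  · rintro ⟨h1, h2⟩
    constructor
    · exact h1
    · rw [add_mul, one_mul] at h2; omega
  · rintro ⟨h1, h2⟩
    constructor
    · exact h1
    · rw [add_mul, one_mul]; omega

lemma card_blk (R j q : ℕ) : #(blk R j q) = 2 ^ (R - j) := by
  unfold blk
  rw [Nat.card_Ico, add_mul, one_mul, Nat.add_sub_cancel_left]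

lemma blk_subset {R j q : ℕ} (hj : j ≤ R) (hq : q < 2 ^ j) : blk R j q ⊆ range (2 ^ R) := by
  intro x hx
  unfold blk at hx
  rw [mem_Ico] at hx
  rw [mem_range]
  calc x < (q + 1) * 2 ^ (R - j) := hx.2
    _ ≤ 2 ^ j * 2 ^ (R - j) := by gcongr; omega
    _ = 2 ^ R := by rw [← pow_add]; congr 1; omega

/-- averages of `‖e‖` -/
def avgB (R : ℕ) (e : ℕ → ℂ) (j q : ℕ) : ℝ := ((2 : ℝ) ^ (R - j))⁻¹ * ∑ x ∈ blk R j q, ‖e x‖

/-- averages of `e` -/
def cavg (R : ℕ) (e : ℕ → ℂ) (j q : ℕ) : ℂ := ((2 : ℂ) ^ (R - j))⁻¹ * ∑ x ∈ blk R j q, e x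

lemma norm_cavg_le (R : ℕ) (e : ℕ → ℂ) (j q : ℕ) : ‖cavg R e j q‖ ≤ avgB R e j q := by
  unfold cavg avgB
  rw [norm_mul, norm_inv, norm_pow, Complex.norm_ofNat]
  apply mul_le_mul_of_nonneg_left (norm_sum_le _ _) (by positivity)

/-- stopped blocks -/
def Bad (R : ℕ) (e : ℕ → ℂ) (lam : ℝ) (j q : ℕ) : Prop :=
  lam < avgB R e j q ∧ ∀ i < j, avgB R e i (q / 2 ^ (j - i)) ≤ lam

open Classical in
/-- finset of stopped blocks -/
def Pb (R : ℕ) (e : ℕ → ℂ) (lam : ℝ) : Finset (ℕ × ℕ) :=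
  ((range (R + 1)) ×ˢ (range (2 ^ R))).filter (fun p => p.2 < 2 ^ p.1 ∧ Bad R e lam p.1 p.2)

lemma mem_Pb {R : ℕ} {e : ℕ → ℂ} {lam : ℝ} {p : ℕ × ℕ} :
    p ∈ Pb R e lam ↔ p.1 ≤ R ∧ p.2 < 2 ^ p.1 ∧ Bad R e lam p.1 p.2 := by
  classical
  unfold Pb
  rw [mem_filter, mem_product, mem_range, mem_range]
  constructor
  · rintro ⟨⟨h1, _⟩, h3, h4⟩; exact ⟨by omega, h3, h4⟩
  · rintro ⟨h1, h3, h4⟩
    exact ⟨⟨by omega, lt_of_lt_of_le h3 (Nat.pow_le_pow_right (by norm_num) h1)⟩, h3, h4⟩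

lemma div_blk {R i j x : ℕ} (hij : i ≤ j) (hj : j ≤ R) : x / 2 ^ (R - j) / 2 ^ (j - i) = x / 2 ^ (R - i) := by
  rw [Nat.div_div_eq_div_mul, ← pow_add]
  congr 2; omega

lemma Pb_unique {R : ℕ} {e : ℕ → ℂ} {lam : ℝ} {p p' : ℕ × ℕ} (hp : p ∈ Pb R e lam)
    (hp' : p' ∈ Pb R e lam) {x : ℕ} (hx : x ∈ blk R p.1 p.2) (hx' : x ∈ blk R p'.1 p'.2) : p = p' := by
  rw [mem_Pb] at hp hp'
  rw [mem_blk] at hx hx'
  rcases lt_trichotomy p.1 p'.1 with h | h | h
  · exfalso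
    have h1 := hp'.2.2.2 p.1 h
    rw [← hx', div_blk h.le hp'.1, hx] at h1
    linarith [hp.2.2.1]
  · ext
    · exact h
    · rw [← hx, ← hx', h]
  · exfalso
    have h1 := hp.2.2.2 p'.1 h
    rw [← hx, div_blk h.le hp.1, hx'] at h1
    linarith [hp'.2.2.1]

lemma Pb_sum_le (R : ℕ) (e : ℕ → ℂ) (lam : ℝ) :
    ∑ p ∈ Pb R e lam, ∑ x ∈ blk R p.1 p.2, ‖e x‖ ≤ ∑ x ∈ range (2 ^ R), ‖e x‖ := by
  rw [← Finset.sum_biUnion]
  · apply Finset.sum_le_sum_of_subset_of_nonneg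
    · intro x hx
      obtain ⟨p, hp, hxp⟩ := Finset.mem_biUnion.1 hx
      rw [mem_Pb] at hp
      exact blk_subset hp.1 hp.2.1 hxp
    · intro _ _ _; exact norm_nonneg _
  · intro p hp p' hp' hne
    simp only [Function.onFun]
    rw [Finset.disjoint_left]
    intro x hx hx'
    exact hne (Pb_unique (Finset.mem_coe.1 hp) (Finset.mem_coe.1 hp') hx hx')

lemma Pb_measure (R : ℕ) (e : ℕ → ℂ) (lam : ℝ) :
    lam * ∑ p ∈ Pb R e lam, ((2 : ℝ) ^ p.1)⁻¹ ≤ ((2 : ℝ) ^ R)⁻¹ * ∑ x ∈ range (2 ^ R), ‖e x‖ := by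
  have h1 : ∀ p ∈ Pb R e lam, lam * ((2 : ℝ) ^ p.1)⁻¹ ≤ ((2 : ℝ) ^ R)⁻¹ * ∑ x ∈ blk R p.1 p.2, ‖e x‖ := by
    intro p hp
    rw [mem_Pb] at hp
    have h2 := hp.2.2.1
    unfold avgB at h2
    have h3 : (2 : ℝ) ^ R = 2 ^ p.1 * 2 ^ (R - p.1) := by rw [← pow_add]; congr 1; omega
    rw [h3, mul_inv, mul_assoc, mul_comm lam]
    exact mul_le_mul_of_nonneg_left h2.le (by positivity)
  rw [Finset.mul_sum]
  refine (Finset.sum_le_sum h1).trans ?_
  rw [← Finset.mul_sum]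
  exact mul_le_mul_of_nonneg_left (Pb_sum_le R e lam) (by positivity)

/-- bad parts -/
def uu (R : ℕ) (e : ℕ → ℂ) (p : ℕ × ℕ) (x : ℕ) : ℂ :=
  if x ∈ blk R p.1 p.2 then e x - cavg R e p.1 p.2 else 0

/-- good part -/
def gg (R : ℕ) (e : ℕ → ℂ) (lam : ℝ) (x : ℕ) : ℂ := e x - ∑ p ∈ Pb R e lam, uu R e p x

lemma sum_uu {R : ℕ} {e : ℕ → ℂ} {lam : ℝ} {p : ℕ × ℕ} (hp : p ∈ Pb R e lam) :
    ∑ x ∈ range (2 ^ R), uu R e p x = 0 := by
  rw [mem_Pb] at hp
  unfold uu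
  rw [← Finset.sum_filter]
  have h1 : (range (2 ^ R)).filter (fun x => x ∈ blk R p.1 p.2) = blk R p.1 p.2 := by
    ext x
    rw [mem_filter]
    exact ⟨fun h => h.2, fun h => ⟨blk_subset hp.1 hp.2.1 h, h⟩⟩
  rw [h1, Finset.sum_sub_distrib, Finset.sum_const, card_blk, nsmul_eq_mul]
  unfold cavg
  push_cast
  rw [mul_inv_cancel_left₀ (pow_ne_zero _ two_ne_zero)]
  simp

lemma sum_norm_uu {R : ℕ} {e : ℕ → ℂ} {lam : ℝ} {p : ℕ × ℕ} (hp : p ∈ Pb R e lam) :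
    ∑ x ∈ range (2 ^ R), ‖uu R e p x‖ ≤ 2 * ∑ x ∈ blk R p.1 p.2, ‖e x‖ := by
  rw [mem_Pb] at hp
  have h0 : ∀ x, ‖uu R e p x‖ = if x ∈ blk R p.1 p.2 then ‖e x - cavg R e p.1 p.2‖ else 0 := by
    intro x; unfold uu; split_ifs <;> simp
  simp_rw [h0]
  rw [← Finset.sum_filter]
  have h1 : (range (2 ^ R)).filter (fun x => x ∈ blk R p.1 p.2) = blk R p.1 p.2 := by
    ext x
    rw [mem_filter]
    exact ⟨fun h => h.2, fun h => ⟨blk_subset hp.1 hp.2.1 h, h⟩⟩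
  rw [h1]
  calc ∑ x ∈ blk R p.1 p.2, ‖e x - cavg R e p.1 p.2‖
      ≤ ∑ x ∈ blk R p.1 p.2, (‖e x‖ + avgB R e p.1 p.2) := by
        apply Finset.sum_le_sum
        intro x _
        exact (norm_sub_le _ _).trans (by gcongr; exact norm_cavg_le _ _ _ _)
    _ = 2 * ∑ x ∈ blk R p.1 p.2, ‖e x‖ := by
        rw [Finset.sum_add_distrib, Finset.sum_const, card_blk, nsmul_eq_mul]
        unfold avgB
        push_cast
        rw [mul_inv_cancel_left₀ (by positivity)]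
        ring

lemma sum_sum_norm_uu (R : ℕ) (e : ℕ → ℂ) (lam : ℝ) :
    ∑ p ∈ Pb R e lam, ∑ x ∈ range (2 ^ R), ‖uu R e p x‖ ≤ 2 * ∑ x ∈ range (2 ^ R), ‖e x‖ := by
  refine (Finset.sum_le_sum (fun p hp => sum_norm_uu hp)).trans ?_
  rw [← Finset.mul_sum]
  exact mul_le_mul_of_nonneg_left (Pb_sum_le R e lam) (by norm_num)

lemma sum_norm_gg (R : ℕ) (e : ℕ → ℂ) (lam : ℝ) :
    ∑ x ∈ range (2 ^ R), ‖gg R e lam x‖ ≤ 3 * ∑ x ∈ range (2 ^ R), ‖e x‖ := by
  calc ∑ x ∈ range (2 ^ R), ‖gg R e lam x‖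
      ≤ ∑ x ∈ range (2 ^ R), (‖e x‖ + ∑ p ∈ Pb R e lam, ‖uu R e p x‖) := by
        apply Finset.sum_le_sum
        intro x _
        unfold gg
        exact (norm_sub_le _ _).trans (by gcongr; exact norm_sum_le _ _)
    _ = ∑ x ∈ range (2 ^ R), ‖e x‖ + ∑ p ∈ Pb R e lam, ∑ x ∈ range (2 ^ R), ‖uu R e p x‖ := by
        rw [Finset.sum_add_distrib, Finset.sum_comm (s := Pb R e lam)]
    _ ≤ 3 * ∑ x ∈ range (2 ^ R), ‖e x‖ := by linarith [sum_sum_norm_uu R e lam]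

lemma avgB_nonneg (R : ℕ) (e : ℕ → ℂ) (j q : ℕ) : 0 ≤ avgB R e j q := by
  unfold avgB
  exact mul_nonneg (by positivity) (Finset.sum_nonneg fun _ _ => norm_nonneg _)

lemma avgB_parent {R : ℕ} (e : ℕ → ℂ) {j q : ℕ} (hj : j + 1 ≤ R) :
    avgB R e (j + 1) q ≤ 2 * avgB R e j (q / 2) := by
  unfold avgB
  have h1 : (2 : ℝ) ^ (R - j) = 2 * 2 ^ (R - (j + 1)) := by
    rw [show R - j = (R - (j + 1)) + 1 by omega, pow_succ]; ring
  rw [h1, mul_inv, ← mul_assoc, ← mul_assoc]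
  rw [show (2 : ℝ) * 2⁻¹ = 1 by norm_num, one_mul]
  apply mul_le_mul_of_nonneg_left _ (by positivity)
  apply Finset.sum_le_sum_of_subset_of_nonneg
  · intro x hx
    rw [mem_blk] at hx ⊢
    rw [← hx]
    have := div_blk (R := R) (i := j) (j := j + 1) (x := x) (by omega) hj
    rw [← this]; simp
  · intro _ _ _; exact norm_nonneg _

lemma norm_gg_le {R : ℕ} {e : ℕ → ℂ} {lam : ℝ} (hlam : 0 < lam) (h0 : avgB R e 0 0 ≤ lam)
    {x : ℕ} (hx : x < 2 ^ R) : ‖gg R e lam x‖ ≤ 2 * lam := by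
  by_cases hex : ∃ p ∈ Pb R e lam, x ∈ blk R p.1 p.2
  · obtain ⟨p, hp, hxp⟩ := hex
    have h1 : gg R e lam x = cavg R e p.1 p.2 := by
      unfold gg
      rw [Finset.sum_eq_single p]
      · unfold uu; rw [if_pos hxp]; ring
      · intro p' hp' hne
        unfold uu
        rw [if_neg]
        intro hx'
        exact hne (Pb_unique hp' hp hx' hxp)
      · intro h; exact absurd hp h
    rw [h1]
    refine (norm_cavg_le _ _ _ _).trans ?_
    rw [mem_Pb] at hp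
    obtain ⟨hpR, hpq, hbad⟩ := hp
    rcases hj : p.1 with _ | j
    · exfalso
      rw [hj] at hpq hbad
      have : p.2 = 0 := by simpa using hpq
      rw [this] at hbad
      linarith [hbad.1]
    · rw [hj] at hbad hpR
      refine (avgB_parent e hpR).trans ?_
      have := hbad.2 j (by omega)
      rw [show j + 1 - j = 1 by omega, pow_one] at this
      linarith
  · push Not at hex
    have h1 : gg R e lam x = e x := by
      unfold gg
      rw [Finset.sum_eq_zero]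
      · ring
      · intro p hp
        unfold uu
        rw [if_neg (hex p hp)]
    rw [h1]
    have h2 : ∀ j, j ≤ R → avgB R e j (x / 2 ^ (R - j)) ≤ lam := by
      intro j
      induction j using Nat.strong_induction_on with
      | _ j ih =>
        intro hj
        by_contra hcon
        have hb : (j, x / 2 ^ (R - j)) ∈ Pb R e lam := by
          rw [mem_Pb]
          refine ⟨hj, ?_, not_le.1 hcon, ?_⟩
          · show x / 2 ^ (R - j) < 2 ^ j
            rw [Nat.div_lt_iff_lt_mul (by positivity), ← pow_add]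
            rw [show j + (R - j) = R by omega]; exact hx
          · intro i hi
            show avgB R e i (x / 2 ^ (R - j) / 2 ^ (j - i)) ≤ lam
            rw [div_blk hi.le hj]
            exact ih i hi (by omega)
        exact hex _ hb (mem_blk.2 rfl)
    have h3 := h2 R le_rfl
    unfold avgB at h3
    rw [Nat.sub_self] at h3
    have h4 : blk R R (x / 2 ^ 0) = {x} := by
      ext z
      rw [mem_blk, mem_singleton]
      simp
    rw [h4, Finset.sum_singleton] at h3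
    simp only [pow_zero, inv_one, one_mul] at h3
    linarith


end

end Pool.Agent.MpA
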