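import Mathlib

set_option autoImplicit false

/-!
Definitions: the space `ℓ^p(ℤ)`, the multiplier algebra `M_p` (bounded operators on `ℓ^p(ℤ)` which
commute with the shift), Fourier coefficients of a multiplier, the subalgebra `M_p A`, the closed
algebra generated by the trigonometric polynomials, regular points of a multiplier.
-/

namespace Pool.Agent.MpA

open scoped ENNReal

noncomputable section

variable (p : ℝ≥0∞) [Fact (1 ≤ p)]

/-- `ℓ^p(ℤ)` -/
abbrev El : Type := lp (fun _ : ℤ => ℂ) p

lemma mem_shift (k : ℤ) (f : El p) : Memℓp (fun n : ℤ => f (n - k)) p := by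
  have hf := lp.memℓp f
  rcases ENNReal.dichotomy p with h | h
  · subst h
    rw [memℓp_infty_iff] at hf ⊢
    refine hf.mono ?_
    rintro x ⟨n, rfl⟩
    exact ⟨n - k, rfl⟩
  · have hp : 0 < p.toReal := lt_of_lt_of_le zero_lt_one h
    rw [memℓp_gen_iff hp] at hf ⊢
    exact (Equiv.subRight k).summable_iff.2 hf

/-- translation by `k`: `(sh p k f) n = f (n - k)`, a linear isometry of `ℓ^p(ℤ)` -/
def shL (k : ℤ) : El p →ₗᵢ[ℂ] El p where
  toFun f := ⟨fun n => f (n - k), mem_shift p k f⟩
  map_add' f g := by ext n; rfl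
  map_smul' c f := by ext n; rfl
  norm_map' f := by
    rcases ENNReal.dichotomy p with h | h
    · subst h
      rw [lp.norm_eq_ciSup, lp.norm_eq_ciSup]
      exact (Equiv.subRight k).iSup_congr (fun n => rfl)
    · have hp : 0 < p.toReal := lt_of_lt_of_le zero_lt_one h
      rw [lp.norm_eq_tsum_rpow hp, lp.norm_eq_tsum_rpow hp]
      congr 1
      exact (Equiv.subRight k).tsum_eq (fun n => ‖f n‖ ^ p.toReal)

/-- translation by `k` as a bounded operator -/
def sh (k : ℤ) : El p →L[ℂ] El p := (shL p k).toContinuousLinearMap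

/-- The multiplier algebra `M_p` of the space of distributions on the circle whose Fourier
coefficients are in `ℓ^p`, seen on the side of the coefficients: the bounded operators on `ℓ^p(ℤ)`
which commute with the shift `sh p 1` (multiplication by `z`), with the operator norm. -/
def Mp : Subalgebra ℂ (El p →L[ℂ] El p) := Subalgebra.centralizer ℂ {sh p 1}

variable {p}

/-- the `n`-th Fourier coefficient of the multiplier `T`: the `n`-th coordinate of `T δ_0` -/
def coef (T : Mp p) (n : ℤ) : ℂ := T.1 (lp.single p (0 : ℤ) (1 : ℂ)) n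

/-- `T` is in `M_p A`: the Fourier coefficients with negative index vanish. -/
def IsAnalytic (T : Mp p) : Prop := ∀ n : ℤ, n < 0 → coef T n = 0

lemma sh_comm (k l : ℤ) : sh p k * sh p l = sh p l * sh p k := by
  ext f n
  show f (n - k - l) = f (n - l - k)
  rw [show n - k - l = n - l - k by ring]

/-- the multiplier `z ^ k` -/
def zM (k : ℤ) : Mp p := ⟨sh p k, by
  rw [Mp, Subalgebra.mem_centralizer_iff]
  intro g hg
  rw [Set.mem_singleton_iff] at hg
  rw [hg]
  exact sh_comm 1 k⟩

variable (p)

/-- the closure in `M_p` of the algebra of trigonometric polynomials -/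
def Wc : Subalgebra ℂ (Mp p) := (Algebra.adjoin ℂ (Set.range (zM (p := p)))).topologicalClosure

/-- the closed subalgebra of `M_p` generated by `M_p A` and `z⁻¹` (the analogue of `H^∞ + C`);
it contains the closure of the trigonometric polynomials -/
def Sa : Subalgebra ℂ (Mp p) :=
  (Algebra.adjoin ℂ ({T : Mp p | IsAnalytic T} ∪ {zM (-1)})).topologicalClosure

variable {p}

/-- `T` is regular at the point `μ` of the circle: there is a function `r` on the circle with
absolutely summable Fourier coefficients and `r μ ≠ 0` such that `r T` is in the closed algebra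
generated by `M_p A` and `z⁻¹`. -/
def RegularAt (T : Mp p) (μ : ℂ) : Prop :=
  ∃ R : Mp p, Summable (fun n => ‖coef R n‖) ∧ ∑' n : ℤ, coef R n * μ ^ n ≠ 0 ∧ R * T ∈ Sa p

/-- the point `lam` of the circle is at most an isolated singularity of `T`: all points `μ ≠ lam`
of the circle in a neighbourhood of `lam` are regular for `T` (nothing is asked at `lam`). -/
def IsolatedAt (T : Mp p) (lam : ℂ) : Prop :=
  ∃ ε : ℝ, 0 < ε ∧ ∀ μ : ℂ, ‖μ‖ = 1 → μ ≠ lam → ‖μ - lam‖ < ε → RegularAt T μ

end

end Pool.Agent.MpA
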