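import Pool.Agent.MpA.Strong

set_option autoImplicit false

/-!
Fourier coefficients on `(-1/2, 1/2]`, symbols of absolutely summable kernels, the `L²` bound.
-/

namespace Pool.Agent.MpA

open Finset MeasureTheory
open scoped BigOperators

noncomputable section

/-- `e(x) = exp(2 π i x)` -/
def ee (x : ℝ) : ℂ := Complex.exp (2 * Real.pi * x * Complex.I)

lemma ee_add (x y : ℝ) : ee (x + y) = ee x * ee y := by
  unfold ee
  rw [← Complex.exp_add]
  congr 1
  push_cast; ring

lemma ee_zero : ee 0 = 1 := by unfold ee; simp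

lemma norm_ee (x : ℝ) : ‖ee x‖ = 1 := by
  unfold ee
  have : 2 * (Real.pi : ℂ) * (x : ℂ) * Complex.I = ((2 * Real.pi * x : ℝ) : ℂ) * Complex.I := by push_cast; ring
  rw [this, Complex.norm_exp_ofReal_mul_I]

lemma ee_ne (x : ℝ) : ee x ≠ 0 := by
  intro h; have := norm_ee x; rw [h] at this; simp at this

lemma ee_int (n : ℤ) : ee n = 1 := by
  unfold ee
  rw [Complex.exp_eq_one_iff]
  exact ⟨n, by push_cast; ring⟩

lemma ee_add_one (n : ℤ) (x : ℝ) : ee (n * (x + 1)) = ee (n * x) := by
  rw [mul_add, mul_one, ee_add, ee_int, mul_one]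

lemma ee_neg (x : ℝ) : ee (-x) = (ee x)⁻¹ := by
  apply eq_inv_of_mul_eq_one_left
  rw [← ee_add]; simp [ee_zero]

lemma continuous_ee : Continuous ee := by unfold ee; fun_prop

lemma fourier_eq_ee (n : ℤ) (x : ℝ) : fourier n (x : UnitAddCircle) = ee (n * x) := by
  rw [fourier_coe_apply]
  unfold ee
  congr 1
  push_cast
  ring

lemma norm_ee_sub_one (x : ℝ) : ‖ee x - 1‖ ≤ 2 * Real.pi * |x| := by
  have h : ee x = Complex.exp (Complex.I * ((2 * Real.pi * x : ℝ) : ℂ)) := by
    unfold ee; congr 1; push_cast; ring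
  rw [h]
  have := Real.norm_exp_I_mul_ofReal_sub_one_le (x := 2 * Real.pi * x)
  refine this.trans (le_of_eq ?_)
  rw [Real.norm_eq_abs, abs_mul, abs_of_pos (by positivity : 0 < 2 * Real.pi)]

lemma half_lt : (-(1 / 2) : ℝ) < 1 / 2 := by norm_num

/-- Fourier coefficient -/
def ft (f : ℝ → ℂ) (n : ℤ) : ℂ := ∫ x in (-(1 / 2) : ℝ)..(1 / 2), ee (-(n * x)) * f x

lemma ft_eq (f : ℝ → ℂ) (n : ℤ) : ft f n = fourierCoeffOn half_lt f n := by
  rw [fourierCoeffOn_eq_integral]
  have h1 : (1 / 2 - -(1 / 2) : ℝ) = 1 := by norm_num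
  have h2 : ∀ x : ℝ, fourier (-n) (x : AddCircle (1 / 2 - -(1 / 2) : ℝ)) = ee (-(n * x)) := by
    intro x
    rw [fourier_coe_apply]
    unfold ee
    congr 1
    push_cast
    ring
  simp only [h2, h1, smul_eq_mul, div_one, one_smul]
  rfl

/-- Parseval -/
lemma parseval {f : ℝ → ℂ} (hf : MemLp f 2 (volume.restrict (Set.Ioc (-(1 / 2) : ℝ) (1 / 2)))) :
    HasSum (fun n => ‖ft f n‖ ^ 2) (∫ x in (-(1 / 2) : ℝ)..(1 / 2), ‖f x‖ ^ 2) := by
  have := hasSum_sq_fourierCoeffOn half_lt hf
  simp only [ft_eq]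
  have h1 : (1 / 2 - -(1 / 2) : ℝ) = 1 := by norm_num
  rw [h1, inv_one, one_smul] at this
  exact this

lemma memLp_bdd {f : ℝ → ℂ} (hm : Measurable f) (M : ℝ) (hM : ∀ x, ‖f x‖ ≤ M) :
    MemLp f 2 (volume.restrict (Set.Ioc (-(1 / 2) : ℝ) (1 / 2))) := by
  have : MemLp f ⊤ (volume.restrict (Set.Ioc (-(1 / 2) : ℝ) (1 / 2))) :=
    memLp_top_of_bound hm.aestronglyMeasurable M (Filter.Eventually.of_forall hM)
  exact this.mono_exponent le_top

lemma ft_add {f g : ℝ → ℂ} (hf : Continuous f) (hg : Continuous g) (n : ℤ) :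
    ft (fun x => f x + g x) n = ft f n + ft g n := by
  unfold ft
  rw [← intervalIntegral.integral_add]
  · congr 1; funext x; ring
  · exact (Continuous.intervalIntegrable ((continuous_ee.comp (by fun_prop)).mul hf) _ _)
  · exact (Continuous.intervalIntegrable ((continuous_ee.comp (by fun_prop)).mul hg) _ _)

lemma int_ee (n : ℤ) (hn : n ≠ 0) (a : ℝ) :
    ∫ x in (-a)..a, ee (n * x) = ((Real.sin (2 * Real.pi * n * a) / (Real.pi * n) : ℝ) : ℂ) := by
  have hn' : (n : ℂ) ≠ 0 := by exact_mod_cast hn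
  have hpi : (Real.pi : ℂ) ≠ 0 := by exact_mod_cast Real.pi_ne_zero
  have h1 : ∀ x : ℝ, HasDerivAt (fun y : ℝ => Complex.exp (2 * Real.pi * n * Complex.I * y) /
      (2 * Real.pi * n * Complex.I)) (ee (n * x)) x := by
    intro x
    have h2 : HasDerivAt (fun y : ℂ => Complex.exp (2 * Real.pi * n * Complex.I * y) /
      (2 * Real.pi * n * Complex.I)) (ee (n * x)) (x : ℂ) := by
      have h3 : HasDerivAt (fun y : ℂ => 2 * Real.pi * n * Complex.I * y) (2 * Real.pi * n * Complex.I) (x : ℂ) := by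
        simpa using (hasDerivAt_id (x : ℂ)).const_mul (2 * Real.pi * n * Complex.I)
      have h4 := (h3.cexp).div_const (2 * Real.pi * n * Complex.I)
      have h5 : Complex.exp (2 * Real.pi * n * Complex.I * x) * (2 * Real.pi * n * Complex.I) /
          (2 * Real.pi * n * Complex.I) = ee (n * x) := by
        rw [mul_div_assoc, div_self (by simp [hn', hpi]), mul_one]
        unfold ee
        congr 1
        push_cast; ring
      rw [h5] at h4
      exact h4
    exact h2.comp_ofReal
  rw [intervalIntegral.integral_eq_sub_of_hasDerivAt (fun x _ => h1 x)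
    (Continuous.intervalIntegrable (continuous_ee.comp (by fun_prop)) _ _)]
  rw [← sub_div]
  have h5 : Complex.exp (2 * Real.pi * n * Complex.I * (a : ℝ)) - Complex.exp (2 * Real.pi * n * Complex.I * ((-a : ℝ) : ℂ))
      = 2 * Complex.I * Complex.sin ((2 * Real.pi * n * a : ℝ) : ℂ) := by
    rw [Complex.sin]
    push_cast
    have : Complex.exp (2 * Real.pi * n * Complex.I * a) = Complex.exp (2 * Real.pi * n * a * Complex.I) := by
      congr 1; ring
    rw [this]
    have : Complex.exp (2 * Real.pi * n * Complex.I * -a) = Complex.exp (-(2 * Real.pi * n * a) * Complex.I) := by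
      congr 1; ring
    rw [this]
    ring_nf
    rw [Complex.I_sq]; ring
  rw [h5]
  push_cast
  field_simp

lemma ee_integral (n : ℤ) : ∫ x in (-(1 / 2) : ℝ)..(1 / 2), ee (n * x) = if n = 0 then 1 else 0 := by
  split_ifs with h
  · rw [h]
    simp [ee_zero]
    norm_num
  · rw [int_ee n h (1 / 2)]
    have : Real.sin (2 * Real.pi * n * (1 / 2)) = 0 := by
      rw [show 2 * Real.pi * (n : ℝ) * (1 / 2) = n * Real.pi by ring]
      exact Real.sin_int_mul_pi n
    rw [this]; simp

/-- symbol of a kernel -/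
def sym (r : ℤ → ℂ) (x : ℝ) : ℂ := ∑' n : ℤ, r n * ee (n * x)

lemma sym_summable {r : ℤ → ℂ} (hr : Summable fun n => ‖r n‖) (x : ℝ) :
    Summable fun n : ℤ => r n * ee (n * x) := by
  apply Summable.of_norm
  refine hr.congr ?_
  intro n; rw [norm_mul, norm_ee, mul_one]

lemma continuous_sym {r : ℤ → ℂ} (hr : Summable fun n => ‖r n‖) : Continuous (sym r) := by
  unfold sym
  apply continuous_tsum (fun n => by
    exact continuous_const.mul (continuous_ee.comp (by fun_prop))) hr
  intro n x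
  rw [norm_mul, norm_ee, mul_one]

lemma sym_add_one {r : ℤ → ℂ} (x : ℝ) : sym r (x + 1) = sym r x := by
  unfold sym
  congr 1
  funext n
  rw [ee_add_one]

lemma sym_norm_le {r : ℤ → ℂ} (hr : Summable fun n => ‖r n‖) (x : ℝ) :
    ‖sym r x‖ ≤ ∑' n, ‖r n‖ := by
  unfold sym
  refine (norm_tsum_le_tsum_norm ?_).trans (le_of_eq ?_)
  · refine hr.congr ?_
    intro n; rw [norm_mul, norm_ee, mul_one]
  · congr 1; funext n; rw [norm_mul, norm_ee, mul_one]

/-- multiplication by a symbol is convolution -/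
lemma ft_mul' {r : ℤ → ℂ} (hr : Summable fun n => ‖r n‖) {φ : ℝ → ℂ} (hφ : Measurable φ)
    {M : ℝ} (hM : ∀ x, ‖φ x‖ ≤ M) (n : ℤ) :
    HasSum (fun m : ℤ => r m * ft φ (n - m)) (ft (fun x => sym r x * φ x) n) := by
  have hM0 : 0 ≤ M := (norm_nonneg _).trans (hM 0)
  have h1 : HasSum (fun m : ℤ => ∫ x in (-(1 / 2) : ℝ)..(1 / 2), r m * ee (m * x) * (ee (-(n * x)) * φ x))
      (∫ x in (-(1 / 2) : ℝ)..(1 / 2), sym r x * (ee (-(n * x)) * φ x)) := by
    apply intervalIntegral.hasSum_integral_of_dominated_convergence (fun m _ => ‖r m‖ * M)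
    · intro m
      apply Measurable.aestronglyMeasurable
      have h1 : Continuous fun x : ℝ => r m * ee (m * x) :=
        continuous_const.mul (continuous_ee.comp (by fun_prop))
      have h2 : Continuous fun x : ℝ => ee (-(n * x)) := continuous_ee.comp (by fun_prop)
      exact h1.measurable.mul (h2.measurable.mul hφ)
    · intro m
      refine Filter.Eventually.of_forall (fun x _ => ?_)
      rw [norm_mul, norm_mul, norm_mul, norm_ee, norm_ee, mul_one, one_mul]
      exact mul_le_mul_of_nonneg_left (hM x) (norm_nonneg _)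
    · exact Filter.Eventually.of_forall (fun x _ => hr.mul_right M)
    · exact intervalIntegrable_const
    · refine Filter.Eventually.of_forall (fun x _ => ?_)
      exact (sym_summable hr x).hasSum.mul_right _
  have h2 : ft (fun x => sym r x * φ x) n = ∫ x in (-(1 / 2) : ℝ)..(1 / 2), sym r x * (ee (-(n * x)) * φ x) := by
    unfold ft
    congr 1; funext x; ring
  rw [h2]
  convert h1 using 1
  funext m
  unfold ft
  rw [← intervalIntegral.integral_const_mul]
  congr 1
  funext x
  rw [show -(((n - m : ℤ) : ℝ) * x) = m * x + -(n * x) by push_cast; ring, ee_add]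
  ring

lemma ft_mul {r : ℤ → ℂ} (hr : Summable fun n => ‖r n‖) {φ : ℝ → ℂ} (hφ : Continuous φ)
    {M : ℝ} (hM : ∀ x, ‖φ x‖ ≤ M) (n : ℤ) :
    HasSum (fun m : ℤ => r m * ft φ (n - m)) (ft (fun x => sym r x * φ x) n) :=
  ft_mul' hr hφ.measurable hM n

lemma ft_one (n : ℤ) : ft (fun _ => 1) n = if n = 0 then 1 else 0 := by
  unfold ft
  have := ee_integral (-n)
  simp only [mul_one]
  have h : ∀ x : ℝ, ee (-(n * x)) = ee (((-n : ℤ) : ℝ) * x) := by
    intro x; congr 1; push_cast; ring
  simp only [h, this, neg_eq_zero]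

lemma ft_sym {r : ℤ → ℂ} (hr : Summable fun n => ‖r n‖) (n : ℤ) : ft (sym r) n = r n := by
  have h := ft_mul hr (φ := fun _ => 1) continuous_const (M := 1) (by simp) n
  simp only [mul_one] at h
  have h2 : HasSum (fun m : ℤ => r m * ft (fun _ => 1) (n - m)) (r n) := by
    have := hasSum_single (f := fun m : ℤ => r m * ft (fun _ => 1) (n - m)) n (by
      intro m hm
      simp only [ft_one]
      rw [if_neg (by intro h; exact hm (by linarith)), mul_zero])
    simpa [ft_one] using this
  exact h.unique h2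

/-- a kernel is determined by its symbol on `[-1/2, 1/2]` -/
lemma sym_inj {r s : ℤ → ℂ} (hr : Summable fun n => ‖r n‖) (hs : Summable fun n => ‖s n‖)
    (h : ∀ x ∈ Set.Icc (-(1 / 2) : ℝ) (1 / 2), sym r x = sym s x) : r = s := by
  funext n
  rw [← ft_sym hr, ← ft_sym hs]
  unfold ft
  apply intervalIntegral.integral_congr
  intro x hx
  rw [Set.uIcc_of_le (by norm_num)] at hx
  simp only
  rw [h x hx]

/-- the `L²` bound of a kernel with bounded symbol -/
theorem KB_two {K : ℤ → ℂ} (hK : Summable fun n => ‖K n‖) {M : ℝ}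
    (hM : ∀ x ∈ Set.Icc (-(1 / 2) : ℝ) (1 / 2), ‖sym K x‖ ≤ M) : KB 2 (M ^ 2) K := by
  intro X Y f
  simp only [Real.rpow_two]
  have hM0 : 0 ≤ M := (norm_nonneg _).trans (hM 0 (by norm_num))
  set g : ℤ → ℂ := fun n => if n ∈ X then f n else 0 with hg
  have hgs : Summable fun n => ‖g n‖ := by
    apply summable_of_ne_finset_zero (s := X)
    intro n hn
    rw [hg]; simp only; rw [if_neg hn, norm_zero]
  have hsg : Continuous (sym g) := continuous_sym hgs
  have hsK : Continuous (sym K) := continuous_sym hK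
  have hbK := sym_norm_le hK
  have hbg := sym_norm_le hgs
  -- Parseval for `g`
  have P1 := parseval (memLp_bdd hsg.measurable _ hbg)
  have P1' : ∫ x in (-(1 / 2) : ℝ)..(1 / 2), ‖sym g x‖ ^ 2 = ∑ x ∈ X, ‖f x‖ ^ 2 := by
    have h2 : HasSum (fun n => ‖ft (sym g) n‖ ^ 2) (∑ x ∈ X, ‖g x‖ ^ 2) := by
      simp only [ft_sym hgs]
      apply hasSum_sum_of_ne_finset_zero
      intro n hn
      rw [hg]; simp only; rw [if_neg hn]; simp
    rw [P1.unique h2]
    apply Finset.sum_congr rfl
    intro x hx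
    rw [hg]; simp only; rw [if_pos hx]
  -- Parseval for the product
  have hG : Continuous (fun x => sym g x * sym K x) := hsg.mul hsK
  have P2 := parseval (f := fun x => sym g x * sym K x) (memLp_bdd hG.measurable
    ((∑' n, ‖g n‖) * (∑' n, ‖K n‖)) (by
      intro x
      rw [norm_mul]
      exact mul_le_mul (hbg x) (hbK x) (norm_nonneg _) (tsum_nonneg fun _ => norm_nonneg _)))
  have h3 : ∀ y : ℤ, ft (fun x => sym g x * sym K x) y = ∑ x ∈ X, K (y - x) * f x := by
    intro y
    have h4 := ft_mul hgs hsK hbK y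
    simp only [ft_sym hK] at h4
    have h5 : HasSum (fun m : ℤ => g m * K (y - m)) (∑ x ∈ X, g x * K (y - x)) := by
      apply hasSum_sum_of_ne_finset_zero
      intro n hn
      rw [hg]; simp only; rw [if_neg hn]; simp
    rw [h4.unique h5]
    apply Finset.sum_congr rfl
    intro x hx
    rw [hg]; simp only; rw [if_pos hx]; ring
  have h6 : ∑ y ∈ Y, ‖∑ x ∈ X, K (y - x) * f x‖ ^ 2 ≤
      ∫ x in (-(1 / 2) : ℝ)..(1 / 2), ‖sym g x * sym K x‖ ^ 2 := by
    have := sum_le_hasSum Y (fun n _ => by positivity) P2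
    simpa only [h3] using this
  refine h6.trans ?_
  rw [← P1', ← intervalIntegral.integral_const_mul]
  apply intervalIntegral.integral_mono_on (by norm_num)
  · exact Continuous.intervalIntegrable (by fun_prop) _ _
  · exact Continuous.intervalIntegrable (by fun_prop) _ _
  · intro x hx
    rw [norm_mul, mul_pow, mul_comm]
    apply mul_le_mul_of_nonneg_right _ (by positivity)
    exact pow_le_pow_left₀ (norm_nonneg _) (hM x hx) 2

end

end Pool.Agent.MpA
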