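import Pool.Agent.MpA.Trap

set_option autoImplicit false

/-!
Uniform `ℓ^p` bounds for the modulating kernels.
-/

namespace Pool.Agent.MpA

open Finset MeasureTheory
open scoped BigOperators

noncomputable section

/-- conditions on scales `α k > β k > α (k+1) > ...` and shifts `ρ k` -/
structure Sc (α β : ℕ → ℝ) (ρ : ℕ → ℤ) : Prop where
  pos : ∀ k, 0 < β k
  le4 : ∀ k, α k ≤ 1 / 4
  c1 : ∀ k, β k ≤ α k / 8
  c2 : ∀ k, α (k + 1) ≤ β k / 2
  c3 : ∀ k, |(ρ k : ℝ)| * α (k + 1) ≤ 2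

/-- translated difference of two trapezoid kernels -/
def pie (a b : ℝ) (r : ℤ) (n : ℤ) : ℂ := ((P a (n - r) - P b (n - r) : ℝ) : ℂ)

/-- partial sums of the modulating kernel -/
def ker (α β : ℕ → ℝ) (ρ : ℕ → ℤ) (J : ℕ) (n : ℤ) : ℂ := ∑ k ∈ range J, pie (α k) (β k) (ρ k) n

lemma P_summable_shift {a : ℝ} (ha : 0 < a) (ha2 : a ≤ 1 / 4) (r : ℤ) : Summable (fun n : ℤ => |P a (n - r)|) :=
  (Equiv.subRight r).summable_iff.2 (P_summable ha ha2)

lemma pie_summable {a b : ℝ} (ha : 0 < a) (ha2 : a ≤ 1 / 4) (hb : 0 < b) (hb2 : b ≤ 1 / 4) (r : ℤ) :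
    Summable (fun n => ‖pie a b r n‖) := by
  apply Summable.of_nonneg_of_le (fun n => norm_nonneg _) _
    ((P_summable_shift ha ha2 r).add (P_summable_shift hb hb2 r))
  intro n
  unfold pie
  rw [Complex.norm_real, Real.norm_eq_abs]
  exact abs_sub _ _

lemma P_sym_shift {a : ℝ} (ha : 0 < a) (ha2 : a ≤ 1 / 4) (r : ℤ) {x : ℝ} (hx : |x| ≤ 1 / 2) :
    HasSum (fun n : ℤ => (P a (n - r) : ℂ) * ee (n * x)) (ee (r * x) * Psi a x) := by
  have h1 := (P_sym ha ha2 hx).mul_left (ee (r * x))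
  have h2 := (Equiv.subRight r).hasSum_iff.2 h1
  have e : ((fun i : ℤ => ee (r * x) * ((P a i : ℂ) * ee (i * x))) ∘ ⇑(Equiv.subRight r)) =
      fun n : ℤ => (P a (n - r) : ℂ) * ee (n * x) := by
    funext n
    simp only [Function.comp_apply, Equiv.subRight_apply]
    have : ee (n * x) = ee (r * x) * ee (((n - r : ℤ) : ℝ) * x) := by
      rw [← ee_add]; congr 1; push_cast; ring
    rw [this]; ring
  rw [e] at h2
  exact h2

lemma pie_sym {a b : ℝ} (ha : 0 < a) (ha2 : a ≤ 1 / 4) (hb : 0 < b) (hb2 : b ≤ 1 / 4) (r : ℤ)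
    {x : ℝ} (hx : |x| ≤ 1 / 2) :
    HasSum (fun n : ℤ => pie a b r n * ee (n * x)) (ee (r * x) * ((Psi a x - Psi b x : ℝ) : ℂ)) := by
  have h3 := (P_sym_shift ha ha2 r hx).sub (P_sym_shift hb hb2 r hx)
  have e1 : ee (r * x) * (Psi a x : ℂ) - ee (r * x) * (Psi b x : ℂ) = ee (r * x) * ((Psi a x - Psi b x : ℝ) : ℂ) := by
    push_cast; ring
  have e2 : (fun n : ℤ => (P a (n - r) : ℂ) * ee (n * x) - (P b (n - r) : ℂ) * ee (n * x)) =
      fun n : ℤ => pie a b r n * ee (n * x) := by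
    funext n; unfold pie; push_cast; ring
  rw [e1, e2] at h3
  exact h3

variable {α β : ℕ → ℝ} {ρ : ℕ → ℤ}

lemma Sc.αpos (h : Sc α β ρ) (k : ℕ) : 0 < α k := by
  have := h.pos k; have := h.c1 k; linarith

lemma Sc.β4 (h : Sc α β ρ) (k : ℕ) : β k ≤ 1 / 4 := by
  have := h.αpos k; have := h.c1 k; have := h.le4 k; linarith

lemma ker_summable (h : Sc α β ρ) (J : ℕ) : Summable (fun n => ‖ker α β ρ J n‖) := by
  have h1 : Summable (fun n => ∑ k ∈ range J, ‖pie (α k) (β k) (ρ k) n‖) :=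
    summable_sum (fun k _ => pie_summable (h.αpos k) (h.le4 k) (h.pos k) (h.β4 k) (ρ k))
  exact Summable.of_nonneg_of_le (fun n => norm_nonneg _) (fun n => norm_sum_le _ _) h1

lemma ker_sym (h : Sc α β ρ) (J : ℕ) {x : ℝ} (hx : |x| ≤ 1 / 2) :
    sym (ker α β ρ J) x = ∑ k ∈ range J, ee (ρ k * x) * ((Psi (α k) x - Psi (β k) x : ℝ) : ℂ) := by
  have h1 : HasSum (fun n : ℤ => ∑ k ∈ range J, pie (α k) (β k) (ρ k) n * ee (n * x))
      (∑ k ∈ range J, ee (ρ k * x) * ((Psi (α k) x - Psi (β k) x : ℝ) : ℂ)) :=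
    hasSum_sum (fun k _ => pie_sym (h.αpos k) (h.le4 k) (h.pos k) (h.β4 k) (ρ k) hx)
  unfold sym
  rw [← h1.tsum_eq]
  congr 1
  funext n
  unfold ker
  rw [Finset.sum_mul]

lemma ker_sym_le (h : Sc α β ρ) (J : ℕ) {x : ℝ} (hx : |x| ≤ 1 / 2) : ‖sym (ker α β ρ J) x‖ ≤ 1 := by
  rw [ker_sym h J hx]
  have h1 : ∀ J, ∑ k ∈ range J, (Psi (α k) x - Psi (β k) x) ≤ Psi (α 0) x - Psi (α J) x := by
    intro J
    induction J with
    | zero => simp
    | succ J ih =>
      rw [Finset.sum_range_succ]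
      have := Psi_mono (h.αpos (J + 1)) (show α (J + 1) ≤ β J by
        have := h.c2 J; have := h.pos J; linarith) x
      linarith
  calc ‖∑ k ∈ range J, ee (ρ k * x) * ((Psi (α k) x - Psi (β k) x : ℝ) : ℂ)‖
      ≤ ∑ k ∈ range J, (Psi (α k) x - Psi (β k) x) := by
        refine (norm_sum_le _ _).trans (Finset.sum_le_sum fun k _ => ?_)
        rw [norm_mul, norm_ee, one_mul, Complex.norm_real, Real.norm_of_nonneg]
        have := Psi_mono (h.pos k) (show β k ≤ α k by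
          have := h.c1 k; have := h.αpos k; linarith) x
        linarith
    _ ≤ Psi (α 0) x - Psi (α J) x := h1 J
    _ ≤ 1 := by
        have := Psi_le_one (h.αpos 0) x
        have := Psi_nonneg (h.αpos J) x
        linarith

lemma ker_Horm (h : Sc α β ρ) (J : ℕ) : Horm 1400 (ker α β ρ J) := by
  intro d Y hY
  have h1 := HS_sum α ρ h.αpos h.le4 (fun k => by
    have := h.c1 k; have := h.c2 k; have := h.αpos k; linarith) h.c3 d Y hY J
  have h2 := HS_sum β ρ h.pos h.β4 (fun k => by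
    have := h.c1 (k + 1); have := h.c2 k; have := h.pos k; linarith) (fun k => by
      have h3 := h.c3 k
      have h4 := h.c1 (k + 1)
      have h5 := h.αpos (k + 1)
      have h6 : |(ρ k : ℝ)| * β (k + 1) ≤ |(ρ k : ℝ)| * α (k + 1) := by
        apply mul_le_mul_of_nonneg_left _ (abs_nonneg _)
        linarith
      linarith) d Y hY J
  calc ∑ y ∈ Y, ‖ker α β ρ J (y - d) - ker α β ρ J y‖
      ≤ ∑ y ∈ Y, ∑ k ∈ range J, (|P (α k) (y - d - ρ k) - P (α k) (y - ρ k)| +
        |P (β k) (y - d - ρ k) - P (β k) (y - ρ k)|) := by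
        apply Finset.sum_le_sum; intro y _
        unfold ker
        rw [← Finset.sum_sub_distrib]
        refine (norm_sum_le _ _).trans (Finset.sum_le_sum fun k _ => ?_)
        unfold pie
        rw [← Complex.ofReal_sub, Complex.norm_real, Real.norm_eq_abs]
        rw [show P (α k) (y - d - ρ k) - P (β k) (y - d - ρ k) - (P (α k) (y - ρ k) - P (β k) (y - ρ k)) =
          (P (α k) (y - d - ρ k) - P (α k) (y - ρ k)) - (P (β k) (y - d - ρ k) - P (β k) (y - ρ k)) by ring]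
        exact abs_sub _ _
    _ = ∑ k ∈ range J, HS (α k) (ρ k) d Y + ∑ k ∈ range J, HS (β k) (ρ k) d Y := by
        rw [Finset.sum_comm, ← Finset.sum_add_distrib]
        apply Finset.sum_congr rfl; intro k _
        rw [Finset.sum_add_distrib]
        rfl
    _ ≤ 1400 := by linarith

/-- uniform bound of the modulating kernels -/
theorem ker_KB (h : Sc α β ρ) (J : ℕ) (p : ℝ) (hp : 1 < p) : KB p (CC p 1400 1) (ker α β ρ J) := by
  have h2 := KB_two (ker_summable h J) (M := 1) (fun x hx => ker_sym_le h J (abs_le.2 hx))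
  rw [one_pow] at h2
  exact strong_all (by norm_num) (by norm_num) h2 (ker_Horm h J) p hp

lemma CC_nonneg (p : ℝ) (hp : 1 < p) : 0 ≤ CC p 1400 1 := by
  unfold CC
  split_ifs with h1 h2
  · unfold Cst
    have : 0 < p - 1 := by linarith
    have : 0 < 2 - p := by linarith
    positivity
  · norm_num
  · have h3 : 2 < p := lt_of_le_of_ne (not_lt.1 h1) (Ne.symm h2)
    have hq1 : 0 < p / (p - 1) - 1 := by
      rw [sub_pos, lt_div_iff₀ (by linarith)]; linarith
    have hq2 : 0 < 2 - p / (p - 1) := by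
      rw [sub_pos, div_lt_iff₀ (by linarith)]; linarith
    apply Real.rpow_nonneg
    unfold Cst
    have : 0 < p / (p - 1) := by linarith
    positivity

/-- `ℓ^p` sums of the kernel `P a` -/
lemma P_lp {a : ℝ} (ha : 0 < a) (ha2 : a ≤ 1 / 4) {p : ℝ} (hp : 1 < p) (Y : Finset ℤ) :
    ∑ n ∈ Y, |P a n| ^ p ≤ (5 * a) ^ (p - 1) * 3 := by
  calc ∑ n ∈ Y, |P a n| ^ p ≤ ∑ n ∈ Y, (5 * a) ^ (p - 1) * |P a n| := by
        apply Finset.sum_le_sum; intro n _
        rcases eq_or_lt_of_le (abs_nonneg (P a n)) with h | h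
        · rw [← h, Real.zero_rpow (by linarith), mul_zero]
        · have h1 : |P a n| ^ p = |P a n| ^ (p - 1) * |P a n| := by
            rw [← Real.rpow_add_one h.ne']; congr 1; ring
          rw [h1]
          gcongr
          exact P_abs_le5 ha n
    _ = (5 * a) ^ (p - 1) * ∑ n ∈ Y, |P a n| := by rw [Finset.mul_sum]
    _ ≤ (5 * a) ^ (p - 1) * 3 := by
        gcongr
        exact P_sum_le ha ha2 Y

end

end Pool.Agent.MpA
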