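import Pool.Agent.MpA.Core

set_option autoImplicit false

/-!
Pointwise regularity gives local membership (an ideal argument in the closure of the
trigonometric polynomials).
-/

namespace Pool.Agent.MpA

open Filter Topology
open scoped ENNReal

noncomputable section

variable {p : ℝ≥0∞} [Fact (1 ≤ p)]

lemma Wc_comm {a : Mp p} (ha : a ∈ Wc p) (T : Mp p) : a * T = T * a := by
  have hcl : IsClosed {a : Mp p | a * T = T * a} :=
    isClosed_eq (continuous_id.mul continuous_const) (continuous_const.mul continuous_id)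
  have h1 : ∀ q ∈ Algebra.adjoin ℂ (Set.range (zM (p := p))), q * T = T * q := by
    intro q hq
    induction hq using Algebra.adjoin_induction with
    | mem x hx => obtain ⟨k, rfl⟩ := hx; exact comm_zM T k
    | algebraMap c => exact Algebra.commutes c T
    | add x y _ _ hx hy => rw [add_mul, mul_add, hx, hy]
    | mul x y _ _ hx hy => rw [mul_assoc, hy, ← mul_assoc, hx, mul_assoc]
  have h2 : closure ((Algebra.adjoin ℂ (Set.range (zM (p := p))) : Subalgebra ℂ (Mp p)) : Set (Mp p)) ⊆
      {a : Mp p | a * T = T * a} := hcl.closure_subset_iff.2 h1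
  exact h2 ha

instance : CompleteSpace (Wc p) := by
  have : IsClosed ((Wc p : Subalgebra ℂ (Mp p)) : Set (Mp p)) := Wc_closed
  exact this.completeSpace_coe

instance WcComm : NormedCommRing (Wc p) :=
  { (inferInstance : NormedRing (Wc p)) with
    mul_comm := fun a b => Subtype.ext (Wc_comm a.2 b.1) }

/-- a proper ideal of `Wc` is killed by a character -/
lemma ideal_char (J : Ideal (Wc p)) (hJ : J ≠ ⊤) : ∃ χ : Wc p →ₐ[ℂ] ℂ, ∀ a ∈ J, χ a = 0 := by
  obtain ⟨M, hM, hJM⟩ := J.exists_le_maximal hJ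
  refine ⟨WeakDual.CharacterSpace.equivAlgHom M.toCharacterSpace, fun a ha => ?_⟩
  exact M.toCharacterSpace_apply_eq_zero_of_mem (hJM ha)

/-- the values of a character of `Wc` -/
lemma char_point (χ : Wc p →ₐ[ℂ] ℂ) : ∃ x : ℝ, |x| ≤ 1 / 2 ∧
    ∀ r : ℤ → ℂ, ∀ hr : Summable (fun n => ‖r n‖), χ ⟨cv r, cv_mem r hr⟩ = sym r x := by
  have hcont : Continuous χ := map_continuous χ
  set z : ℤ → Wc p := fun k => ⟨zM k, zM_mem k⟩ with hz
  have hmul : ∀ k l, z k * z l = z (k + l) := fun k l => Subtype.ext (zM_mul k l)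
  have hz0 : z 0 = 1 := Subtype.ext zM_zero
  have h0 : χ (z 1) * χ (z (-1)) = 1 := by
    rw [← map_mul, hmul, add_neg_cancel, hz0, map_one]
  have h1 : χ (z 1) ≠ 0 := left_ne_zero_of_mul_eq_one h0
  have h2 : χ (z (-1)) = (χ (z 1))⁻¹ := eq_inv_of_mul_eq_one_right h0
  have hpow : ∀ k : ℤ, χ (z k) = χ (z 1) ^ k := by
    intro k
    induction k using Int.induction_on with
    | zero => rw [hz0, map_one, zpow_zero]
    | succ k ih => rw [← hmul, map_mul, ih, zpow_add_one₀ h1]
    | pred k ih => rw [sub_eq_add_neg, ← hmul, map_mul, ih, h2, zpow_add₀ h1, zpow_neg_one]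
  have hnz : ∀ k, ‖z k‖ ≤ 1 := fun k => norm_zM k
  have hle : ∀ k, ‖χ (z k)‖ ≤ 1 := by
    intro k
    have h3 : ‖χ (z k)‖ ≤ ‖z k‖ * ‖(1 : Wc p)‖ := AlgHom.norm_apply_le_self_mul_norm_one χ (z k)
    have h4 : ‖(1 : Wc p)‖ ≤ 1 := by rw [← hz0]; exact hnz 0
    calc ‖χ (z k)‖ ≤ ‖z k‖ * ‖(1 : Wc p)‖ := h3
      _ ≤ 1 * 1 := mul_le_mul (hnz k) h4 (norm_nonneg _) zero_le_one
      _ = 1 := one_mul 1
  have hnorm : ‖χ (z 1)‖ = 1 := by
    apply le_antisymm (hle 1)
    have h3 := hle (-1)
    rw [h2, norm_inv] at h3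
    have h4 : 0 < ‖χ (z 1)‖ := norm_pos_iff.2 h1
    exact (inv_le_one₀ h4).1 h3
  -- the angle
  set x : ℝ := Complex.arg (χ (z 1)) / (2 * Real.pi) with hx
  have hpi := Real.pi_pos
  have hx2 : |x| ≤ 1 / 2 := by
    rw [hx, abs_div, abs_of_pos (by positivity : 0 < 2 * Real.pi), div_le_iff₀ (by positivity)]
    have := Complex.abs_arg_le_pi (χ (z 1))
    linarith
  have hee : ee x = χ (z 1) := by
    have h3 := Complex.norm_mul_exp_arg_mul_I (χ (z 1))
    rw [hnorm, Complex.ofReal_one, one_mul] at h3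
    rw [← h3]
    unfold ee
    congr 1
    rw [hx]
    push_cast
    have : (Real.pi : ℂ) ≠ 0 := by exact_mod_cast Real.pi_ne_zero
    field_simp
  have heek : ∀ k : ℤ, ee (k * x) = χ (z 1) ^ k := by
    intro k
    rw [← hee]
    unfold ee
    rw [← Complex.exp_int_mul]
    congr 1
    push_cast; ring
  refine ⟨x, hx2, fun r hr => ?_⟩
  have hs : HasSum (fun n => r n • z n) (⟨cv r, cv_mem r hr⟩ : Wc p) := by
    have h3 := (cv_summable (p := p) hr).hasSum
    have h5 : HasSum (fun n => r n • z n) (⟨cv r, cv_mem r hr⟩ : Wc p) ↔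
        HasSum (fun n => ((r n • z n : Wc p) : Mp p)) (cv r) := by
      constructor
      · intro h
        exact h.map ((Wc p).subtype : Wc p →+* Mp p) continuous_subtype_val
      · intro h
        have : IsInducing ((↑) : Wc p → Mp p) := IsInducing.subtypeVal
        unfold HasSum at h ⊢
        rw [this.tendsto_nhds_iff]
        refine h.congr (fun s => ?_)
        simp only [Function.comp_apply]
        rw [AddSubmonoidClass.coe_finsetSum]
    rw [h5]
    exact h3
  have h6 := hs.map χ hcont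
  have h7 : (χ ∘ fun n => r n • z n) = fun n : ℤ => r n * ee (n * x) := by
    funext n
    simp only [Function.comp_apply]
    rw [map_smul, hpow, heek, smul_eq_mul]
  rw [h7] at h6
  exact h6.unique (sym_summable hr x).hasSum

/-- kernel of `Ψ_a` -/
def kP (a : ℝ) (n : ℤ) : ℂ := (P a n : ℂ)

lemma sym_kP {a : ℝ} (ha : 0 < a) (ha2 : a ≤ 1 / 4) {x : ℝ} (hx : |x| ≤ 1 / 2) : sym (kP a) x = Psi a x :=
  (P_sym ha ha2 hx).tsum_eq

lemma PsiM_prod (hp : p ≠ ⊤) {a b c : ℝ} (hc : 0 < c) (hc2 : c ≤ 1 / 4) (hb : 0 < b) (hba : b ≤ a) (ha2 : a ≤ 1 / 4)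
    (h : ∀ x, |x| ≤ 1 / 2 → Psi c x * (Psi a x - Psi b x) = 0) :
    (PsiM c * (PsiM a - PsiM b) : Mp p) = 0 := by
  have ha : 0 < a := by linarith
  have hb2 : b ≤ 1 / 4 := by linarith
  have h1 : (PsiM a - PsiM b : Mp p) = cv (pie a b 0) := by
    rw [cv_pie hp ha ha2 hb hb2, zM_zero, one_mul]
  have h0 : (0 : Mp p) = cv (fun _ => 0) := by
    apply eq_of_coef hp
    intro n
    rw [coef_zero, coef_cv (by simp)]
  rw [h1, h0]
  unfold PsiM
  apply cv_mul hp (P_csum hc hc2) (pie_summable ha ha2 hb hb2 0) (by simp)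
  intro x hx
  have hx' : |x| ≤ 1 / 2 := abs_le.2 hx
  have e1 : sym (fun n => (P c n : ℂ)) x = Psi c x := sym_kP hc hc2 hx'
  have e2 : sym (pie a b 0) x = ((Psi a x - Psi b x : ℝ) : ℂ) := by
    have := (pie_sym ha ha2 hb hb2 0 hx').tsum_eq
    rw [Int.cast_zero, zero_mul, ee_zero, one_mul] at this
    exact this
  have e3 : sym (fun _ => 0) x = 0 := by unfold sym; simp
  rw [e1, e2, e3, ← Complex.ofReal_mul, h x hx', Complex.ofReal_zero]

/-- local membership -/
theorem local_mem (hp : p ≠ ⊤) (T : Mp p) {a b : ℝ} (hb : 0 < b) (hba : b ≤ a) (ha : a ≤ 1 / 8)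
    (hreg : ∀ x : ℝ, b ≤ |x| → |x| ≤ 2 * a → RegularAt T (ee x)) : (PsiM a - PsiM b) * T ∈ Sa p := by
  have ha0 : 0 < a := by linarith
  set X : Mp p := (PsiM a - PsiM b) * T with hX
  -- the ideal
  let J : Ideal (Wc p) :=
    { carrier := {c | (c : Mp p) * X ∈ Sa p}
      add_mem' := by
        intro c d hc hd
        show ((c + d : Wc p) : Mp p) * X ∈ Sa p
        have : ((c + d : Wc p) : Mp p) * X = (c : Mp p) * X + (d : Mp p) * X := by
          push_cast; rw [add_mul]
        rw [this]
        exact (Sa p).add_mem hc hd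
      zero_mem' := by
        show ((0 : Wc p) : Mp p) * X ∈ Sa p
        simp [(Sa p).zero_mem]
      smul_mem' := by
        intro c d hd
        show ((c * d : Wc p) : Mp p) * X ∈ Sa p
        have : ((c * d : Wc p) : Mp p) * X = (c : Mp p) * ((d : Mp p) * X) := by
          push_cast; rw [mul_assoc]
        rw [this]
        exact (Sa p).mul_mem (Wc_le_Sa c.2) hd }
  have hJmem : ∀ c : Wc p, c ∈ J ↔ (c : Mp p) * X ∈ Sa p := fun c => Iff.rfl
  by_contra hcon
  have hJ : J ≠ ⊤ := by
    intro h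
    have h1 : (1 : Wc p) ∈ J := by rw [h]; trivial
    rw [hJmem] at h1
    apply hcon
    simpa using h1
  obtain ⟨χ, hχ⟩ := ideal_char J hJ
  obtain ⟨x, hx, hval⟩ := char_point χ
  -- three cases
  rcases lt_or_ge |x| b with h1 | h1
  · -- `η = Ψ_{b/2}`
    have hs := P_csum (show 0 < b / 2 by positivity) (by linarith)
    have h2 := hχ ⟨cv (fun n => (P (b / 2) n : ℂ)), cv_mem _ hs⟩ (by
      rw [hJmem]
      show PsiM (b / 2) * X ∈ Sa p
      rw [hX, ← mul_assoc, PsiM_prod hp (by positivity) (by linarith) hb hba (by linarith), zero_mul]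
      · exact (Sa p).zero_mem
      · intro y _
        rcases le_total |y| b with h3 | h3
        · rw [Psi_one hb h3, Psi_one ha0 (by linarith)]; ring
        · rw [Psi_zero (by positivity : 0 < b / 2) (by linarith)]; ring)
    rw [hval _ hs] at h2
    have h3 : sym (fun n => (P (b / 2) n : ℂ)) x = Psi (b / 2) x := sym_kP (by positivity) (by linarith) hx
    rw [h3] at h2
    have h4 : Psi (b / 2) x = 0 := by exact_mod_cast h2
    rcases le_total |x| (b / 2) with h5 | h5
    · rw [Psi_one (by positivity) h5] at h4; norm_num at h4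
    · rw [Psi_mid (by positivity) h5 (by linarith)] at h4
      have h6 : |x| / (b / 2) < 2 := by rw [div_lt_iff₀ (by positivity)]; linarith
      linarith
  · rcases le_or_gt |x| (2 * a) with h2 | h2
    · -- regular point
      obtain ⟨R, hR, hR0, hRT⟩ := hreg x h1 h2
      have hRe : R = cv (coef R) := eq_cv hp R hR
      have h3 := hχ ⟨cv (coef R), cv_mem _ hR⟩ (by
        rw [hJmem]
        show cv (coef R) * X ∈ Sa p
        rw [← hRe, hX, ← mul_assoc]
        have h4 : R * (PsiM a - PsiM b) = (PsiM a - PsiM b) * R := by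
          rw [hRe]; exact Wc_comm (cv_mem _ hR) _
        rw [h4, mul_assoc]
        apply (Sa p).mul_mem _ hRT
        exact (Sa p).sub_mem (Wc_le_Sa (PsiM_mem ha0 (by linarith))) (Wc_le_Sa (PsiM_mem hb (by linarith))))
      rw [hval _ hR] at h3
      apply hR0
      rw [← h3]
      unfold sym
      congr 1
      funext n
      congr 1
      unfold ee
      rw [← Complex.exp_int_mul]
      congr 1
      push_cast; ring
    · -- `η = 1 - Ψ_{2a}`
      have hs : Summable (fun n => ‖(P (2 * a) n : ℂ)‖) := P_csum (show 0 < 2 * a by positivity) (by linarith)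
      have h3 := hχ (1 - ⟨cv (fun n => (P (2 * a) n : ℂ)), cv_mem _ hs⟩) (by
        rw [hJmem]
        show (1 - PsiM (2 * a)) * X ∈ Sa p
        have h4 : (1 - PsiM (2 * a) : Mp p) * (PsiM a - PsiM b) = 0 := by
          have h5 : (PsiM a - PsiM b : Mp p) = cv (pie a b 0) := by
            rw [cv_pie hp ha0 (by linarith) hb (by linarith), zM_zero, one_mul]
          rw [sub_mul, one_mul, sub_eq_zero, h5]
          unfold PsiM
          symm
          apply cv_mul hp hs (pie_summable ha0 (by linarith) hb (by linarith) 0)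
            (pie_summable ha0 (by linarith) hb (by linarith) 0)
          intro y hy
          have hy' : |y| ≤ 1 / 2 := abs_le.2 hy
          have e1 : sym (fun n => (P (2 * a) n : ℂ)) y = Psi (2 * a) y := sym_kP (by positivity) (by linarith) hy'
          have e2 : sym (pie a b 0) y = ((Psi a y - Psi b y : ℝ) : ℂ) := by
            have := (pie_sym ha0 (by linarith) hb (by linarith) 0 hy').tsum_eq
            rw [Int.cast_zero, zero_mul, ee_zero, one_mul] at this
            exact this
          rw [e1, e2, ← Complex.ofReal_mul]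
          congr 1
          rcases le_total |y| (2 * a) with h6 | h6
          · rw [Psi_one (by positivity : 0 < 2 * a) h6, one_mul]
          · rw [Psi_zero ha0 h6, Psi_zero hb (by linarith)]; ring
        rw [hX, ← mul_assoc, h4, zero_mul]
        exact (Sa p).zero_mem)
      rw [map_sub, map_one, hval _ hs] at h3
      have h4 : sym (fun n => (P (2 * a) n : ℂ)) x = Psi (2 * a) x := sym_kP (by positivity) (by linarith) hx
      rw [h4] at h3
      have h5 : (1 : ℝ) - Psi (2 * a) x = 0 := by exact_mod_cast h3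
      rcases le_total |x| (2 * (2 * a)) with h6 | h6
      · rw [Psi_mid (by positivity) h2.le h6] at h5
        have h7 : 1 < |x| / (2 * a) := by rw [lt_div_iff₀ (by positivity)]; linarith
        linarith
      · rw [Psi_zero (by positivity) h6] at h5; norm_num at h5

end

end Pool.Agent.MpA
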