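import Pool.Agent.MpA.Ker
import Pool.Agent.MpA.Defs

set_option autoImplicit false

/-!
Operators: coefficients, uniqueness, operators with absolutely summable coefficients, norms.
-/

namespace Pool.Agent.MpA

open Filter Topology
open scoped ENNReal

noncomputable section

variable {p : ℝ≥0∞} [Fact (1 ≤ p)]

instance : CompleteSpace (Mp p) := by
  have : IsClosed ((Mp p : Subalgebra ℂ (El p →L[ℂ] El p)) : Set (El p →L[ℂ] El p)) := by
    rw [Mp, Subalgebra.coe_centralizer]
    exact Set.isClosed_centralizer _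
  exact this.completeSpace_coe

lemma sh_apply (k : ℤ) (f : El p) (n : ℤ) : (sh p k f) n = f (n - k) := rfl

lemma sh_add (k l : ℤ) : sh p (k + l) = sh p k * sh p l := by
  ext f n
  show f (n - (k + l)) = f (n - k - l)
  rw [show n - (k + l) = n - k - l by ring]

lemma sh_zero : sh p 0 = 1 := by
  ext f n
  show f (n - 0) = f n
  rw [sub_zero]

lemma norm_sh (k : ℤ) (f : El p) : ‖sh p k f‖ = ‖f‖ := (shL p k).norm_map f

/-- the unit vectors -/
def del (x : ℤ) : El p := lp.single p x (1 : ℂ)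

lemma p_pos : (0 : ℝ≥0∞) < p := lt_of_lt_of_le zero_lt_one Fact.out

lemma norm_del (x : ℤ) : ‖(del x : El p)‖ = 1 := by
  unfold del
  rw [lp.norm_single p_pos]; simp

lemma sh_del (k x : ℤ) : sh p k (del x) = del (x + k) := by
  ext n
  rw [sh_apply]
  unfold del
  rw [lp.single_apply, lp.single_apply, Pi.single_apply, Pi.single_apply]
  by_cases h : n - k = x
  · rw [if_pos h, if_pos (by linarith)]
  · rw [if_neg h, if_neg (by intro h2; exact h (by linarith))]

lemma zM_mul (k l : ℤ) : (zM k : Mp p) * zM l = zM (k + l) := by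
  apply Subtype.ext
  show sh p k * sh p l = sh p (k + l)
  rw [sh_add]

lemma zM_zero : (zM 0 : Mp p) = 1 := by
  apply Subtype.ext
  show sh p 0 = 1
  rw [sh_zero]

/-- elements of `M_p` commute with all translations -/
lemma comm_sh (T : Mp p) (k : ℤ) : sh p k * T.1 = T.1 * sh p k := by
  have h1 : sh p 1 * T.1 = T.1 * sh p 1 := by
    have h0 : T.1 ∈ Subalgebra.centralizer ℂ {sh p 1} := T.2
    rw [Subalgebra.mem_centralizer_iff] at h0
    exact h0 _ (Set.mem_singleton _)
  have h2 : sh p (-1) * T.1 = T.1 * sh p (-1) := by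
    have e1 : sh p (-1) * sh p 1 = 1 := by rw [← sh_add]; simp [sh_zero]
    have e2 : sh p 1 * sh p (-1) = 1 := by rw [← sh_add]; simp [sh_zero]
    calc sh p (-1) * T.1 = sh p (-1) * T.1 * (sh p 1 * sh p (-1)) := by rw [e2, mul_one]
      _ = sh p (-1) * (T.1 * sh p 1) * sh p (-1) := by simp only [mul_assoc]
      _ = sh p (-1) * (sh p 1 * T.1) * sh p (-1) := by rw [h1]
      _ = (sh p (-1) * sh p 1) * T.1 * sh p (-1) := by simp only [mul_assoc]
      _ = T.1 * sh p (-1) := by rw [e1, one_mul]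
  induction k using Int.induction_on with
  | zero => rw [sh_zero, one_mul, mul_one]
  | succ k ih => rw [sh_add, mul_assoc, h1, ← mul_assoc, ih, mul_assoc]
  | pred k ih => rw [sub_eq_add_neg, sh_add, mul_assoc, h2, ← mul_assoc, ih, mul_assoc]

lemma comm_sh_apply (T : Mp p) (k : ℤ) (f : El p) : T.1 (sh p k f) = sh p k (T.1 f) := by
  have := comm_sh T k
  exact (congrArg (fun A : El p →L[ℂ] El p => A f) this).symm

lemma comm_zM (T : Mp p) (k : ℤ) : zM k * T = T * zM k := Subtype.ext (comm_sh T k)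

lemma T_del (T : Mp p) (x y : ℤ) : T.1 (del x) y = coef T (y - x) := by
  have : (del x : El p) = sh p x (del 0) := by rw [sh_del, zero_add]
  rw [this, comm_sh_apply, sh_apply]
  rfl

lemma coef_add (T S : Mp p) (n : ℤ) : coef (T + S) n = coef T n + coef S n := rfl
lemma coef_sub (T S : Mp p) (n : ℤ) : coef (T - S) n = coef T n - coef S n := rfl
lemma coef_smul (c : ℂ) (T : Mp p) (n : ℤ) : coef (c • T) n = c * coef T n := rfl
lemma coef_zero (n : ℤ) : coef (0 : Mp p) n = 0 := rfl

lemma coef_le (T : Mp p) (n : ℤ) : ‖coef T n‖ ≤ ‖T‖ := by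
  unfold coef
  refine (lp.norm_apply_le_norm p_pos.ne' _ n).trans ?_
  refine (T.1.le_opNorm _).trans ?_
  have h1 : ‖(lp.single p (0 : ℤ) (1 : ℂ) : El p)‖ = 1 := norm_del (p := p) 0
  rw [h1, mul_one]
  exact le_rfl

/-- coefficient as a continuous linear functional -/
def coefL (n : ℤ) : Mp p →L[ℂ] ℂ :=
  LinearMap.mkContinuous
    { toFun := fun T => coef T n
      map_add' := fun T S => coef_add T S n
      map_smul' := fun c T => coef_smul c T n } 1 (fun T => by
        rw [one_mul]; exact coef_le T n)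

lemma coefL_apply (n : ℤ) (T : Mp p) : coefL n T = coef T n := rfl

lemma coef_zM (k n : ℤ) : coef (zM k : Mp p) n = if n = k then 1 else 0 := by
  show sh p k (del 0) n = _
  rw [sh_del, zero_add]
  unfold del
  rw [lp.single_apply, Pi.single_apply]

lemma coef_zM_mul (k : ℤ) (T : Mp p) (n : ℤ) : coef (zM k * T) n = coef T (n - k) := rfl

lemma norm_zM (k : ℤ) : ‖(zM k : Mp p)‖ ≤ 1 := by
  show ‖sh p k‖ ≤ 1
  apply ContinuousLinearMap.opNorm_le_bound _ zero_le_one
  intro f
  rw [norm_sh, one_mul]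

lemma norm_zM_mul (k : ℤ) (T : Mp p) : ‖zM k * T‖ ≤ ‖T‖ := by
  refine (norm_mul_le _ _).trans ?_
  exact mul_le_of_le_one_left (norm_nonneg _) (norm_zM k)

/-- partial sums of an element of `ℓ^p` -/
def cut (f : El p) (X : Finset ℤ) : El p := ∑ x ∈ X, f x • del x

lemma cut_tendsto (hp : p ≠ ⊤) (f : El p) : Tendsto (fun X => cut f X) atTop (𝓝 f) := by
  have := lp.hasSum_single hp f
  have h2 : (fun x => lp.single p x (f x)) = fun x => f x • (del x : El p) := by
    funext x
    unfold del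
    rw [← lp.single_smul]; simp
  rw [h2] at this
  exact this

lemma T_cut (T : Mp p) (f : El p) (X : Finset ℤ) (y : ℤ) :
    T.1 (cut f X) y = ∑ x ∈ X, coef T (y - x) * f x := by
  unfold cut
  rw [map_sum]
  simp only [map_smul]
  rw [lp.coeFn_sum, Finset.sum_apply]
  apply Finset.sum_congr rfl
  intro x _
  rw [lp.coeFn_smul, Pi.smul_apply, T_del, smul_eq_mul, mul_comm]

lemma eq_of_coef (hp : p ≠ ⊤) {T S : Mp p} (h : ∀ n, coef T n = coef S n) : T = S := by
  apply Subtype.ext
  ext1 f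
  have h1 : Tendsto (fun X => T.1 (cut f X)) atTop (𝓝 (T.1 f)) := (T.1.continuous.tendsto f).comp (cut_tendsto hp f)
  have h2 : Tendsto (fun X => S.1 (cut f X)) atTop (𝓝 (S.1 f)) := (S.1.continuous.tendsto f).comp (cut_tendsto hp f)
  have h3 : (fun X => T.1 (cut f X)) = fun X => S.1 (cut f X) := by
    funext X
    ext y
    rw [T_cut, T_cut]
    simp only [h]
  rw [h3] at h1
  exact tendsto_nhds_unique h1 h2

/-- the operator with kernel `r ∈ ℓ^1` -/
def cv (r : ℤ → ℂ) : Mp p := ∑' n, r n • zM n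

lemma cv_summable {r : ℤ → ℂ} (hr : Summable fun n => ‖r n‖) : Summable (fun n => r n • (zM n : Mp p)) := by
  apply Summable.of_norm_bounded hr
  intro n
  rw [norm_smul]
  exact mul_le_of_le_one_right (norm_nonneg _) (norm_zM n)

lemma coef_cv {r : ℤ → ℂ} (hr : Summable fun n => ‖r n‖) (k : ℤ) : coef (cv r : Mp p) k = r k := by
  have h1 := ((coefL k).hasSum (cv_summable (p := p) hr).hasSum)
  have h2 : HasSum (fun n => (coefL k : Mp p →L[ℂ] ℂ) (r n • zM n)) (r k) := by
    have := hasSum_single (f := fun n => (coefL k : Mp p →L[ℂ] ℂ) (r n • zM n)) k (by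
      intro n hn
      rw [coefL_apply, coef_smul, coef_zM, if_neg hn.symm, mul_zero])
    rw [coefL_apply, coef_smul, coef_zM, if_pos rfl, mul_one] at this
    exact this
  exact h1.unique h2

lemma zM_mem (k : ℤ) : (zM k : Mp p) ∈ Wc p :=
  Subalgebra.le_topologicalClosure _ (Algebra.subset_adjoin ⟨k, rfl⟩)

lemma Wc_closed : IsClosed ((Wc p : Subalgebra ℂ (Mp p)) : Set (Mp p)) :=
  Subalgebra.isClosed_topologicalClosure _

lemma tsum_mem_Wc {ι : Type} {g : ι → Mp p} (hg : Summable g) (h : ∀ i, g i ∈ Wc p) : ∑' i, g i ∈ Wc p := by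
  refine Wc_closed.mem_of_tendsto hg.hasSum (Eventually.of_forall fun s => ?_)
  exact (Wc p).sum_mem (fun i _ => h i)

lemma cv_mem (r : ℤ → ℂ) (hr : Summable fun n => ‖r n‖) : (cv r : Mp p) ∈ Wc p :=
  tsum_mem_Wc (cv_summable hr) (fun n => (Wc p).smul_mem (zM_mem n) _)

lemma eq_cv (hp : p ≠ ⊤) (R : Mp p) (hR : Summable fun n => ‖coef R n‖) : R = cv (coef R) :=
  eq_of_coef hp (fun n => (coef_cv hR n).symm)

lemma cv_mul_hasSum {r : ℤ → ℂ} (hr : Summable fun n => ‖r n‖) (T : Mp p) (n : ℤ) :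
    HasSum (fun m => r m * coef T (n - m)) (coef (cv r * T) n) := by
  have h1 := ((coefL n).hasSum ((cv_summable (p := p) hr).hasSum.mul_right T))
  simp only [coefL_apply, smul_mul_assoc, coef_smul, coef_zM_mul] at h1
  exact h1

lemma cv_comm {r : ℤ → ℂ} (hr : Summable fun n => ‖r n‖) (T : Mp p) : cv r * T = T * cv r := by
  have h1 := (cv_summable (p := p) hr).hasSum.mul_right T
  have h2 := (cv_summable (p := p) hr).hasSum.mul_left T
  have h3 : (fun n => r n • (zM n : Mp p) * T) = fun n => T * (r n • zM n) := by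
    funext n
    rw [smul_mul_assoc, mul_smul_comm, comm_zM]
  rw [h3] at h1
  exact h1.unique h2

/-- product of two kernels, through the symbols -/
lemma cv_mul (hp : p ≠ ⊤) {r s t : ℤ → ℂ} (hr : Summable fun n => ‖r n‖) (hs : Summable fun n => ‖s n‖)
    (ht : Summable fun n => ‖t n‖)
    (h : ∀ x ∈ Set.Icc (-(1 / 2) : ℝ) (1 / 2), sym r x * sym s x = sym t x) :
    (cv r * cv s : Mp p) = cv t := by
  apply eq_of_coef hp
  intro n
  rw [coef_cv ht]
  have h1 := cv_mul_hasSum hr (cv s : Mp p) n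
  simp only [coef_cv hs] at h1
  have h2 := ft_mul hr (continuous_sym hs) (sym_norm_le hs) n
  simp only [ft_sym hs] at h2
  rw [h1.unique h2, ← ft_sym ht]
  unfold ft
  apply intervalIntegral.integral_congr
  intro x hx
  rw [Set.uIcc_of_le (by norm_num)] at hx
  simp only
  rw [h x hx]

lemma ptr (hp : p ≠ ⊤) : 0 < p.toReal := ENNReal.toReal_pos p_pos.ne' hp

/-- operator norm from the finite bounds -/
lemma norm_le_of_KB (hp : p ≠ ⊤) (R : Mp p) {C : ℝ} (hC : 0 ≤ C) (h : KB p.toReal C (coef R)) :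
    ‖R‖ ≤ C ^ (1 / p.toReal) := by
  have hp0 := ptr hp
  show ‖R.1‖ ≤ _
  apply ContinuousLinearMap.opNorm_le_bound _ (by positivity)
  intro f
  have h1 : ∀ X, ‖R.1 (cut f X)‖ ≤ C ^ (1 / p.toReal) * ‖f‖ := by
    intro X
    apply lp.norm_le_of_forall_sum_le hp0 (by positivity)
    intro Y
    have h2 := h X Y (fun x => f x)
    simp only [T_cut]
    refine h2.trans ?_
    rw [Real.mul_rpow (by positivity) (norm_nonneg _), ← Real.rpow_mul hC, one_div_mul_cancel hp0.ne',
      Real.rpow_one]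
    apply mul_le_mul_of_nonneg_left _ hC
    exact lp.sum_rpow_le_norm_rpow hp0 f X
  have h2 : Tendsto (fun X => ‖R.1 (cut f X)‖) atTop (𝓝 ‖R.1 f‖) :=
    ((R.1.continuous.tendsto f).comp (cut_tendsto hp f)).norm
  exact le_of_tendsto h2 (Eventually.of_forall h1)

/-- strong limits -/
theorem strong_limit (hp : p ≠ ⊤) (U : ℕ → Mp p) {C : ℝ} (hC : ∀ J, ‖U J‖ ≤ C)
    (hs : Summable (fun J => ‖(U (J + 1)).1 (del 0) - (U J).1 (del 0)‖)) :
    ∃ u : Mp p, ∀ f : El p, Tendsto (fun J => (U J).1 f) atTop (𝓝 (u.1 f)) := by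
  have hC0 : 0 ≤ C := (norm_nonneg _).trans (hC 0)
  have c0 : CauchySeq (fun J => (U J).1 (del 0)) := by
    apply cauchySeq_of_summable_dist
    refine hs.congr ?_
    intro J
    rw [dist_eq_norm, norm_sub_rev]
  have c1 : ∀ x, CauchySeq (fun J => (U J).1 (del x)) := by
    intro x
    have h1 : (fun J => (U J).1 (del x)) = fun J => sh p x ((U J).1 (del 0)) := by
      funext J
      rw [← comm_sh_apply, sh_del, zero_add]
    rw [h1]
    exact (sh p x).uniformContinuous.comp_cauchySeq c0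
  have c2 : ∀ (f : El p) (X : Finset ℤ), CauchySeq (fun J => (U J).1 (cut f X)) := by
    intro f X
    have h1 : (fun J => (U J).1 (cut f X)) = fun J => ∑ x ∈ X, f x • (U J).1 (del x) := by
      funext J; unfold cut; rw [map_sum]; simp only [map_smul]
    rw [h1]
    have h2 : ∀ x, ∃ l, Tendsto (fun J => (U J).1 (del x)) atTop (𝓝 l) := fun x => cauchySeq_tendsto_of_complete (c1 x)
    choose l hl using h2
    exact (tendsto_finsetSum X (fun x _ => (hl x).const_smul (f x))).cauchySeq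
  have c3 : ∀ f : El p, CauchySeq (fun J => (U J).1 f) := by
    intro f
    rw [Metric.cauchySeq_iff]
    intro ε hε
    have h1 := cut_tendsto hp f
    rw [Metric.tendsto_atTop] at h1
    obtain ⟨X, hX⟩ := h1 (ε / (3 * (C + 1))) (by positivity)
    have hX' := hX X le_rfl
    rw [dist_eq_norm] at hX'
    obtain ⟨N, hN⟩ := Metric.cauchySeq_iff.1 (c2 f X) (ε / 3) (by positivity)
    refine ⟨N, fun m hm n hn => ?_⟩
    have h2 := hN m hm n hn
    rw [dist_eq_norm] at h2 ⊢
    have h3 : ∀ J, ‖(U J).1 f - (U J).1 (cut f X)‖ < ε / 3 := by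
      intro J
      rw [← map_sub]
      calc ‖(U J).1 (f - cut f X)‖ ≤ ‖(U J).1‖ * ‖f - cut f X‖ := (U J).1.le_opNorm _
        _ ≤ C * ‖f - cut f X‖ := mul_le_mul_of_nonneg_right (hC J) (norm_nonneg _)
        _ ≤ (C + 1) * ‖f - cut f X‖ := by nlinarith [norm_nonneg (f - cut f X)]
        _ < (C + 1) * (ε / (3 * (C + 1))) := by
            rw [norm_sub_rev]
            apply mul_lt_mul_of_pos_left hX' (by positivity)
        _ = ε / 3 := by field_simp
    have h4 := h3 m
    have h5 := h3 n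
    calc ‖(U m).1 f - (U n).1 f‖ = ‖((U m).1 f - (U m).1 (cut f X)) + ((U m).1 (cut f X) - (U n).1 (cut f X)) -
          ((U n).1 f - (U n).1 (cut f X))‖ := by congr 1; abel
      _ ≤ ‖((U m).1 f - (U m).1 (cut f X)) + ((U m).1 (cut f X) - (U n).1 (cut f X))‖ +
          ‖(U n).1 f - (U n).1 (cut f X)‖ := norm_sub_le _ _
      _ ≤ ‖(U m).1 f - (U m).1 (cut f X)‖ + ‖(U m).1 (cut f X) - (U n).1 (cut f X)‖ +
          ‖(U n).1 f - (U n).1 (cut f X)‖ := by gcongr; exact norm_add_le _ _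
      _ < ε := by linarith
  have c4 : ∀ f : El p, ∃ l, Tendsto (fun J => (U J).1 f) atTop (𝓝 l) := fun f =>
    cauchySeq_tendsto_of_complete (c3 f)
  choose g hg using c4
  have hlim : Tendsto (fun (J : ℕ) (f : El p) => (U J).1 f) atTop (𝓝 g) := tendsto_pi_nhds.2 hg
  set u0 : El p →L[ℂ] El p := continuousLinearMapOfTendsto (fun J => (U J).1) hlim with hu0
  have hu0' : ∀ f, u0 f = g f := fun f => rfl
  refine ⟨⟨u0, ?_⟩, ?_⟩
  · rw [Mp, Subalgebra.mem_centralizer_iff]
    intro s hs'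
    rw [Set.mem_singleton_iff] at hs'
    rw [hs']
    ext1 f
    show sh p 1 (u0 f) = u0 (sh p 1 f)
    rw [hu0', hu0']
    have h1 : Tendsto (fun J => sh p 1 ((U J).1 f)) atTop (𝓝 (sh p 1 (g f))) :=
      ((sh p 1).continuous.tendsto _).comp (hg f)
    have h2 : (fun J => sh p 1 ((U J).1 f)) = fun J => (U J).1 (sh p 1 f) := by
      funext J; rw [comm_sh_apply]
    rw [h2] at h1
    exact tendsto_nhds_unique h1 (hg (sh p 1 f))
  · intro f
    exact hg f

/-- coefficients of strong limits -/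
lemma coef_limit {U : ℕ → Mp p} {u : Mp p} (h : ∀ f : El p, Tendsto (fun J => (U J).1 f) atTop (𝓝 (u.1 f)))
    (n : ℤ) : Tendsto (fun J => coef (U J) n) atTop (𝓝 (coef u n)) := by
  have h1 := h (del 0)
  have h2 : Continuous (fun f : El p => f n) :=
    (lp.lipschitzWith_one_eval (E := fun _ : ℤ => ℂ) p n).continuous
  exact (h2.tendsto _).comp h1

lemma limit_mul {U V : ℕ → Mp p} {u v : Mp p} {C : ℝ} (hC : ∀ J, ‖V J‖ ≤ C)
    (hU : ∀ f : El p, Tendsto (fun J => (U J).1 f) atTop (𝓝 (u.1 f)))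
    (hV : ∀ f : El p, Tendsto (fun J => (V J).1 f) atTop (𝓝 (v.1 f))) :
    ∀ f : El p, Tendsto (fun J => (V J * U J).1 f) atTop (𝓝 ((v * u).1 f)) := by
  intro f
  have h1 : (fun J => (V J * U J).1 f) = fun J => (V J).1 ((U J).1 f - u.1 f) + (V J).1 (u.1 f) := by
    funext J
    rw [map_sub]
    show (V J).1 ((U J).1 f) = _
    abel
  rw [h1]
  have h2 : Tendsto (fun J => (V J).1 ((U J).1 f - u.1 f)) atTop (𝓝 0) := by
    apply squeeze_zero_norm (a := fun J => C * ‖(U J).1 f - u.1 f‖)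
    · intro J
      refine ((V J).1.le_opNorm _).trans ?_
      exact mul_le_mul_of_nonneg_right (hC J) (norm_nonneg _)
    · have h3 := (hU f)
      rw [tendsto_iff_norm_sub_tendsto_zero] at h3
      simpa using h3.const_mul C
  have h3 := h2.add (hV (u.1 f))
  rw [zero_add] at h3
  exact h3

end

end Pool.Agent.MpA
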