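import Pool.Agent.MpA.Loc

set_option autoImplicit false

/-!
Rotations, and the theorem at an arbitrary point.
-/

namespace Pool.Agent.MpA

open Filter Topology
open scoped ENNReal

noncomputable section

variable {p : ℝ≥0∞} [Fact (1 ≤ p)]

lemma norm_mod {lam : ℂ} (h : ‖lam‖ = 1) (n : ℤ) (z : ℂ) : ‖lam ^ n * z‖ = ‖z‖ := by
  rw [norm_mul, norm_zpow, h, one_zpow, one_mul]

lemma mem_mod {lam : ℂ} (h : ‖lam‖ = 1) (f : El p) : Memℓp (fun n : ℤ => lam ^ n * f n) p := by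
  have hf := lp.memℓp f
  rcases ENNReal.dichotomy p with hp | hp
  · subst hp
    rw [memℓp_infty_iff] at hf ⊢
    simp only [norm_mod h]
    exact hf
  · have hp' : 0 < p.toReal := lt_of_lt_of_le zero_lt_one hp
    rw [memℓp_gen_iff hp'] at hf ⊢
    simp only [norm_mod h]
    exact hf

/-- modulation -/
def modL (lam : ℂ) (h : ‖lam‖ = 1) : El p →ₗᵢ[ℂ] El p where
  toFun f := ⟨fun n => lam ^ n * f n, mem_mod h f⟩
  map_add' f g := by ext n; show lam ^ n * (f n + g n) = lam ^ n * f n + lam ^ n * g n; ring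
  map_smul' c f := by ext n; show lam ^ n * (c * f n) = c * (lam ^ n * f n); ring
  norm_map' f := by
    rcases ENNReal.dichotomy p with hp | hp
    · subst hp
      rw [lp.norm_eq_ciSup, lp.norm_eq_ciSup]
      congr 1
      funext n
      exact norm_mod h n (f n)
    · have hp' : 0 < p.toReal := lt_of_lt_of_le zero_lt_one hp
      rw [lp.norm_eq_tsum_rpow hp', lp.norm_eq_tsum_rpow hp']
      congr 2
      funext n
      rw [← norm_mod h n (f n)]
      rfl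

/-- modulation as a bounded operator -/
def mo (lam : ℂ) (h : ‖lam‖ = 1) : El p →L[ℂ] El p := (modL lam h).toContinuousLinearMap

lemma mo_apply {lam : ℂ} (h : ‖lam‖ = 1) (f : El p) (n : ℤ) : mo lam h f n = lam ^ n * f n := rfl

lemma ne_of_norm {lam : ℂ} (h : ‖lam‖ = 1) : lam ≠ 0 := by
  rintro rfl; simp at h

lemma inv_norm {lam : ℂ} (h : ‖lam‖ = 1) : ‖lam⁻¹‖ = 1 := by rw [norm_inv, h, inv_one]

lemma mo_inv {lam : ℂ} (h : ‖lam‖ = 1) : (mo lam⁻¹ (inv_norm h) * mo lam h : El p →L[ℂ] El p) = 1 := by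
  ext f n
  show lam⁻¹ ^ n * (lam ^ n * f n) = f n
  rw [← mul_assoc, ← mul_zpow, inv_mul_cancel₀ (ne_of_norm h), one_zpow, one_mul]

lemma sh_mo {lam : ℂ} (h : ‖lam‖ = 1) (k : ℤ) :
    (sh p k * mo lam h : El p →L[ℂ] El p) = lam ^ (-k) • (mo lam h * sh p k) := by
  ext f n
  show lam ^ (n - k) * f (n - k) = lam ^ (-k) * (lam ^ n * f (n - k))
  rw [sub_eq_add_neg, zpow_add₀ (ne_of_norm h)]
  ring

/-- rotation of a multiplier -/
def rotF (lam : ℂ) (h : ‖lam‖ = 1) (T : Mp p) : Mp p :=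
  ⟨mo lam h * T.1 * mo lam⁻¹ (inv_norm h), by
    refine (Subalgebra.mem_centralizer_iff ℂ).2 ?_
    intro g hg
    rw [Set.mem_singleton_iff] at hg
    rw [hg]
    have h1 := sh_mo (p := p) h 1
    have h2 := sh_mo (p := p) (inv_norm h) 1
    have h3 : (mo lam⁻¹ (inv_norm h) * sh p 1 : El p →L[ℂ] El p) = lam ^ (-1 : ℤ) • (sh p 1 * mo lam⁻¹ (inv_norm h)) := by
      rw [h2, smul_smul, ← mul_zpow, mul_inv_cancel₀ (ne_of_norm h), one_zpow, one_smul]
    calc sh p 1 * (mo lam h * T.1 * mo lam⁻¹ (inv_norm h))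
        = (sh p 1 * mo lam h) * T.1 * mo lam⁻¹ (inv_norm h) := by simp only [mul_assoc]
      _ = lam ^ (-1 : ℤ) • (mo lam h * (sh p 1 * T.1) * mo lam⁻¹ (inv_norm h)) := by
          rw [h1]; simp only [smul_mul_assoc, mul_assoc]
      _ = lam ^ (-1 : ℤ) • (mo lam h * (T.1 * sh p 1) * mo lam⁻¹ (inv_norm h)) := by
          rw [comm_sh]
      _ = mo lam h * T.1 * (lam ^ (-1 : ℤ) • (sh p 1 * mo lam⁻¹ (inv_norm h))) := by
          simp only [mul_smul_comm, mul_assoc]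
      _ = mo lam h * T.1 * mo lam⁻¹ (inv_norm h) * sh p 1 := by
          rw [← h3]; simp only [mul_assoc]⟩

lemma coef_rotF {lam : ℂ} (h : ‖lam‖ = 1) (T : Mp p) (n : ℤ) : coef (rotF lam h T) n = lam ^ n * coef T n := by
  show lam ^ n * (T.1 (mo lam⁻¹ (inv_norm h) (del 0))) n = lam ^ n * coef T n
  have h1 : mo lam⁻¹ (inv_norm h) (del 0) = (del 0 : El p) := by
    ext k
    rw [mo_apply]
    unfold del
    rw [lp.single_apply, Pi.single_apply]
    by_cases hk : k = 0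
    · rw [if_pos hk, hk, zpow_zero, one_mul]
    · rw [if_neg hk, mul_zero]
  rw [h1]
  rfl

/-- rotation as an algebra homomorphism -/
def rotA (lam : ℂ) (h : ‖lam‖ = 1) : Mp p →ₐ[ℂ] Mp p where
  toFun := rotF lam h
  map_one' := by
    apply Subtype.ext
    show mo lam h * 1 * mo lam⁻¹ (inv_norm h) = 1
    rw [mul_one]
    have := mo_inv (p := p) (inv_norm h)
    simp only [inv_inv] at this
    exact this
  map_mul' T S := by
    apply Subtype.ext
    show mo lam h * (T.1 * S.1) * mo lam⁻¹ (inv_norm h) =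
      (mo lam h * T.1 * mo lam⁻¹ (inv_norm h)) * (mo lam h * S.1 * mo lam⁻¹ (inv_norm h))
    have h1 := mo_inv (p := p) h
    calc mo lam h * (T.1 * S.1) * mo lam⁻¹ (inv_norm h)
        = mo lam h * T.1 * 1 * S.1 * mo lam⁻¹ (inv_norm h) := by simp only [mul_assoc, mul_one]
      _ = _ := by rw [← h1]; simp only [mul_assoc]
  map_zero' := by
    apply Subtype.ext
    show mo lam h * 0 * mo lam⁻¹ (inv_norm h) = 0
    simp
  map_add' T S := by
    apply Subtype.ext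
    show mo lam h * (T.1 + S.1) * mo lam⁻¹ (inv_norm h) =
      mo lam h * T.1 * mo lam⁻¹ (inv_norm h) + mo lam h * S.1 * mo lam⁻¹ (inv_norm h)
    rw [mul_add, add_mul]
  commutes' c := by
    apply Subtype.ext
    show mo lam h * (algebraMap ℂ (El p →L[ℂ] El p) c) * mo lam⁻¹ (inv_norm h) = algebraMap ℂ (El p →L[ℂ] El p) c
    rw [← Algebra.commutes, mul_assoc]
    have := mo_inv (p := p) (inv_norm h)
    simp only [inv_inv] at this
    rw [this, mul_one]

lemma rotA_apply (lam : ℂ) (h : ‖lam‖ = 1) (T : Mp p) : rotA lam h T = rotF lam h T := rfl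

lemma coef_rotA {lam : ℂ} (h : ‖lam‖ = 1) (T : Mp p) (n : ℤ) : coef (rotA lam h T) n = lam ^ n * coef T n :=
  coef_rotF h T n

lemma rotA_cont (lam : ℂ) (h : ‖lam‖ = 1) : Continuous (rotA lam h : Mp p → Mp p) := by
  apply Continuous.subtype_mk
  show Continuous (fun T : Mp p => mo lam h * T.1 * mo lam⁻¹ (inv_norm h))
  exact (continuous_const.mul continuous_subtype_val).mul continuous_const

lemma rotA_analytic {lam : ℂ} (h : ‖lam‖ = 1) {T : Mp p} (hT : IsAnalytic T) : IsAnalytic (rotA lam h T) := by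
  intro n hn
  rw [coef_rotA, hT n hn, mul_zero]

lemma rotA_zM (hp : p ≠ ⊤) {lam : ℂ} (h : ‖lam‖ = 1) (k : ℤ) : rotA lam h (zM k : Mp p) = lam ^ k • zM k := by
  apply eq_of_coef hp
  intro n
  rw [coef_rotA, coef_smul, coef_zM]
  split_ifs with h1
  · rw [h1]
  · rw [mul_zero, mul_zero]

lemma rotA_inv (hp : p ≠ ⊤) {lam : ℂ} (h : ‖lam‖ = 1) (T : Mp p) :
    rotA lam⁻¹ (inv_norm h) (rotA lam h T) = T := by
  apply eq_of_coef hp
  intro n
  rw [coef_rotA, coef_rotA, ← mul_assoc, ← mul_zpow, inv_mul_cancel₀ (ne_of_norm h), one_zpow, one_mul]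

lemma rotA_Sa (hp : p ≠ ⊤) {lam : ℂ} (h : ‖lam‖ = 1) {T : Mp p} (hT : T ∈ Sa p) : rotA lam h T ∈ Sa p := by
  have h1 : Algebra.adjoin ℂ ({T : Mp p | IsAnalytic T} ∪ {zM (-1)}) ≤ (Sa p).comap (rotA lam h) := by
    apply Algebra.adjoin_le
    rintro x (hx | hx)
    · exact analytic_mem_Sa (rotA_analytic h hx)
    · rw [Set.mem_singleton_iff] at hx
      rw [hx]
      show rotA lam h (zM (-1)) ∈ Sa p
      rw [rotA_zM hp h]
      exact (Sa p).smul_mem (zM_mem_Sa _) _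
  have h2 : IsClosed (((Sa p).comap (rotA lam h) : Subalgebra ℂ (Mp p)) : Set (Mp p)) :=
    Sa_closed.preimage (rotA_cont lam h)
  exact Subalgebra.topologicalClosure_minimal h1 h2 hT

/-- the theorem at an arbitrary point -/
theorem at_point (hp1 : 1 < p) (hp : p ≠ ⊤) (m₁ m₂ : Mp p →ₐ[ℂ] ℂ) (hA : ∀ T : Mp p, IsAnalytic T → m₁ T = m₂ T)
    (T : Mp p) {ε : ℝ} (hε : 0 < ε)
    (hT : ∀ μ : ℂ, ‖μ‖ = 1 → μ ≠ m₁ (zM 1) → ‖μ - m₁ (zM 1)‖ < ε → RegularAt T μ) : m₁ T = m₂ T := by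
  have hp1' : 1 < p.toReal := by
    have := (ENNReal.toReal_lt_toReal ENNReal.one_ne_top hp).2 hp1
    simpa using this
  set lam := m₁ (zM 1) with hlam
  have h0 : m₁ (zM 1) * m₁ (zM (-1)) = 1 := by
    rw [← map_mul, zM_mul, add_neg_cancel, zM_zero, map_one]
  have hle : ∀ k, ‖m₁ (zM k)‖ ≤ 1 := by
    intro k
    have h3 : ‖m₁ (zM k)‖ ≤ ‖(zM k : Mp p)‖ * ‖(1 : Mp p)‖ := AlgHom.norm_apply_le_self_mul_norm_one m₁ (zM k)
    have h4 : ‖(1 : Mp p)‖ ≤ 1 := by rw [← zM_zero]; exact norm_zM 0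
    calc ‖m₁ (zM k)‖ ≤ ‖(zM k : Mp p)‖ * ‖(1 : Mp p)‖ := h3
      _ ≤ 1 * 1 := mul_le_mul (norm_zM k) h4 (norm_nonneg _) zero_le_one
      _ = 1 := one_mul 1
  have h : ‖lam‖ = 1 := by
    apply le_antisymm (hle 1)
    have h1 : m₁ (zM 1) ≠ 0 := left_ne_zero_of_mul_eq_one h0
    have h2 : m₁ (zM (-1)) = (m₁ (zM 1))⁻¹ := eq_inv_of_mul_eq_one_right h0
    have h3 := hle (-1)
    rw [h2, norm_inv] at h3
    exact (inv_le_one₀ (norm_pos_iff.2 h1)).1 h3
  -- the rotated characters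
  set m₁' : Mp p →ₐ[ℂ] ℂ := m₁.comp (rotA lam⁻¹ (inv_norm h)) with hm1'
  set m₂' : Mp p →ₐ[ℂ] ℂ := m₂.comp (rotA lam⁻¹ (inv_norm h)) with hm2'
  have hA' : ∀ S : Mp p, IsAnalytic S → m₁' S = m₂' S := fun S hS => hA _ (rotA_analytic _ hS)
  have hm : m₁' (zM 1) = 1 := by
    show m₁ (rotA lam⁻¹ (inv_norm h) (zM 1)) = 1
    rw [rotA_zM hp, map_smul, smul_eq_mul, zpow_one, ← hlam, inv_mul_cancel₀ (ne_of_norm h)]
  have e1 : m₁' (rotA lam h T) = m₁ T := by
    show m₁ (rotA lam⁻¹ (inv_norm h) (rotA lam h T)) = m₁ T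
    rw [rotA_inv hp]
  have e2 : m₂' (rotA lam h T) = m₂ T := by
    show m₂ (rotA lam⁻¹ (inv_norm h) (rotA lam h T)) = m₂ T
    rw [rotA_inv hp]
  rw [← e1, ← e2]
  set a0 : ℝ := min (1 / 8) (ε / 16) with ha0
  have ha0p : 0 < a0 := lt_min (by norm_num) (by positivity)
  apply core hp hp1' hA' hm (rotA lam h T) ha0p (min_le_left _ _)
  intro a b hb hba ha
  have ha8 : a ≤ 1 / 8 := ha.trans (min_le_left _ _)
  have haε : a ≤ ε / 16 := ha.trans (min_le_right _ _)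
  apply local_mem hp (rotA lam h T) hb hba ha8
  intro x hx1 hx2
  -- the point `μ = lam * ee x`
  have hx0 : 0 < |x| := lt_of_lt_of_le hb hx1
  have hμ1 : ‖lam * ee x‖ = 1 := by rw [norm_mul, h, norm_ee, one_mul]
  have hμ2 : lam * ee x ≠ lam := by
    intro hcon
    have h1 : ee x = 1 := by
      have := mul_left_cancel₀ (ne_of_norm h) (show lam * ee x = lam * 1 by rw [hcon, mul_one])
      exact this
    unfold ee at h1
    rw [Complex.exp_eq_one_iff] at h1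
    obtain ⟨n, hn⟩ := h1
    have h2 : (x : ℂ) = n := by
      have h3 : (2 * (Real.pi : ℂ) * Complex.I) ≠ 0 := Complex.two_pi_I_ne_zero
      apply mul_left_cancel₀ h3
      linear_combination hn
    have h3 : x = n := by exact_mod_cast h2
    rw [h3] at hx0 hx2
    have h4 : n ≠ 0 := by rintro rfl; simp at hx0
    have h5 : (1 : ℤ) ≤ |n| := Int.one_le_abs h4
    have h6 : (1 : ℝ) ≤ |(n : ℝ)| := by exact_mod_cast h5
    linarith
  have hμ3 : ‖lam * ee x - lam‖ < ε := by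
    have h1 : lam * ee x - lam = lam * (ee x - 1) := by ring
    rw [h1, norm_mul, h, one_mul]
    refine lt_of_le_of_lt (norm_ee_sub_one x) ?_
    have h2 : Real.pi < 3.15 := Real.pi_lt_d2
    have h3 : |x| ≤ ε / 8 := by linarith
    nlinarith [Real.pi_pos]
  obtain ⟨R, hR, hR0, hRT⟩ := hT _ hμ1 hμ2 hμ3
  refine ⟨rotA lam h R, ?_, ?_, ?_⟩
  · refine hR.congr ?_
    intro n
    rw [coef_rotA, norm_mod h]
  · intro hcon
    apply hR0
    rw [← hcon]
    congr 1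
    funext n
    rw [coef_rotA, mul_zpow]
    ring
  · rw [← map_mul]
    exact rotA_Sa hp h hRT

end

end Pool.Agent.MpA
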