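import Pool.Agent.MpA.Rot

set_option autoImplicit false

/-!
Checks of the definitions: finite singular sets, analytic multipliers, multipliers which are locally
given by absolutely convergent Fourier series.
-/

namespace Pool.Agent.MpA

open Filter Topology
open scoped ENNReal

noncomputable section

variable {p : ℝ≥0∞} [Fact (1 ≤ p)]

/-- a finite singular set gives isolated singularities -/
lemma isolated_of_finite {T : Mp p} (h : {μ : ℂ | ‖μ‖ = 1 ∧ ¬ RegularAt T μ}.Finite) (lam : ℂ) :
    IsolatedAt T lam := by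
  set F := {μ : ℂ | ‖μ‖ = 1 ∧ ¬ RegularAt T μ} with hF
  have h1 : (F \ {lam}).Finite := h.subset Set.diff_subset
  have h2 : IsClosed (F \ {lam}) := h1.isClosed
  have h3 : lam ∈ (F \ {lam})ᶜ := by simp
  obtain ⟨ε, hε, hb⟩ := Metric.isOpen_iff.1 h2.isOpen_compl lam h3
  refine ⟨ε, hε, fun μ hμ hne hd => ?_⟩
  by_contra hcon
  have h4 : μ ∈ Metric.ball lam ε := by rw [Metric.mem_ball, dist_eq_norm]; exact hd
  exact hb h4 ⟨⟨hμ, hcon⟩, hne⟩

lemma coef_one (n : ℤ) : coef (1 : Mp p) n = if n = 0 then 1 else 0 := by rw [← zM_zero, coef_zM]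

/-- elements of `Sa` are regular everywhere -/
lemma regular_of_Sa {T : Mp p} (hT : T ∈ Sa p) (μ : ℂ) : RegularAt T μ := by
  refine ⟨1, ?_, ?_, ?_⟩
  · apply summable_of_ne_finset_zero (s := {0})
    intro n hn
    rw [coef_one, if_neg (by simpa using hn), norm_zero]
  · have h1 : HasSum (fun n : ℤ => coef (1 : Mp p) n * μ ^ n) 1 := by
      have := hasSum_single (f := fun n : ℤ => coef (1 : Mp p) n * μ ^ n) 0 (by
        intro n hn
        rw [coef_one, if_neg hn, zero_mul])
      simpa [coef_one] using this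
    rw [h1.tsum_eq]; exact one_ne_zero
  · rw [one_mul]; exact hT

/-- `φ` is the symbol of `T` and coincides near `x0` with an absolutely convergent Fourier series:
then `T` is regular at `e(x0)`. -/
lemma regular_of_local (hp : p ≠ ⊤) (T : Mp p) {φ : ℝ → ℂ} (hφ : Measurable φ) {M : ℝ} (hM : ∀ x, ‖φ x‖ ≤ M)
    (hper : ∀ x, φ (x + 1) = φ x) (hT : ∀ n, coef T n = ft φ n) {r : ℤ → ℂ} (hr : Summable fun n => ‖r n‖)
    {x0 δ : ℝ} (hδ : 0 < δ) (hloc : ∀ y, |y - x0| < δ → φ y = sym r y) : RegularAt T (ee x0) := by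
  set a : ℝ := min (1 / 8) (δ / 4) with ha
  have ha0 : 0 < a := lt_min (by norm_num) (by positivity)
  have ha8 : a ≤ 1 / 8 := min_le_left _ _
  have haδ : a ≤ δ / 4 := min_le_right _ _
  set η : ℤ → ℂ := fun n => (P a n : ℂ) * ee (-(n * x0)) with hη
  have hηs : Summable fun n => ‖η n‖ := by
    refine (P_csum ha0 (by linarith)).congr ?_
    intro n; rw [hη]; simp only; rw [norm_mul, norm_ee, mul_one]
  have hηv : ∀ y, sym η y = sym (kP a) (y - x0) := by
    intro y
    unfold sym
    congr 1
    funext n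
    rw [hη]; simp only
    unfold kP
    rw [mul_assoc, ← ee_add]
    congr 2; ring
  have hperZ : ∀ (f : ℝ → ℂ), (∀ x, f (x + 1) = f x) → ∀ (k : ℤ) (x : ℝ), f (x + k) = f x := by
    intro f hf k x
    induction k using Int.induction_on with
    | zero => simp
    | succ k ih => push_cast at ih ⊢; rw [← add_assoc, hf]; exact ih
    | pred k ih =>
      push_cast at ih ⊢
      have := hf (x + (-(k : ℝ) - 1))
      rw [← this, ← ih]
      congr 1; ring
  have hprod : ∀ y, sym η y * φ y = sym η y * sym r y := by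
    intro y
    set k : ℤ := round (y - x0) with hk
    have h1 : |y - x0 - k| ≤ 1 / 2 := abs_sub_round _
    set y' : ℝ := y - k with hy'
    have hy : y = y' + k := by rw [hy']; ring
    have e1 : sym η y = sym η y' := by rw [hy]; exact hperZ _ (fun x => sym_add_one x) k y'
    have e2 : φ y = φ y' := by rw [hy]; exact hperZ _ hper k y'
    have e3 : sym r y = sym r y' := by rw [hy]; exact hperZ _ (fun x => sym_add_one x) k y'
    rw [e1, e2, e3]
    have h2 : |y' - x0| ≤ 1 / 2 := by
      rw [hy']
      rw [show y - k - x0 = y - x0 - k by ring]; exact h1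
    by_cases h3 : |y' - x0| < δ
    · rw [hloc y' h3]
    · rw [hηv, sym_kP ha0 (by linarith) h2, Psi_zero ha0 (by rw [not_lt] at h3; linarith)]
      simp
  refine ⟨cv η, ?_, ?_, ?_⟩
  · simpa only [coef_cv hηs] using hηs
  · simp only [coef_cv hηs]
    have h1 : (fun n : ℤ => η n * (ee x0) ^ n) = fun n : ℤ => (P a n : ℂ) * ee (n * 0) := by
      funext n
      rw [hη]; simp only
      have : (ee x0) ^ n = ee (n * x0) := by
        unfold ee
        rw [← Complex.exp_int_mul]
        congr 1
        push_cast; ring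
      rw [this, mul_assoc, ← ee_add, mul_zero]
      congr 2; ring
    rw [h1, (P_sym ha0 (by linarith) (x := 0) (by simp)).tsum_eq, Psi_one ha0 (by simpa using ha0.le)]
    simp
  · have h1 : (cv η * T : Mp p) = cv η * cv r := by
      apply eq_of_coef hp
      intro n
      have h2 := cv_mul_hasSum hηs T n
      simp only [hT] at h2
      have h3 := ft_mul' hηs hφ hM n
      have h4 := cv_mul_hasSum hηs (cv r : Mp p) n
      simp only [coef_cv hr] at h4
      have h5 := ft_mul hηs (continuous_sym hr) (sym_norm_le hr) n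
      simp only [ft_sym hr] at h5
      rw [h2.unique h3, h4.unique h5]
      congr 1
      funext y
      exact hprod y
    rw [h1]
    exact Wc_le_Sa ((Wc p).mul_mem (cv_mem _ hηs) (cv_mem _ hr))

end

end Pool.Agent.MpA
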