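import Pool.Agent.MpA.Alg

set_option autoImplicit false

/-!
Modulating multipliers: strong limits, products.
-/

namespace Pool.Agent.MpA

open Filter Topology
open scoped ENNReal

noncomputable section

variable {p : ℝ≥0∞} [Fact (1 ≤ p)]

/-- the multiplier `Ψ_a` -/
def PsiM (a : ℝ) : Mp p := cv (fun n => (P a n : ℂ))

lemma P_csum {a : ℝ} (ha : 0 < a) (ha2 : a ≤ 1 / 4) : Summable (fun n => ‖(P a n : ℂ)‖) := by
  refine (P_summable ha ha2).congr ?_
  intro n; rw [Complex.norm_real, Real.norm_eq_abs]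

lemma coef_PsiM {a : ℝ} (ha : 0 < a) (ha2 : a ≤ 1 / 4) (n : ℤ) : coef (PsiM a : Mp p) n = P a n := by
  unfold PsiM
  rw [coef_cv (P_csum ha ha2)]

lemma PsiM_mem {a : ℝ} (ha : 0 < a) (ha2 : a ≤ 1 / 4) : (PsiM a : Mp p) ∈ Wc p := cv_mem _ (P_csum ha ha2)

lemma cv_pie (hp : p ≠ ⊤) {a b : ℝ} (ha : 0 < a) (ha2 : a ≤ 1 / 4) (hb : 0 < b) (hb2 : b ≤ 1 / 4) (r : ℤ) :
    (cv (pie a b r) : Mp p) = zM r * (PsiM a - PsiM b) := by
  apply eq_of_coef hp
  intro n
  rw [coef_cv (pie_summable ha ha2 hb hb2 r), coef_zM_mul, coef_sub, coef_PsiM ha ha2, coef_PsiM hb hb2]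
  unfold pie
  push_cast; ring

/-- size of `Ψ_a δ_0` in `ℓ^p` -/
lemma norm_PsiM_del (hp : p ≠ ⊤) (hp1 : 1 < p.toReal) {a : ℝ} (ha : 0 < a) (ha2 : a ≤ 1 / 4) :
    ‖(PsiM a : Mp p).1 (del 0)‖ ≤ ((5 * a) ^ (p.toReal - 1) * 3) ^ (1 / p.toReal) := by
  have hp0 := ptr hp
  apply lp.norm_le_of_forall_sum_le hp0 (by positivity)
  intro Y
  rw [← Real.rpow_mul (by positivity), one_div_mul_cancel hp0.ne', Real.rpow_one]
  refine le_trans (le_of_eq ?_) (P_lp ha ha2 hp1 Y)
  apply Finset.sum_congr rfl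
  intro n _
  rw [T_del, sub_zero, coef_PsiM ha ha2, Complex.norm_real, Real.norm_eq_abs]

variable {α β : ℕ → ℝ} {ρ : ℕ → ℤ}

lemma Sc.α_le (h : Sc α β ρ) (k : ℕ) : α k ≤ (1 / 8) ^ k := by
  induction k with
  | zero => have := h.le4 0; simp only [pow_zero]; linarith
  | succ k ih =>
    have h1 := h.c1 k
    have h2 := h.c2 k
    have h3 := h.αpos k
    rw [pow_succ]
    linarith

/-- partial sums as operators -/
def UM (α β : ℕ → ℝ) (ρ : ℕ → ℤ) (J : ℕ) : Mp p :=
  ∑ k ∈ Finset.range J, zM (ρ k) * (PsiM (α k) - PsiM (β k))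

lemma UM_eq (hp : p ≠ ⊤) (h : Sc α β ρ) (J : ℕ) : (UM α β ρ J : Mp p) = cv (ker α β ρ J) := by
  apply eq_of_coef hp
  intro n
  rw [coef_cv (ker_summable h J)]
  unfold UM ker
  rw [← coefL_apply, map_sum]
  apply Finset.sum_congr rfl
  intro k _
  rw [coefL_apply, ← cv_pie hp (h.αpos k) (h.le4 k) (h.pos k) (h.β4 k),
    coef_cv (pie_summable (h.αpos k) (h.le4 k) (h.pos k) (h.β4 k) _)]

lemma UM_norm (hp : p ≠ ⊤) (hp1 : 1 < p.toReal) (h : Sc α β ρ) (J : ℕ) :
    ‖(UM α β ρ J : Mp p)‖ ≤ (CC p.toReal 1400 1) ^ (1 / p.toReal) := by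
  apply norm_le_of_KB hp _ (CC_nonneg _ hp1)
  have h1 : coef (UM α β ρ J : Mp p) = ker α β ρ J := by
    funext n
    rw [UM_eq hp h, coef_cv (ker_summable h J)]
  rw [h1]
  exact ker_KB h J _ hp1

theorem UM_limit (hp : p ≠ ⊤) (hp1 : 1 < p.toReal) (h : Sc α β ρ) :
    ∃ u : Mp p, ∀ f : El p, Tendsto (fun J => (UM α β ρ J : Mp p).1 f) atTop (𝓝 (u.1 f)) := by
  have hp0 := ptr hp
  apply strong_limit hp _ (UM_norm hp hp1 h)
  -- summability of the increments on `δ_0`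
  set s : ℝ := (p.toReal - 1) * (1 / p.toReal) with hs
  have hs0 : 0 < s := by
    have : 0 < p.toReal - 1 := by linarith
    positivity
  set c : ℝ := (5 ^ (p.toReal - 1) * 3) ^ (1 / p.toReal) with hc
  have hc0 : 0 ≤ c := by positivity
  have hP : ∀ a : ℝ, 0 < a → a ≤ 1 / 4 → ‖(PsiM a : Mp p).1 (del 0)‖ ≤ c * a ^ s := by
    intro a ha ha2
    refine (norm_PsiM_del hp hp1 ha ha2).trans (le_of_eq ?_)
    rw [hc, hs, Real.rpow_mul ha.le, ← Real.mul_rpow (by positivity) (by positivity)]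
    congr 1
    rw [Real.mul_rpow (by norm_num) ha.le]
    ring
  have hgeo : Summable (fun k : ℕ => 2 * c * ((1 / 8 : ℝ) ^ s) ^ k) := by
    apply Summable.mul_left
    apply summable_geometric_of_lt_one (by positivity)
    exact Real.rpow_lt_one (by norm_num) (by norm_num) hs0
  apply Summable.of_nonneg_of_le (fun J => norm_nonneg _) _ hgeo
  intro J
  have h1 : (UM α β ρ (J + 1) : Mp p).1 (del 0) - (UM α β ρ J : Mp p).1 (del 0) =
      sh p (ρ J) ((PsiM (α J) : Mp p).1 (del 0) - (PsiM (β J) : Mp p).1 (del 0)) := by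
    unfold UM
    rw [Finset.sum_range_succ]
    show (∑ k ∈ Finset.range J, zM (ρ k) * (PsiM (α k) - PsiM (β k)) : Mp p).1 (del 0) +
      (zM (ρ J) * (PsiM (α J) - PsiM (β J)) : Mp p).1 (del 0) -
      (∑ k ∈ Finset.range J, zM (ρ k) * (PsiM (α k) - PsiM (β k)) : Mp p).1 (del 0) = _
    rw [add_sub_cancel_left]
    rfl
  rw [h1, norm_sh]
  refine (norm_sub_le _ _).trans ?_
  have h2 := hP (α J) (h.αpos J) (h.le4 J)
  have h3 := hP (β J) (h.pos J) (h.β4 J)
  have h4 : (α J) ^ s ≤ ((1 / 8 : ℝ) ^ s) ^ J := by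
    rw [Real.rpow_pow_comm (by norm_num : (0 : ℝ) ≤ 1 / 8) s J]
    exact Real.rpow_le_rpow (h.αpos J).le (h.α_le J) hs0.le
  have h5 : (β J) ^ s ≤ (α J) ^ s := by
    apply Real.rpow_le_rpow (h.pos J).le _ hs0.le
    have := h.c1 J; have := h.αpos J; linarith
  have h6 : c * (α J) ^ s ≤ c * ((1 / 8 : ℝ) ^ s) ^ J := by gcongr
  have h7 : c * (β J) ^ s ≤ c * ((1 / 8 : ℝ) ^ s) ^ J := by
    gcongr
    exact h5.trans h4
  linarith

/-! ### products of trapezoids -/

lemma cr0 {a b a' b' x : ℝ} (hb : 0 < b) (hba : b ≤ a) (hba' : b' ≤ a') (h : 2 * a ≤ b') :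
    (Psi a' x - Psi b' x) * (Psi a x - Psi b x) = 0 := by
  rcases le_total |x| (2 * a) with h1 | h1
  · rw [Psi_one (by linarith : 0 < a') (by linarith : |x| ≤ a'), Psi_one (by linarith : 0 < b') (by linarith)]
    ring
  · rw [Psi_zero (by linarith : 0 < a) h1, Psi_zero hb (by linarith)]
    ring

lemma cr2 {a b a' b' x : ℝ} (hb' : 0 < b') (hba : b ≤ a) (h1 : 2 * a ≤ a') (h2 : 2 * b' ≤ b) :
    (Psi a' x - Psi b' x) * (Psi a x - Psi b x) = Psi a x - Psi b x := by
  have hb : 0 < b := by linarith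
  have ha : 0 < a := by linarith
  rcases le_total |x| b with h3 | h3
  · rw [Psi_one hb h3, Psi_one ha (by linarith)]
    ring
  · rcases le_total |x| (2 * a) with h4 | h4
    · rw [Psi_one (by linarith : 0 < a') (by linarith : |x| ≤ a'), Psi_zero hb' (by linarith)]
      ring
    · rw [Psi_zero ha h4, Psi_zero hb (by linarith)]
      ring

variable {α' β' : ℕ → ℝ} {ρ' : ℕ → ℤ}

/-- product of the two families of partial sums -/
lemma VU_eq (hp : p ≠ ⊤) (h : Sc α β ρ) (h' : Sc α' β' ρ') (e1 : ∀ k, α' k = 2 * α k)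
    (e2 : ∀ k, β' k = β k / 2) (e3 : ∀ k, ρ' k = -ρ k) (hlac : ∀ k, α (k + 1) ≤ β k / 8) (J : ℕ) :
    (UM α' β' ρ' J * UM α β ρ J : Mp p) = ∑ k ∈ Finset.range J, (PsiM (α k) - PsiM (β k)) := by
  have hd : ∀ k l, k < l → α l ≤ β k / 8 := by
    intro k l hkl
    obtain ⟨m, rfl⟩ := Nat.exists_eq_add_of_lt hkl
    induction m with
    | zero => exact hlac k
    | succ m ih =>
      have h1 := ih (by omega)
      have h2 := hlac (k + m + 1)
      have h3 := h.c1 (k + m + 1)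
      have h4 := h.αpos (k + m + 1)
      rw [show k + (m + 1) + 1 = k + m + 1 + 1 by ring]
      linarith
  have e : (∑ k ∈ Finset.range J, (PsiM (α k) - PsiM (β k)) : Mp p) = UM α β (fun _ => 0) J := by
    unfold UM
    apply Finset.sum_congr rfl
    intro k _
    rw [zM_zero, one_mul]
  have h0 : Sc α β (fun _ => 0) := ⟨h.pos, h.le4, h.c1, h.c2, fun k => by simp⟩
  rw [e, UM_eq hp h, UM_eq hp h', UM_eq hp h0]
  apply cv_mul hp (ker_summable h' J) (ker_summable h J) (ker_summable h0 J)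
  intro x hx
  have hx' : |x| ≤ 1 / 2 := abs_le.2 hx
  rw [ker_sym h' J hx', ker_sym h J hx', ker_sym h0 J hx', Finset.sum_mul_sum]
  apply Finset.sum_congr rfl
  intro k hk
  rw [Finset.sum_eq_single k]
  · rw [e3, e1, e2]
    have h1 := cr2 (a := α k) (b := β k) (a' := 2 * α k) (b' := β k / 2) (x := x)
      (by have := h.pos k; linarith) (by have := h.c1 k; have := h.αpos k; linarith) le_rfl (by linarith)
    have h2 : ee (((-ρ k : ℤ) : ℝ) * x) * ee ((ρ k : ℝ) * x) = 1 := by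
      rw [← ee_add]; push_cast; rw [neg_mul, neg_add_cancel, ee_zero]
    have h3 : ee (((0 : ℤ) : ℝ) * x) = 1 := by rw [Int.cast_zero, zero_mul, ee_zero]
    rw [h3, one_mul]
    have h4 : ((Psi (2 * α k) x - Psi (β k / 2) x : ℝ) : ℂ) * ((Psi (α k) x - Psi (β k) x : ℝ) : ℂ) =
        ((Psi (α k) x - Psi (β k) x : ℝ) : ℂ) := by
      rw [← Complex.ofReal_mul, h1]
    linear_combination ((Psi (2 * α k) x - Psi (β k / 2) x : ℝ) : ℂ) *
      ((Psi (α k) x - Psi (β k) x : ℝ) : ℂ) * h2 + h4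
  · intro l hl hlk
    have h4 : (Psi (α' k) x - Psi (β' k) x) * (Psi (α l) x - Psi (β l) x) = 0 := by
      rw [e1, e2]
      rcases lt_or_gt_of_ne hlk with h5 | h5
      · -- l < k: second pair is coarser
        rw [mul_comm]
        apply cr0
        · have := h.pos k; linarith
        · have := h.c1 k; have := h.αpos k; linarith
        · have := h.c1 l; have := h.αpos l; linarith
        · have := hd l k h5
          have := h.pos l
          linarith
      · apply cr0 (h.pos l)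
        · have := h.c1 l; have := h.αpos l; linarith
        · have := h.c1 k; have := h.αpos k; linarith
        · have := hd k l h5
          have := h.pos k
          linarith
    have h5 : ((Psi (α' k) x - Psi (β' k) x : ℝ) : ℂ) * ((Psi (α l) x - Psi (β l) x : ℝ) : ℂ) = 0 := by
      rw [← Complex.ofReal_mul, h4, Complex.ofReal_zero]
    linear_combination (ee ((ρ' k : ℝ) * x) * ee ((ρ l : ℝ) * x)) * h5
  · intro hk'; exact absurd hk hk'

end

end Pool.Agent.MpA
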