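import Pool.Agent.MpA.CZ
import Pool.Agent.MpA.Marc

set_option autoImplicit false

/-!
Strong `(p,p)` bounds for convolution kernels on `ℤ` satisfying Hoermander's condition.
-/

namespace Pool.Agent.MpA

open Finset
open scoped BigOperators

noncomputable section

/-- the constant of the strong bound for `1 < p < 2` -/
def Cst (p A B : ℝ) : ℝ := 2 * (4 + 24 * B + 4 * A) * p / (p - 1) + 4 * B * p / (2 - p)

/-- extension by zero -/
def ext1 {N : ℕ} (e : Fin N → ℂ) (x : ℕ) : ℂ := if h : x < N then e ⟨x, h⟩ else 0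

lemma sum_ext1 {N : ℕ} (e : Fin N → ℂ) (g : ℂ → ℝ) :
    ∑ x ∈ range N, g (ext1 e x) = ∑ x : Fin N, g (e x) := by
  rw [Finset.sum_range]
  apply Finset.sum_congr rfl
  intro x _
  simp [ext1]

lemma TK_fin (K : ℤ → ℂ) (R : ℕ) (e : Fin (2 ^ R) → ℂ) (y : ℤ) :
    TK K R (ext1 e) y = ∑ x : Fin (2 ^ R), K (y - ((x : ℕ) : ℤ)) * e x := by
  unfold TK
  rw [Finset.sum_range]
  apply Finset.sum_congr rfl
  intro x _
  simp only [ext1, Fin.is_lt, dif_pos, Fin.eta]

/-- bound on `[0, 2^R)` -/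
theorem strong_root {K : ℤ → ℂ} {A B : ℝ} (hA0 : 0 ≤ A) (hB0 : 0 ≤ B) (hB : KB 2 B K) (hA : Horm A K)
    (p : ℝ) (hp : 1 < p) (hp2 : p < 2) (R : ℕ) (e : ℕ → ℂ) (Y : Finset ℤ) :
    ∑ y ∈ Y, ‖TK K R e y‖ ^ p ≤ Cst p A B * ∑ x ∈ range (2 ^ R), ‖e x‖ ^ p := by
  classical
  set T : (Fin (2 ^ R) → ℂ) → (Y → ℂ) := fun f y => ∑ x : Fin (2 ^ R), K ((y : ℤ) - ((x : ℕ) : ℤ)) * f x
    with hT
  have key := marcinkiewicz (ι := Fin (2 ^ R)) (κ := Y) (fun _ => 1) (fun _ => 1)
    (fun _ => by positivity) (fun _ => by positivity) T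
    (by intro f g; funext y; simp only [hT, Pi.add_apply, mul_add, Finset.sum_add_distrib])
    (4 + 24 * B + 4 * A) B (by positivity) hB0 ?_ ?_ p hp hp2 (fun x => e x)
  · simp only [one_mul] at key
    have e1 : ∑ y : Y, ‖T (fun x => e x) y‖ ^ p = ∑ y ∈ Y, ‖TK K R e y‖ ^ p := by
      rw [← Finset.sum_coe_sort Y]
      apply Finset.sum_congr rfl
      intro y _
      congr 2
      simp only [hT]
      unfold TK
      rw [Finset.sum_range]
    have e2 : ∑ x : Fin (2 ^ R), ‖e x‖ ^ p = ∑ x ∈ range (2 ^ R), ‖e x‖ ^ p := by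
      rw [Finset.sum_range]
    rw [e1, e2] at key
    exact key
  · intro f α hα
    have h1 := weak11 hA0 hB0 hB hA R (ext1 f) α hα Y
    rw [sum_ext1 f (fun z => ‖z‖)] at h1
    simp only [one_mul]
    refine le_trans (le_of_eq ?_) h1
    congr 1
    rw [← Finset.sum_coe_sort Y]
    apply Finset.sum_congr rfl
    intro y _
    simp only [TK_fin, hT]
  · intro f
    simp only [one_mul]
    have h1 := hB ((range (2 ^ R)).map Nat.castEmbedding) Y (fun z => ext1 f z.toNat)
    simp only [Finset.sum_map, Nat.castEmbedding_apply, Int.toNat_natCast, Real.rpow_two] at h1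
    rw [sum_ext1 f (fun z => ‖z‖ ^ 2)] at h1
    refine le_trans (le_of_eq ?_) h1
    rw [← Finset.sum_coe_sort Y]
    apply Finset.sum_congr rfl
    intro y _
    have h2 := TK_fin K R f y
    unfold TK at h2
    rw [h2]

/-- bound for all finite sets -/
theorem strong_lt_two {K : ℤ → ℂ} {A B : ℝ} (hA0 : 0 ≤ A) (hB0 : 0 ≤ B) (hB : KB 2 B K) (hA : Horm A K)
    (p : ℝ) (hp : 1 < p) (hp2 : p < 2) : KB p (Cst p A B) K := by
  intro X Y f
  -- translate `X` into `[0, 2^R)`
  obtain ⟨c, R, hc⟩ : ∃ (c : ℤ) (R : ℕ), ∀ x ∈ X, c ≤ x ∧ x < c + 2 ^ R := by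
    obtain ⟨N, hN⟩ : ∃ N : ℕ, ∀ x ∈ X, |x| ≤ N := by
      refine ⟨∑ x ∈ X, x.natAbs, ?_⟩
      intro x hx
      rw [Int.abs_eq_natAbs]
      exact_mod_cast Finset.single_le_sum (f := fun x : ℤ => x.natAbs) (fun _ _ => Nat.zero_le _) hx
    refine ⟨-N, 2 * N + 1, ?_⟩
    intro x hx
    have h1 := abs_le.1 (hN x hx)
    have h2 : ((2 * N + 1 : ℕ) : ℤ) < 2 ^ (2 * N + 1) := by exact_mod_cast Nat.lt_two_pow_self
    push_cast at h2
    constructor
    · exact h1.1
    · linarith [h1.2]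
  have h1 := strong_root hA0 hB0 hB hA p hp hp2 R (fun n => if c + n ∈ X then f (c + n) else 0)
    (Y.map (Equiv.subRight c).toEmbedding)
  have hbij : ∀ g : ℤ → ℝ, ∑ x ∈ range (2 ^ R), (if c + (x : ℤ) ∈ X then g (c + x) else 0) = ∑ x ∈ X, g x := by
    intro g
    rw [← Finset.sum_filter]
    apply Finset.sum_bij' (fun (n : ℕ) _ => c + (n : ℤ)) (fun (x : ℤ) _ => (x - c).toNat)
    · intro n hn; exact (mem_filter.1 hn).2
    · intro x hx
      have h2 := hc x hx
      have h3 : ((x - c).toNat : ℤ) = x - c := Int.toNat_of_nonneg (by linarith)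
      rw [mem_filter, mem_range]
      constructor
      · have : ((x - c).toNat : ℤ) < ((2 ^ R : ℕ) : ℤ) := by rw [h3]; push_cast; linarith
        exact_mod_cast this
      · rw [h3]; simpa using hx
    · intro n _; simp
    · intro x hx
      have h2 := hc x hx
      have h3 : ((x - c).toNat : ℤ) = x - c := Int.toNat_of_nonneg (by linarith)
      simp [h3]
    · intro n _; rfl
  have hbijc : ∀ g : ℤ → ℂ, ∑ x ∈ range (2 ^ R), (if c + (x : ℤ) ∈ X then g (c + x) else 0) = ∑ x ∈ X, g x := by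
    intro g
    rw [← Finset.sum_filter]
    apply Finset.sum_bij' (fun (n : ℕ) _ => c + (n : ℤ)) (fun (x : ℤ) _ => (x - c).toNat)
    · intro n hn; exact (mem_filter.1 hn).2
    · intro x hx
      have h2 := hc x hx
      have h3 : ((x - c).toNat : ℤ) = x - c := Int.toNat_of_nonneg (by linarith)
      rw [mem_filter, mem_range]
      constructor
      · have : ((x - c).toNat : ℤ) < ((2 ^ R : ℕ) : ℤ) := by rw [h3]; push_cast; linarith
        exact_mod_cast this
      · rw [h3]; simpa using hx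
    · intro n _; simp
    · intro x hx
      have h2 := hc x hx
      have h3 : ((x - c).toNat : ℤ) = x - c := Int.toNat_of_nonneg (by linarith)
      simp [h3]
    · intro n _; rfl
  have e1 : ∑ x ∈ range (2 ^ R), ‖(fun n : ℕ => if c + (n : ℤ) ∈ X then f (c + n) else 0) x‖ ^ p =
      ∑ x ∈ X, ‖f x‖ ^ p := by
    rw [← hbij (fun x => ‖f x‖ ^ p)]
    apply Finset.sum_congr rfl
    intro x _
    simp only
    split_ifs
    · rfl
    · rw [norm_zero, Real.zero_rpow (by linarith)]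
  have e2 : ∀ y : ℤ, TK K R (fun n : ℕ => if c + (n : ℤ) ∈ X then f (c + n) else 0) (y - c) =
      ∑ x ∈ X, K (y - x) * f x := by
    intro y
    rw [← hbijc (fun x => K (y - x) * f x)]
    unfold TK
    apply Finset.sum_congr rfl
    intro x _
    rw [show y - c - (x : ℤ) = y - (c + x) by ring]
    show K (y - (c + x)) * (if c + (x : ℤ) ∈ X then f (c + x) else 0) = _
    split_ifs <;> simp
  rw [e1, Finset.sum_map] at h1
  simp only [Equiv.coe_toEmbedding, Equiv.subRight_apply, e2] at h1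
  exact h1

/-- reflection of a kernel -/
def rfl' (K : ℤ → ℂ) : ℤ → ℂ := fun n => K (-n)

/-- duality -/
theorem KB_dual {K : ℤ → ℂ} {p q C : ℝ} (hpq : p.HolderConjugate q) (hC : 0 ≤ C) (h : KB q C K) :
    KB p (C ^ (p / q)) (rfl' K) := by
  intro X Y f
  set F : ℤ → ℂ := fun y => ∑ x ∈ X, rfl' K (y - x) * f x with hF
  set N : ℝ := ∑ y ∈ Y, ‖F y‖ ^ p with hN
  have hp1 : 1 < p := hpq.lt
  have hq1 : 1 < q := hpq.symm.lt
  have hN0 : 0 ≤ N := Finset.sum_nonneg fun _ _ => by positivity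
  set M : ℝ := ∑ x ∈ X, ‖f x‖ ^ p with hM
  have hM0 : 0 ≤ M := Finset.sum_nonneg fun _ _ => by positivity
  -- the dual sequence
  set g : ℤ → ℂ := fun y => (starRingEnd ℂ) (F y) * ((‖F y‖ ^ (p - 2) : ℝ) : ℂ) with hg
  have hFg : ∀ y, F y * g y = ((‖F y‖ ^ p : ℝ) : ℂ) := by
    intro y
    simp only [hg]
    by_cases h0 : F y = 0
    · rw [h0]; simp [Real.zero_rpow (show p ≠ 0 by linarith)]
    · rw [← mul_assoc, Complex.mul_conj, Complex.normSq_eq_norm_sq]
      rw [← Complex.ofReal_mul]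
      congr 1
      have hpos : 0 < ‖F y‖ := norm_pos_iff.2 h0
      rw [← Real.rpow_natCast, ← Real.rpow_add hpos]
      congr 1
      push_cast; ring
  have hgq : ∀ y, ‖g y‖ ^ q = ‖F y‖ ^ p := by
    intro y
    simp only [hg]
    rw [norm_mul, RCLike.norm_conj, Complex.norm_real, Real.norm_of_nonneg (by positivity)]
    by_cases h0 : F y = 0
    · rw [h0, norm_zero, zero_mul, Real.zero_rpow (by linarith), Real.zero_rpow (by linarith)]
    · have hpos : 0 < ‖F y‖ := norm_pos_iff.2 h0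
      have : ‖F y‖ * ‖F y‖ ^ (p - 2) = ‖F y‖ ^ (p - 1) := by
        nth_rw 1 [← Real.rpow_one ‖F y‖]
        rw [← Real.rpow_add hpos]; congr 1; ring
      rw [this, ← Real.rpow_mul hpos.le]
      congr 1
      rw [sub_mul, one_mul]; linarith [hpq.mul_eq_add]
  have h1 : (N : ℂ) = ∑ x ∈ X, f x * ∑ y ∈ Y, K (x - y) * g y := by
    rw [hN]
    push_cast
    calc ∑ y ∈ Y, (((‖F y‖ ^ p : ℝ)) : ℂ) = ∑ y ∈ Y, F y * g y := by
          apply Finset.sum_congr rfl; intro y _; rw [hFg]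
      _ = ∑ y ∈ Y, ∑ x ∈ X, rfl' K (y - x) * f x * g y := by
          apply Finset.sum_congr rfl; intro y _; simp only [hF]; rw [Finset.sum_mul]
      _ = ∑ x ∈ X, ∑ y ∈ Y, rfl' K (y - x) * f x * g y := Finset.sum_comm
      _ = ∑ x ∈ X, f x * ∑ y ∈ Y, K (x - y) * g y := by
          apply Finset.sum_congr rfl; intro x _
          rw [Finset.mul_sum]
          apply Finset.sum_congr rfl; intro y _
          unfold rfl'
          rw [neg_sub]; ring_nf
  have h2 : N ≤ ∑ x ∈ X, ‖f x‖ * ‖∑ y ∈ Y, K (x - y) * g y‖ := by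
    have h3 : N = ‖(N : ℂ)‖ := by rw [Complex.norm_real, Real.norm_of_nonneg hN0]
    rw [h3, h1]
    refine (norm_sum_le _ _).trans (le_of_eq ?_)
    apply Finset.sum_congr rfl; intro x _; rw [norm_mul]
  have h3 : ∑ x ∈ X, ‖f x‖ * ‖∑ y ∈ Y, K (x - y) * g y‖ ≤
      M ^ (1 / p) * (∑ x ∈ X, ‖∑ y ∈ Y, K (x - y) * g y‖ ^ q) ^ (1 / q) := by
    have := Real.inner_le_Lp_mul_Lq X (fun x => ‖f x‖) (fun x => ‖∑ y ∈ Y, K (x - y) * g y‖) hpq
    simpa using this
  have h4 : ∑ x ∈ X, ‖∑ y ∈ Y, K (x - y) * g y‖ ^ q ≤ C * N := by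
    have := h Y X g
    refine this.trans (le_of_eq ?_)
    rw [hN]; congr 1
    apply Finset.sum_congr rfl; intro y _; rw [hgq]
  have h5 : N ≤ M ^ (1 / p) * (C * N) ^ (1 / q) := by
    refine h2.trans (h3.trans ?_)
    gcongr
  have hgoal : N ≤ C ^ (p / q) * M := by
    rcases hN0.eq_or_lt with h0 | hpos
    · rw [← h0]; positivity
    · rw [Real.mul_rpow hC hN0] at h5
      have h6 : N ^ (1 / p) ≤ M ^ (1 / p) * C ^ (1 / q) := by
        have h7 : N ^ (1 / p) * N ^ (1 / q) = N := by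
          rw [← Real.rpow_add hpos, one_div, one_div, hpq.inv_add_inv_eq_one, Real.rpow_one]
        have h8 : 0 < N ^ (1 / q) := by positivity
        have h9 : N ^ (1 / p) * N ^ (1 / q) ≤ (M ^ (1 / p) * C ^ (1 / q)) * N ^ (1 / q) := by
          rw [h7]; linarith
        exact le_of_mul_le_mul_right h9 h8
      have h10 : (N ^ (1 / p)) ^ p ≤ (M ^ (1 / p) * C ^ (1 / q)) ^ p := by
        apply Real.rpow_le_rpow (by positivity) h6 (by linarith)
      rw [← Real.rpow_mul hN0, one_div_mul_cancel (by linarith), Real.rpow_one,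
        Real.mul_rpow (by positivity) (by positivity), ← Real.rpow_mul hM0,
        one_div_mul_cancel (by linarith), Real.rpow_one, ← Real.rpow_mul hC] at h10
      rw [show p / q = 1 / q * p by ring]
      linarith
  exact hgoal

lemma Horm_rfl {A : ℝ} {K : ℤ → ℂ} (h : Horm A K) : Horm A (rfl' K) := by
  intro d Y hY
  have h1 := h (-d) (Y.map (Equiv.neg ℤ).toEmbedding) (by
    intro y hy
    rw [Finset.mem_map_equiv] at hy
    have := hY _ hy
    simpa using this)
  rw [Finset.sum_map] at h1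
  refine le_trans (le_of_eq ?_) h1
  apply Finset.sum_congr rfl
  intro y _
  unfold rfl'
  simp only [Equiv.coe_toEmbedding, Equiv.neg_apply]
  congr 2
  congr 1
  ring

lemma rfl_rfl (K : ℤ → ℂ) : rfl' (rfl' K) = K := by
  funext n; simp [rfl']

/-- the constant, all `p` -/
def CC (p A B : ℝ) : ℝ :=
  if p < 2 then Cst p A B else if p = 2 then B else (Cst (p / (p - 1)) A B) ^ (p / (p / (p - 1)))

theorem strong_all {K : ℤ → ℂ} {A B : ℝ} (hA0 : 0 ≤ A) (hB0 : 0 ≤ B) (hB : KB 2 B K) (hA : Horm A K)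
    (p : ℝ) (hp : 1 < p) : KB p (CC p A B) K := by
  unfold CC
  split_ifs with h1 h2
  · exact strong_lt_two hA0 hB0 hB hA p hp h1
  · rw [h2]; exact hB
  · have h3 : 2 < p := lt_of_le_of_ne (not_lt.1 h1) (Ne.symm h2)
    set q := p / (p - 1) with hq
    have hpq : p.HolderConjugate q := Real.HolderConjugate.conjExponent hp
    have hq1 : 1 < q := hpq.symm.lt
    have hq2 : q < 2 := by
      rw [hq, div_lt_iff₀ (by linarith)]; linarith
    have hB' : KB 2 B (rfl' K) := by
      have h4 : (2 : ℝ).HolderConjugate 2 := by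
        have := Real.HolderConjugate.conjExponent (show (1 : ℝ) < 2 by norm_num)
        have h5 : (2 : ℝ).conjExponent = 2 := by unfold Real.conjExponent; norm_num
        rwa [h5] at this
      have := KB_dual h4 hB0 hB
      simpa using this
    have hst := strong_lt_two hA0 hB0 hB' (Horm_rfl hA) q hq1 hq2
    have hCst : 0 ≤ Cst q A B := by
      unfold Cst
      have h5 : 0 < q - 1 := by linarith
      have h6 : 0 < 2 - q := by linarith
      positivity
    have := KB_dual hpq hCst hst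
    rw [rfl_rfl] at this
    exact this

end

end Pool.Agent.MpA
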