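import Pool.Agent.MpA.Tri

set_option autoImplicit false

/-!
The trapezoid kernel `P a`, Hoermander's condition for lacunary sums of translates.
-/

namespace Pool.Agent.MpA

open Finset MeasureTheory
open scoped BigOperators

noncomputable section

/-- tail of `∑ 1/s²` over integers to the right -/
lemma tail_right (z D : ℝ) (hD : 1 ≤ D) (S : Finset ℤ) (hS : ∀ u ∈ S, D ≤ (u : ℝ) - z) :
    ∑ u ∈ S, 1 / ((u : ℝ) - z) ^ 2 ≤ 2 / D := by
  -- map `u` to `u - u0`, `u0 = ⌈z + D⌉`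
  set u0 : ℤ := ⌈z + D⌉ with hu0
  have hu0' : z + D ≤ (u0 : ℝ) := Int.le_ceil _
  have hge : ∀ u ∈ S, u0 ≤ u := by
    intro u hu
    apply Int.ceil_le.2
    linarith [hS u hu]
  obtain ⟨K, hK⟩ : ∃ K : ℕ, ∀ u ∈ S, (u - u0).toNat < K := by
    refine ⟨(S.sup fun u => (u - u0).toNat) + 1, fun u hu => ?_⟩
    exact Nat.lt_succ_of_le (Finset.le_sup (f := fun u => (u - u0).toNat) hu)
  have h1 : ∑ u ∈ S, 1 / ((u : ℝ) - z) ^ 2 ≤ ∑ n ∈ range K, 1 / (((u0 : ℝ) + n) - z) ^ 2 := by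
    have : ∑ u ∈ S, 1 / ((u : ℝ) - z) ^ 2 =
        ∑ n ∈ S.image (fun u => (u - u0).toNat), 1 / (((u0 : ℝ) + n) - z) ^ 2 := by
      rw [Finset.sum_image]
      · apply Finset.sum_congr rfl
        intro u hu
        have h2 : (((u - u0).toNat : ℤ) : ℝ) = ((u - u0 : ℤ) : ℝ) := by
          rw [Int.toNat_of_nonneg (by linarith [hge u hu])]
        push_cast at h2
        rw [h2]; ring_nf
      · intro u hu v hv huv
        have := hge u hu
        have := hge v hv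
        simp only at huv
        omega
    rw [this]
    apply Finset.sum_le_sum_of_subset_of_nonneg
    · intro n hn
      obtain ⟨u, hu, rfl⟩ := Finset.mem_image.1 hn
      exact Finset.mem_range.2 (hK u hu)
    · intro _ _ _; positivity
  refine h1.trans ?_
  have h3 : ∀ K : ℕ, ∑ n ∈ range K, 1 / (((u0 : ℝ) + n) - z) ^ 2 ≤
      1 / ((u0 : ℝ) - z - 1 / 2) - 1 / ((u0 : ℝ) + K - z - 1 / 2) := by
    intro K
    induction K with
    | zero => simp
    | succ K ih =>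
      rw [Finset.sum_range_succ]
      have hK0 : (0 : ℝ) ≤ K := Nat.cast_nonneg K
      have hs : 1 ≤ (u0 : ℝ) + K - z := by linarith
      set s := (u0 : ℝ) + K - z with hs'
      have h4 : 1 / s ^ 2 ≤ 1 / (s - 1 / 2) - 1 / (s + 1 / 2) := by
        rw [div_sub_div _ _ (by linarith) (by linarith), div_le_div_iff₀ (by positivity)]
        · nlinarith
        · have : 0 < s - 1 / 2 := by linarith
          positivity
      have h5 : (u0 : ℝ) + ((K + 1 : ℕ) : ℝ) - z - 1 / 2 = s + 1 / 2 := by push_cast; rw [hs']; ring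
      rw [h5]
      linarith
  refine (h3 K).trans ?_
  have hK0 : (0 : ℝ) ≤ K := Nat.cast_nonneg K
  have h6 : 0 ≤ 1 / ((u0 : ℝ) + K - z - 1 / 2) := by
    apply div_nonneg zero_le_one; linarith
  have h7 : 1 / ((u0 : ℝ) - z - 1 / 2) ≤ 2 / D := by
    rw [div_le_div_iff₀ (by linarith) (by linarith)]; linarith
  linarith

lemma tail_both (z D : ℝ) (hD : 1 ≤ D) (S : Finset ℤ) (hS : ∀ u ∈ S, D ≤ |(u : ℝ) - z|) :
    ∑ u ∈ S, 1 / ((u : ℝ) - z) ^ 2 ≤ 4 / D := by
  rw [← Finset.sum_filter_add_sum_filter_not S (fun u : ℤ => z ≤ (u : ℝ))]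
  have h1 := tail_right z D hD (S.filter (fun u : ℤ => z ≤ (u : ℝ))) (by
    intro u hu
    rw [mem_filter] at hu
    have := hS u hu.1
    rwa [abs_of_nonneg (by linarith [hu.2])] at this)
  have h2 := tail_right (-z) D hD ((S.filter (fun u : ℤ => ¬ z ≤ (u : ℝ))).image (fun u => -u)) (by
    intro u hu
    obtain ⟨v, hv, rfl⟩ := Finset.mem_image.1 hu
    rw [mem_filter] at hv
    have := hS v hv.1
    rw [abs_of_nonpos (by linarith [not_le.1 hv.2])] at this
    push_cast; linarith)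
  rw [Finset.sum_image (by intro a _ b _ h; simpa using h)] at h2
  have h3 : ∀ u ∈ S.filter (fun u : ℤ => ¬ z ≤ (u : ℝ)), 1 / (((-u : ℤ) : ℝ) - -z) ^ 2 = 1 / ((u : ℝ) - z) ^ 2 := by
    intro u _
    congr 1; push_cast; ring
  rw [Finset.sum_congr rfl h3] at h2
  have h4 : (4 : ℝ) / D = 2 / D + 2 / D := by ring
  linarith

lemma geom_inj_le (r : ℝ) (hr0 : 0 ≤ r) (hr1 : r < 1) (S : Finset ℕ) (g : ℕ → ℕ)
    (hg : Set.InjOn g S) : ∑ k ∈ S, r ^ g k ≤ (1 - r)⁻¹ := by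
  rw [← Finset.sum_image (f := fun n => r ^ n) hg]
  exact sum_le_hasSum _ (fun i _ => by positivity) (hasSum_geometric_of_lt_one hr0 hr1)


/-- trapezoid kernel -/
def P (a : ℝ) (n : ℤ) : ℝ := 2 * F (2 * a) n - F a n

/-- trapezoid function: `1` for `|x| ≤ a`, `0` for `2 a ≤ |x|` -/
def Psi (a x : ℝ) : ℝ := 2 * tri (2 * a) x - tri a x

lemma tri_eq {b : ℝ} (hb : 0 < b) (x : ℝ) : tri b x = max 0 (1 - |x| / b) := by
  unfold tri
  rcases le_or_gt b |x| with h | h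
  · rw [max_eq_left (by rw [sub_nonpos, le_div_iff₀ hb]; linarith)]
    rw [div_eq_zero_iff]
    left
    rcases le_abs.1 h with h1 | h1
    · rw [abs_of_nonneg (by linarith : 0 ≤ x + b), abs_of_nonneg (by linarith : 0 ≤ x - b),
        abs_of_nonneg (by linarith : 0 ≤ x)]
      ring
    · rw [abs_of_nonpos (by linarith : x + b ≤ 0), abs_of_nonpos (by linarith : x - b ≤ 0),
        abs_of_nonpos (by linarith : x ≤ 0)]
      ring
  · rw [max_eq_right (by rw [sub_nonneg, div_le_one hb]; exact h.le)]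
    have h1 := abs_lt.1 h
    rw [abs_of_nonneg (by linarith [h1.1] : 0 ≤ x + b), abs_of_nonpos (by linarith [h1.2] : x - b ≤ 0)]
    field_simp
    ring

lemma Psi_one {a : ℝ} (ha : 0 < a) {x : ℝ} (hx : |x| ≤ a) : Psi a x = 1 := by
  unfold Psi
  rw [tri_eq (by linarith), tri_eq ha, max_eq_right, max_eq_right]
  · field_simp; ring
  · rw [sub_nonneg, div_le_one ha]; exact hx
  · rw [sub_nonneg, div_le_one (by linarith)]; linarith

lemma Psi_zero {a : ℝ} (ha : 0 < a) {x : ℝ} (hx : 2 * a ≤ |x|) : Psi a x = 0 := by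
  unfold Psi
  rw [tri_eq (by linarith), tri_eq ha, max_eq_left, max_eq_left]
  · ring
  · rw [sub_nonpos, le_div_iff₀ ha]; linarith
  · rw [sub_nonpos, le_div_iff₀ (by linarith)]; linarith

lemma Psi_mid {a : ℝ} (ha : 0 < a) {x : ℝ} (hx : a ≤ |x|) (hx2 : |x| ≤ 2 * a) : Psi a x = 2 - |x| / a := by
  unfold Psi
  rw [tri_eq (by linarith), tri_eq ha, max_eq_right, max_eq_left]
  · field_simp; ring
  · rw [sub_nonpos, le_div_iff₀ ha]; linarith
  · rw [sub_nonneg, div_le_one (by linarith)]; exact hx2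

lemma Psi_nonneg {a : ℝ} (ha : 0 < a) (x : ℝ) : 0 ≤ Psi a x := by
  rcases le_total |x| a with h | h
  · rw [Psi_one ha h]; exact zero_le_one
  · rcases le_total |x| (2 * a) with h2 | h2
    · rw [Psi_mid ha h h2, sub_nonneg, div_le_iff₀ ha]; exact h2
    · rw [Psi_zero ha h2]

lemma Psi_le_one {a : ℝ} (ha : 0 < a) (x : ℝ) : Psi a x ≤ 1 := by
  rcases le_total |x| a with h | h
  · rw [Psi_one ha h]
  · rcases le_total |x| (2 * a) with h2 | h2
    · rw [Psi_mid ha h h2]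
      have : 1 ≤ |x| / a := by rw [le_div_iff₀ ha]; linarith
      linarith
    · rw [Psi_zero ha h2]; exact zero_le_one

lemma Psi_mono {a a' : ℝ} (ha : 0 < a) (h : a ≤ a') (x : ℝ) : Psi a x ≤ Psi a' x := by
  have ha' : 0 < a' := by linarith
  rcases le_total |x| a' with h1 | h1
  · rw [Psi_one ha' h1]; exact Psi_le_one ha x
  · rcases le_total |x| (2 * a) with h2 | h2
    · rw [Psi_mid ha (by linarith) h2, Psi_mid ha' h1 (by linarith)]
      have : |x| / a' ≤ |x| / a := by gcongr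
      linarith
    · rw [Psi_zero ha h2]; exact Psi_nonneg ha' x

lemma P_sym {a : ℝ} (ha : 0 < a) (ha2 : a ≤ 1 / 4) {x : ℝ} (hx : |x| ≤ 1 / 2) :
    HasSum (fun n : ℤ => (P a n : ℂ) * ee (n * x)) (Psi a x : ℂ) := by
  have h1 := (F_sym (b := 2 * a) (by linarith) (by linarith) hx).mul_left 2
  have h2 := F_sym (b := a) (by linarith) (by linarith) hx
  have h3 := h1.sub h2
  have e1 : (2 * (tri (2 * a) x : ℂ) - (tri a x : ℂ)) = (Psi a x : ℂ) := by unfold Psi; push_cast; ring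
  have e2 : (fun n : ℤ => 2 * ((F (2 * a) n : ℂ) * ee (n * x)) - (F a n : ℂ) * ee (n * x)) =
      fun n : ℤ => (P a n : ℂ) * ee (n * x) := by
    funext n; unfold P; push_cast; ring
  rw [e1, e2] at h3
  exact h3

lemma P_abs_le {a : ℝ} (ha : 0 < a) (n : ℤ) : |P a n| ≤ 2 * F (2 * a) n + F a n := by
  unfold P
  refine (abs_sub _ _).trans (le_of_eq ?_)
  rw [abs_of_nonneg (by have := F_nonneg (b := 2 * a) (by linarith) n; positivity),
    abs_of_nonneg (F_nonneg ha n)]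

lemma P_abs_le5 {a : ℝ} (ha : 0 < a) (n : ℤ) : |P a n| ≤ 5 * a := by
  have := P_abs_le ha n
  have h1 := F_le (b := 2 * a) (by linarith) n
  have h2 := F_le ha n
  linarith

lemma P_summable {a : ℝ} (ha : 0 < a) (ha2 : a ≤ 1 / 4) : Summable (fun n => |P a n|) := by
  apply Summable.of_nonneg_of_le (fun n => abs_nonneg _) (P_abs_le ha)
  exact ((F_summable (by linarith) (by linarith)).mul_left 2).add (F_summable ha (by linarith))

lemma P_sum_le {a : ℝ} (ha : 0 < a) (ha2 : a ≤ 1 / 4) (Y : Finset ℤ) : ∑ n ∈ Y, |P a n| ≤ 3 := by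
  calc ∑ n ∈ Y, |P a n| ≤ ∑ n ∈ Y, (2 * F (2 * a) n + F a n) := Finset.sum_le_sum fun n _ => P_abs_le ha n
    _ = 2 * ∑ n ∈ Y, F (2 * a) n + ∑ n ∈ Y, F a n := by
        rw [Finset.sum_add_distrib, Finset.mul_sum]
    _ ≤ 2 * 1 + 1 := by
        have h1 := sum_le_hasSum Y (fun n _ => F_nonneg (b := 2 * a) (by linarith) n)
          (F_tsum (b := 2 * a) (by linarith) (by linarith))
        have h2 := sum_le_hasSum Y (fun n _ => F_nonneg ha n) (F_tsum ha (by linarith))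
        linarith
    _ = 3 := by norm_num

lemma P_trans {a : ℝ} (ha : 0 < a) (ha2 : a ≤ 1 / 4) (h : ℤ) (Y : Finset ℤ) :
    ∑ n ∈ Y, |P a (n - h) - P a n| ≤ 10 * Real.pi * a * |(h : ℝ)| := by
  calc ∑ n ∈ Y, |P a (n - h) - P a n|
      ≤ ∑ n ∈ Y, (2 * |F (2 * a) (n - h) - F (2 * a) n| + |F a (n - h) - F a n|) := by
        apply Finset.sum_le_sum; intro n _
        unfold P
        rw [show 2 * F (2 * a) (n - h) - F a (n - h) - (2 * F (2 * a) n - F a n) =
          2 * (F (2 * a) (n - h) - F (2 * a) n) - (F a (n - h) - F a n) by ring]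
        refine (abs_sub _ _).trans ?_
        rw [abs_mul, abs_two]
    _ = 2 * ∑ n ∈ Y, |F (2 * a) (n - h) - F (2 * a) n| + ∑ n ∈ Y, |F a (n - h) - F a n| := by
        rw [Finset.sum_add_distrib, Finset.mul_sum]
    _ ≤ 2 * (2 * Real.pi * (2 * a) * |(h : ℝ)|) + 2 * Real.pi * a * |(h : ℝ)| := by
        have h1 := F_trans (b := 2 * a) (by linarith) (by linarith) h Y
        have h2 := F_trans (b := a) ha (by linarith) h Y
        linarith
    _ = _ := by ring

lemma P_tail {a : ℝ} (ha : 0 < a) {D : ℝ} (hD : 1 ≤ D) (Y : Finset ℤ) (hY : ∀ n ∈ Y, D ≤ |(n : ℝ)|) :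
    ∑ n ∈ Y, |P a n| ≤ 8 / (a * D) := by
  have h1 := tail_both 0 D hD Y (by intro u hu; rw [sub_zero]; exact hY u hu)
  calc ∑ n ∈ Y, |P a n| ≤ ∑ n ∈ Y, (2 / a) * (1 / ((n : ℝ) - 0) ^ 2) := by
        apply Finset.sum_le_sum; intro n hn
        have hn0 : n ≠ 0 := by
          rintro rfl
          have := hY 0 hn
          rw [Int.cast_zero, abs_zero] at this
          linarith
        refine (P_abs_le ha n).trans ?_
        have h2 := F_le' (b := 2 * a) (by linarith) hn0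
        have h3 := F_le' ha hn0
        have h4 : 2 / a * (1 / ((n : ℝ) - 0) ^ 2) = 2 * (1 / (2 * a) * (1 / ((n : ℝ) - 0) ^ 2)) +
          1 / a * (1 / ((n : ℝ) - 0) ^ 2) := by field_simp; ring
        rw [h4]; linarith
    _ = (2 / a) * ∑ n ∈ Y, (1 / ((n : ℝ) - 0) ^ 2) := by rw [Finset.mul_sum]
    _ ≤ (2 / a) * (4 / D) := by gcongr
    _ = _ := by field_simp; norm_num

/-- Hoermander sum of a translate of `P a` -/
def HS (a : ℝ) (ρ h : ℤ) (Y : Finset ℤ) : ℝ := ∑ y ∈ Y, |P a (y - h - ρ) - P a (y - ρ)|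

lemma HS_le_a {a : ℝ} (ha : 0 < a) (ha2 : a ≤ 1 / 4) (ρ h : ℤ) (Y : Finset ℤ) :
    HS a ρ h Y ≤ 10 * Real.pi * a * |(h : ℝ)| := by
  have := P_trans ha ha2 h (Y.map (Equiv.subRight ρ).toEmbedding)
  rw [Finset.sum_map] at this
  refine le_trans (le_of_eq ?_) this
  unfold HS
  apply Finset.sum_congr rfl; intro y _
  simp only [Equiv.coe_toEmbedding, Equiv.subRight_apply]
  congr 3
  ring

lemma HS_le_6 {a : ℝ} (ha : 0 < a) (ha2 : a ≤ 1 / 4) (ρ h : ℤ) (Y : Finset ℤ) : HS a ρ h Y ≤ 6 := by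
  have h1 := P_sum_le ha ha2 (Y.map (Equiv.subRight (h + ρ)).toEmbedding)
  have h2 := P_sum_le ha ha2 (Y.map (Equiv.subRight ρ).toEmbedding)
  rw [Finset.sum_map] at h1 h2
  simp only [Equiv.coe_toEmbedding, Equiv.subRight_apply] at h1 h2
  unfold HS
  calc ∑ y ∈ Y, |P a (y - h - ρ) - P a (y - ρ)| ≤ ∑ y ∈ Y, (|P a (y - (h + ρ))| + |P a (y - ρ)|) := by
        apply Finset.sum_le_sum; intro y _
        rw [show y - (h + ρ) = y - h - ρ by ring]
        exact abs_sub _ _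
    _ ≤ 6 := by rw [Finset.sum_add_distrib]; linarith

lemma HS_le_tail {a : ℝ} (ha : 0 < a) (ha2 : a ≤ 1 / 4) (ρ h : ℤ) (Y : Finset ℤ)
    (hY : ∀ y ∈ Y, 2 * |h| ≤ |y|) (hρ : 2 * |ρ| ≤ |h|) (hah : 1 ≤ a * |(h : ℝ)|) :
    HS a ρ h Y ≤ 32 / (a * |(h : ℝ)|) := by
  have hh : 4 ≤ |(h : ℝ)| := by
    by_contra hcon
    rw [not_le] at hcon
    nlinarith [abs_nonneg (h : ℝ)]
  have hD : 1 ≤ |(h : ℝ)| / 2 := by linarith
  have h1 := P_tail ha hD (Y.map (Equiv.subRight (h + ρ)).toEmbedding) (by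
    intro n hn
    rw [Finset.mem_map_equiv] at hn
    have h3 := hY _ hn
    simp only [Equiv.subRight_symm_apply] at h3
    have h4 : |n + (h + ρ)| ≤ |n| + |h| + |ρ| := (abs_add_le _ _).trans (by
      have := abs_add_le h ρ; linarith)
    have h5 : |h| ≤ 2 * |n| := by linarith
    have h6 : ((|h| : ℤ) : ℝ) ≤ ((2 * |n| : ℤ) : ℝ) := by exact_mod_cast h5
    push_cast at h6
    linarith)
  have h2 := P_tail ha hD (Y.map (Equiv.subRight ρ).toEmbedding) (by
    intro n hn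
    rw [Finset.mem_map_equiv] at hn
    have h3 := hY _ hn
    simp only [Equiv.subRight_symm_apply] at h3
    have h4 : |n + ρ| ≤ |n| + |ρ| := abs_add_le _ _
    have h5 : |h| ≤ 2 * |n| := by
      have := abs_nonneg h
      linarith
    have h6 : ((|h| : ℤ) : ℝ) ≤ ((2 * |n| : ℤ) : ℝ) := by exact_mod_cast h5
    push_cast at h6
    linarith)
  rw [Finset.sum_map] at h1 h2
  simp only [Equiv.coe_toEmbedding, Equiv.subRight_apply] at h1 h2
  unfold HS
  have h7 : (32 : ℝ) / (a * |(h : ℝ)|) = 8 / (a * (|(h : ℝ)| / 2)) + 8 / (a * (|(h : ℝ)| / 2)) := by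
    field_simp; norm_num
  rw [h7]
  calc ∑ y ∈ Y, |P a (y - h - ρ) - P a (y - ρ)| ≤ ∑ y ∈ Y, (|P a (y - (h + ρ))| + |P a (y - ρ)|) := by
        apply Finset.sum_le_sum; intro y _
        rw [show y - (h + ρ) = y - h - ρ by ring]
        exact abs_sub _ _
    _ ≤ _ := by rw [Finset.sum_add_distrib]; linarith

/-- Hoermander's condition for lacunary sums -/
theorem HS_sum (α : ℕ → ℝ) (ρ : ℕ → ℤ) (hα : ∀ k, 0 < α k) (hα4 : ∀ k, α k ≤ 1 / 4)
    (hlac : ∀ k, α (k + 1) ≤ α k / 8) (hρ : ∀ k, |(ρ k : ℝ)| * α (k + 1) ≤ 2)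
    (h : ℤ) (Y : Finset ℤ) (hY : ∀ y ∈ Y, 2 * |h| ≤ |y|) (J : ℕ) :
    ∑ k ∈ range J, HS (α k) (ρ k) h Y ≤ 700 := by
  rcases eq_or_ne h 0 with h0 | h0
  · subst h0
    have : ∀ k, HS (α k) (ρ k) 0 Y = 0 := by
      intro k; unfold HS; simp
    simp [this]
  have hh : 1 ≤ |(h : ℝ)| := by
    have : (1 : ℤ) ≤ |h| := Int.one_le_abs h0
    exact_mod_cast this
  have hdec : ∀ k m, α (k + m) ≤ (1 / 8) ^ m * α k := by
    intro k m
    induction m with
    | zero => simp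
    | succ m ih =>
      calc α (k + (m + 1)) ≤ α (k + m) / 8 := hlac (k + m)
        _ ≤ ((1 / 8) ^ m * α k) / 8 := by linarith
        _ = _ := by ring
  obtain ⟨k1, hk1⟩ : ∃ k, α k * |(h : ℝ)| < 1 := by
    obtain ⟨m, hm⟩ := exists_pow_lt_of_lt_one (show 0 < 1 / (α 0 * |(h : ℝ)|) by
      have := hα 0; positivity) (show (1 / 8 : ℝ) < 1 by norm_num)
    refine ⟨m, ?_⟩
    have h1 := hdec 0 m
    rw [zero_add] at h1
    have h2 := hα 0
    rw [lt_div_iff₀ (by positivity)] at hm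
    calc α m * |(h : ℝ)| ≤ (1 / 8) ^ m * α 0 * |(h : ℝ)| := by gcongr
      _ = (1 / 8) ^ m * (α 0 * |(h : ℝ)|) := by ring
      _ < 1 := hm
  classical
  set k0 := Nat.find (⟨k1, hk1⟩ : ∃ k, α k * |(h : ℝ)| < 1) with hk0
  have hk0s : α k0 * |(h : ℝ)| < 1 := Nat.find_spec (⟨k1, hk1⟩ : ∃ k, α k * |(h : ℝ)| < 1)
  have hk0m : ∀ k < k0, 1 ≤ α k * |(h : ℝ)| := fun k hk => by
    have := Nat.find_min (⟨k1, hk1⟩ : ∃ k, α k * |(h : ℝ)| < 1) hk
    exact not_lt.1 this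
  have hb1 : ∀ k, k0 ≤ k → HS (α k) (ρ k) h Y ≤ 32 * (1 / 8) ^ (k - k0) := by
    intro k hk
    refine (HS_le_a (hα k) (hα4 k) _ _ _).trans ?_
    have h1 := hdec k0 (k - k0)
    rw [Nat.add_sub_cancel' hk] at h1
    have h2 : α k * |(h : ℝ)| ≤ (1 / 8) ^ (k - k0) := by
      calc α k * |(h : ℝ)| ≤ ((1 / 8) ^ (k - k0) * α k0) * |(h : ℝ)| := by gcongr
        _ = (1 / 8) ^ (k - k0) * (α k0 * |(h : ℝ)|) := by ring
        _ ≤ (1 / 8) ^ (k - k0) * 1 := by gcongr
        _ = _ := mul_one _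
    have h3 : Real.pi ≤ 3.2 := by linarith [Real.pi_lt_d2]
    have h4 : 0 ≤ α k * |(h : ℝ)| := mul_nonneg (hα k).le (abs_nonneg _)
    calc 10 * Real.pi * α k * |(h : ℝ)| = 10 * Real.pi * (α k * |(h : ℝ)|) := by ring
      _ ≤ 10 * 3.2 * (1 / 8) ^ (k - k0) := by gcongr
      _ = _ := by norm_num
  have hb2 : ∀ k, k < k0 → HS (α k) (ρ k) h Y ≤ 512 * (1 / 8) ^ (k0 - k) := by
    intro k hk
    by_cases hk3 : k + 3 ≤ k0
    · have h1 := hk0m (k + 2) (by omega)
      have h2 := hlac (k + 1)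
      have h3 : 8 ≤ α (k + 1) * |(h : ℝ)| := by
        have : α (k + 2) * |(h : ℝ)| ≤ (α (k + 1) / 8) * |(h : ℝ)| := by gcongr
        linarith
      have h4 : 2 * |(ρ k : ℝ)| ≤ |(h : ℝ)| := by
        have h5 := hρ k
        have h6 := hα (k + 1)
        by_contra hcon
        rw [not_le] at hcon
        nlinarith [mul_lt_mul_of_pos_right hcon h6]
      have h5 : 2 * |ρ k| ≤ |h| := by exact_mod_cast h4
      have h6 := hk0m k hk
      refine (HS_le_tail (hα k) (hα4 k) _ _ _ hY h5 h6).trans ?_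
      have h7 := hdec k (k0 - 1 - k)
      rw [show k + (k0 - 1 - k) = k0 - 1 by omega] at h7
      have h8 := hk0m (k0 - 1) (by omega)
      have h9 : 1 ≤ (1 / 8) ^ (k0 - 1 - k) * (α k * |(h : ℝ)|) := by
        calc 1 ≤ α (k0 - 1) * |(h : ℝ)| := h8
          _ ≤ ((1 / 8) ^ (k0 - 1 - k) * α k) * |(h : ℝ)| := by gcongr
          _ = _ := by ring
      rw [div_le_iff₀ (by linarith)]
      have h10 : (1 / 8 : ℝ) ^ (k0 - k) = (1 / 8) ^ (k0 - 1 - k) * (1 / 8) := by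
        rw [← pow_succ]; congr 1; omega
      rw [h10]
      nlinarith
    · have h1 := HS_le_6 (hα k) (hα4 k) (ρ k) h Y
      have h2 : k0 - k ≤ 2 := by omega
      have h3 : (1 / 8 : ℝ) ^ 2 ≤ (1 / 8) ^ (k0 - k) :=
        pow_le_pow_of_le_one (by norm_num) (by norm_num) h2
      nlinarith
  have hfin : ∀ k ∈ range J, HS (α k) (ρ k) h Y ≤
      (if k0 ≤ k then 32 * (1 / 8) ^ (k - k0) else 0) + (if k < k0 then 512 * (1 / 8) ^ (k0 - k) else 0) := by
    intro k _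
    by_cases hk : k0 ≤ k
    · rw [if_pos hk, if_neg (by omega), add_zero]; exact hb1 k hk
    · rw [if_neg hk, if_pos (by omega), zero_add]; exact hb2 k (by omega)
  refine (Finset.sum_le_sum hfin).trans ?_
  rw [Finset.sum_add_distrib, ← Finset.sum_filter, ← Finset.sum_filter, ← Finset.mul_sum, ← Finset.mul_sum]
  have g1 := geom_inj_le (1 / 8) (by norm_num) (by norm_num) ((range J).filter (fun k => k0 ≤ k))
    (fun k => k - k0) (by
      intro a ha b hb hab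
      simp only [Finset.coe_filter, Set.mem_ofPred_eq] at ha hb
      simp only at hab
      omega)
  have g2 := geom_inj_le (1 / 8) (by norm_num) (by norm_num) ((range J).filter (fun k => k < k0))
    (fun k => k0 - k) (by
      intro a ha b hb hab
      simp only [Finset.coe_filter, Set.mem_ofPred_eq] at ha hb
      simp only at hab
      omega)
  have e : (1 - 1 / 8 : ℝ)⁻¹ = 8 / 7 := by norm_num
  rw [e] at g1 g2
  linarith

end

end Pool.Agent.MpA
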