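import Pool.Agent.MpA.Four

set_option autoImplicit false

/-!
The triangle kernel `F b` and the trapezoid kernel `P a = 2 F (2a) - F a`.
-/

namespace Pool.Agent.MpA

open Finset MeasureTheory
open scoped BigOperators

noncomputable section

/-- kernel of the indicator of `|x| ≤ b/2` -/
def sb (b : ℝ) (n : ℤ) : ℝ := if n = 0 then b else Real.sin (Real.pi * n * b) / (Real.pi * n)

/-- triangle kernel -/
def F (b : ℝ) (n : ℤ) : ℝ := sb b n ^ 2 / b

/-- triangle function -/
def tri (b x : ℝ) : ℝ := (|x + b| / 2 + |x - b| / 2 - |x|) / b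

lemma sb_abs_le {b : ℝ} (hb : 0 < b) (n : ℤ) : |sb b n| ≤ b := by
  unfold sb
  split_ifs with h
  · rw [abs_of_pos hb]
  · have hn : (0 : ℝ) < |(n : ℝ)| := abs_pos.2 (by exact_mod_cast h)
    rw [abs_div, abs_mul, abs_of_pos Real.pi_pos, div_le_iff₀ (by positivity)]
    have := Real.abs_sin_le_abs (x := Real.pi * n * b)
    rw [abs_mul, abs_mul, abs_of_pos Real.pi_pos, abs_of_pos hb] at this
    linarith

lemma sb_abs_le' (b : ℝ) {n : ℤ} (h : n ≠ 0) : |sb b n| ≤ 1 / (Real.pi * |(n : ℝ)|) := by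
  unfold sb
  rw [if_neg h]
  have hn : (0 : ℝ) < |(n : ℝ)| := abs_pos.2 (by exact_mod_cast h)
  rw [abs_div, abs_mul, abs_of_pos Real.pi_pos]
  gcongr
  exact Real.abs_sin_le_one _

lemma F_nonneg {b : ℝ} (hb : 0 < b) (n : ℤ) : 0 ≤ F b n := by unfold F; positivity

lemma F_le {b : ℝ} (hb : 0 < b) (n : ℤ) : F b n ≤ b := by
  unfold F
  rw [div_le_iff₀ hb, ← sq_abs]
  nlinarith [sb_abs_le hb n, abs_nonneg (sb b n)]

lemma F_le' {b : ℝ} (hb : 0 < b) {n : ℤ} (h : n ≠ 0) : F b n ≤ 1 / b * (1 / ((n : ℝ) - 0) ^ 2) := by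
  unfold F
  have hn : (0 : ℝ) < |(n : ℝ)| := abs_pos.2 (by exact_mod_cast h)
  have h1 := sb_abs_le' b h
  have h2 : sb b n ^ 2 ≤ 1 / ((n : ℝ) - 0) ^ 2 := by
    rw [← sq_abs]
    calc |sb b n| ^ 2 ≤ (1 / (Real.pi * |(n : ℝ)|)) ^ 2 := pow_le_pow_left₀ (abs_nonneg _) h1 2
      _ = 1 / Real.pi ^ 2 * (1 / ((n : ℝ) - 0) ^ 2) := by
          rw [sub_zero, ← sq_abs (n : ℝ)]; field_simp
      _ ≤ 1 * (1 / ((n : ℝ) - 0) ^ 2) := by
          apply mul_le_mul_of_nonneg_right _ (by positivity)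
          rw [div_le_one (by positivity)]
          nlinarith [Real.pi_gt_three]
      _ = _ := one_mul _
  calc sb b n ^ 2 / b ≤ (1 / ((n : ℝ) - 0) ^ 2) / b := by gcongr
    _ = _ := by ring

/-- the Bernoulli series -/
lemma bern {x : ℝ} (hx : |x| ≤ 1) :
    HasSum (fun n : ℤ => 1 / (n : ℂ) ^ 2 * ee (n * x)) ((2 * Real.pi ^ 2 * (x ^ 2 - |x| + 1 / 6) : ℝ) : ℂ) := by
  have key : ∀ y ∈ Set.Icc (0 : ℝ) 1,
      HasSum (fun n : ℤ => 1 / (n : ℂ) ^ 2 * ee (n * y)) ((2 * Real.pi ^ 2 * (y ^ 2 - y + 1 / 6) : ℝ) : ℂ) := by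
    intro y hy
    have h1 := hasSum_one_div_pow_mul_fourier_mul_bernoulliFun (k := 2) le_rfl hy
    simp only [fourier_eq_ee, bernoulliFun_two] at h1
    convert h1 using 1
    push_cast
    rw [mul_pow, mul_pow, Complex.I_sq, Nat.factorial_two]
    push_cast
    ring
  rcases le_or_gt 0 x with h | h
  · rw [abs_of_nonneg h] at hx ⊢
    exact key x ⟨h, hx⟩
  · rw [abs_of_neg h] at hx ⊢
    have := key (x + 1) ⟨by linarith, by linarith⟩
    simp only [ee_add_one] at this
    convert this using 2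
    ring

/-- symbol of the triangle kernel -/
lemma F_sym {b : ℝ} (hb : 0 < b) (hb2 : b ≤ 1 / 2) {x : ℝ} (hx : |x| ≤ 1 / 2) :
    HasSum (fun n : ℤ => (F b n : ℂ) * ee (n * x)) (tri b x : ℂ) := by
  have hb' : (b : ℂ) ≠ 0 := by exact_mod_cast hb.ne'
  have hpi : (Real.pi : ℂ) ≠ 0 := by exact_mod_cast Real.pi_ne_zero
  have a1 := abs_le.1 hx
  have h0 := bern (x := x) (by linarith)
  have h1 := bern (x := x + b) (by rw [abs_le]; constructor <;> linarith)
  have h2 := bern (x := x - b) (by rw [abs_le]; constructor <;> linarith)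
  have h3 := ((h0.sub (h1.div_const 2)).sub (h2.div_const 2)).mul_left (1 / (2 * Real.pi ^ 2 * b) : ℂ)
  have h4 := (hasSum_single (f := fun n : ℤ => if n = 0 then (b : ℂ) else 0) 0 (by
    intro n hn; rw [if_neg hn])).add h3
  rw [if_pos rfl] at h4
  convert h4 using 1
  · funext n
    by_cases hn : n = 0
    · subst hn
      simp [F, sb, ee_zero]
      field_simp
    · have hn' : (n : ℂ) ≠ 0 := by exact_mod_cast hn
      rw [if_neg hn, zero_add]
      have e1 : ee (n * (x + b)) = ee (n * x) * ee (n * b) := by rw [mul_add, ee_add]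
      have e2 : ee (n * (x - b)) = ee (n * x) * ee (-(n * b)) := by
        rw [← ee_add]; congr 1; ring
      rw [e1, e2]
      have e3 : ee (n * b) + ee (-(n * b)) = 2 - 4 * (Real.sin (Real.pi * n * b) : ℂ) ^ 2 := by
        have c1 : ee (n * b) + ee (-(n * b)) = 2 * Complex.cos (2 * (Real.pi * n * b : ℝ)) := by
          rw [Complex.two_cos]
          unfold ee
          congr 2 <;> push_cast <;> ring
        rw [c1, Complex.cos_two_mul, Complex.ofReal_sin]
        have := Complex.sin_sq_add_cos_sq (Real.pi * n * b : ℝ)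
        linear_combination 4 * this
      have e4 : (F b n : ℂ) = (Real.sin (Real.pi * n * b) : ℂ) ^ 2 / (Real.pi ^ 2 * n ^ 2 * b) := by
        unfold F sb
        rw [if_neg hn]
        push_cast
        field_simp
      rw [e4]
      have e5 : 1 / (2 * (Real.pi : ℂ) ^ 2 * b) * (1 / (n : ℂ) ^ 2 * ee (n * x) -
          1 / (n : ℂ) ^ 2 * (ee (n * x) * ee (n * b)) / 2 - 1 / (n : ℂ) ^ 2 * (ee (n * x) * ee (-(n * b))) / 2) =
          1 / (2 * (Real.pi : ℂ) ^ 2 * b) * (1 / (n : ℂ) ^ 2 * ee (n * x) * (1 - (ee (n * b) + ee (-(n * b))) / 2)) := by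
        ring
      rw [e5, e3]
      field_simp
      ring
  · unfold tri
    push_cast
    field_simp
    ring

lemma F_summable {b : ℝ} (hb : 0 < b) (hb2 : b ≤ 1 / 2) : Summable (F b) := by
  have := F_sym hb hb2 (x := 0) (by simp)
  simp only [mul_zero, ee_zero, mul_one] at this
  exact_mod_cast this.summable

lemma tri_zero {b : ℝ} (hb : 0 < b) : tri b 0 = 1 := by
  unfold tri
  rw [zero_add, zero_sub, abs_neg, abs_zero, abs_of_pos hb]
  field_simp; ring

lemma F_tsum {b : ℝ} (hb : 0 < b) (hb2 : b ≤ 1 / 2) : HasSum (F b) 1 := by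
  have := F_sym hb hb2 (x := 0) (by simp)
  simp only [mul_zero, ee_zero, mul_one, tri_zero hb] at this
  exact_mod_cast this

/-- Fourier coefficients of the indicator -/
def ind (b : ℝ) (x : ℝ) : ℂ := if |x| ≤ b / 2 then 1 else 0

lemma ind_measurable (b : ℝ) : Measurable (ind b) := by
  unfold ind
  apply Measurable.ite _ measurable_const measurable_const
  exact measurableSet_le (by fun_prop) measurable_const

lemma ft_ind {b : ℝ} (hb : 0 < b) (hb2 : b ≤ 1) (φ : ℝ → ℂ) (n : ℤ) :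
    ft (fun x => ind b x * φ x) n = ∫ x in (-(b / 2))..(b / 2), ee (-(n * x)) * φ x := by
  unfold ft
  rw [intervalIntegral.integral_of_le (by norm_num), intervalIntegral.integral_of_le (by linarith)]
  have h1 : ∀ x, x ∈ Set.Ioc (-(1 / 2) : ℝ) (1 / 2) → ee (-(n * x)) * (ind b x * φ x) =
      (Set.Icc (-(b / 2)) (b / 2)).indicator (fun x => ee (-(n * x)) * φ x) x := by
    intro x _
    unfold ind
    by_cases h : |x| ≤ b / 2
    · rw [if_pos h, Set.indicator_of_mem (by rw [Set.mem_Icc]; exact abs_le.1 h), one_mul]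
    · rw [if_neg h, Set.indicator_of_notMem (by rw [Set.mem_Icc]; exact fun h' => h (abs_le.2 h'))]
      ring
  rw [setIntegral_congr_fun measurableSet_Ioc h1, setIntegral_indicator measurableSet_Icc]
  rw [← integral_Icc_eq_integral_Ioc (x := -(b / 2)), ]
  rcases hb2.eq_or_lt with h | h
  · rw [h]
    have : Set.Ioc (-(1 / 2) : ℝ) (1 / 2) ∩ Set.Icc (-(1 / 2)) (1 / 2) = Set.Ioc (-(1 / 2)) (1 / 2) :=
      Set.inter_eq_left.2 Set.Ioc_subset_Icc_self
    rw [this, integral_Icc_eq_integral_Ioc]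
  · have : Set.Ioc (-(1 / 2) : ℝ) (1 / 2) ∩ Set.Icc (-(b / 2)) (b / 2) = Set.Icc (-(b / 2)) (b / 2) := by
      apply Set.inter_eq_right.2
      intro x hx
      exact ⟨by linarith [hx.1], by linarith [hx.2]⟩
    rw [this]

lemma ft_ind_one {b : ℝ} (hb : 0 < b) (hb2 : b ≤ 1) (n : ℤ) : ft (fun x => ind b x * 1) n = sb b n := by
  rw [ft_ind hb hb2]
  simp only [mul_one]
  unfold sb
  split_ifs with h
  · rw [h]
    simp [ee_zero]
  · have h1 : ∀ x : ℝ, ee (-(n * x)) = ee (((-n : ℤ) : ℝ) * x) := by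
      intro x; congr 1; push_cast; ring
    simp only [h1]
    rw [int_ee (-n) (by simpa using h) (b / 2)]
    congr 1
    push_cast
    rw [show 2 * Real.pi * -(n : ℝ) * (b / 2) = -(Real.pi * n * b) by ring, Real.sin_neg]
    have hn : (n : ℝ) ≠ 0 := by exact_mod_cast h
    have := Real.pi_ne_zero
    field_simp

lemma ft_ind_ee {b : ℝ} (hb : 0 < b) (hb2 : b ≤ 1) (y n : ℤ) :
    ft (fun x => ind b x * ee (y * x)) n = sb b (n - y) := by
  rw [← ft_ind_one hb hb2, ft_ind hb hb2, ft_ind hb hb2]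
  congr 1
  funext x
  rw [mul_one, ← ee_add]
  congr 1
  push_cast; ring

/-- `ℓ²` sums of `sb (n - y) + c sb n`, `c = ± 1` -/
lemma sb_diff {b : ℝ} (hb : 0 < b) (hb2 : b ≤ 1) (y : ℤ) (c : ℝ) {M : ℝ}
    (hM : ∀ x : ℝ, |x| ≤ b / 2 → ‖ee (y * x) + c‖ ≤ M) (Y : Finset ℤ) :
    ∑ n ∈ Y, (sb b (n - y) + c * sb b n) ^ 2 ≤ b * M ^ 2 := by
  have hM0 : 0 ≤ M := (norm_nonneg _).trans (hM 0 (by rw [abs_zero]; linarith))
  have hmeas : Measurable (fun x => ind b x * (ee (y * x) + c)) := by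
    apply (ind_measurable b).mul
    exact (Continuous.measurable (by
      have := continuous_ee
      fun_prop))
  have hbd : ∀ x, ‖ind b x * (ee (y * x) + c)‖ ≤ M := by
    intro x
    unfold ind
    split_ifs with h
    · rw [one_mul]; exact hM x h
    · simpa using hM0
  have P := parseval (memLp_bdd hmeas M hbd)
  have h1 : ∀ n : ℤ, ft (fun x => ind b x * (ee (y * x) + c)) n = ((sb b (n - y) + c * sb b n : ℝ) : ℂ) := by
    intro n
    push_cast
    rw [← ft_ind_ee hb hb2, ← ft_ind_one hb hb2, ft_ind hb hb2, ft_ind hb hb2, ft_ind hb hb2,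
      ← intervalIntegral.integral_const_mul, ← intervalIntegral.integral_add]
    · congr 1; funext x; ring
    · apply Continuous.intervalIntegrable
      have := continuous_ee
      fun_prop
    · apply Continuous.intervalIntegrable
      have := continuous_ee
      fun_prop
  have h2 : ∀ n : ℤ, ‖ft (fun x => ind b x * (ee (y * x) + c)) n‖ ^ 2 = (sb b (n - y) + c * sb b n) ^ 2 := by
    intro n
    rw [h1, Complex.norm_real, Real.norm_eq_abs, sq_abs]
  simp only [h2] at P
  have h3 := sum_le_hasSum Y (fun n _ => by positivity) P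
  refine h3.trans ?_
  -- the integral
  have h4 : ∫ x in (-(1 / 2) : ℝ)..(1 / 2), ‖ind b x * (ee (y * x) + c)‖ ^ 2 ≤
      ∫ x in (-(1 / 2) : ℝ)..(1 / 2), ‖ind b x‖ * M ^ 2 := by
    rw [intervalIntegral.integral_of_le (by norm_num), intervalIntegral.integral_of_le (by norm_num)]
    apply setIntegral_mono_on
    · refine Measure.integrableOn_of_bounded (M := M ^ 2) (by simp)
        (hmeas.norm.pow_const 2).aestronglyMeasurable (Filter.Eventually.of_forall (fun x => ?_))
      rw [Real.norm_of_nonneg (by positivity)]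
      exact pow_le_pow_left₀ (norm_nonneg _) (hbd x) 2
    · refine Measure.integrableOn_of_bounded (M := M ^ 2) (by simp)
        ((ind_measurable b).norm.mul_const _).aestronglyMeasurable
        (Filter.Eventually.of_forall (fun x => ?_))
      rw [Real.norm_of_nonneg (by positivity)]
      unfold ind
      split_ifs
      · simp
      · simp only [norm_zero, zero_mul]; positivity
    · exact measurableSet_Ioc
    · intro x _
      unfold ind
      split_ifs with h
      · rw [one_mul, norm_one, one_mul]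
        exact pow_le_pow_left₀ (norm_nonneg _) (hM x h) 2
      · simp
  refine h4.trans (le_of_eq ?_)
  rw [intervalIntegral.integral_mul_const]
  congr 1
  have h5 : ∀ x, ((‖ind b x‖ : ℝ) : ℂ) = ind b x * 1 := by
    intro x; unfold ind; split_ifs <;> simp
  have h6 := ft_ind_one hb hb2 0
  unfold ft at h6
  simp only [Int.cast_zero, zero_mul, neg_zero, ee_zero, one_mul] at h6
  simp only [← h5] at h6
  rw [intervalIntegral.integral_ofReal] at h6
  have h7 : sb b 0 = b := by simp [sb]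
  rw [h7] at h6
  exact_mod_cast h6

/-- translation estimate for the triangle kernel -/
lemma F_trans {b : ℝ} (hb : 0 < b) (hb2 : b ≤ 1) (y : ℤ) (Y : Finset ℤ) :
    ∑ n ∈ Y, |F b (n - y) - F b n| ≤ 2 * Real.pi * b * |(y : ℝ)| := by
  have h1 := sb_diff hb hb2 y (-1) (M := Real.pi * |(y : ℝ)| * b) (by
    intro x hx
    have := norm_ee_sub_one (y * x)
    push_cast
    rw [← sub_eq_add_neg]
    refine this.trans ?_
    rw [abs_mul]
    nlinarith [mul_le_mul_of_nonneg_left hx (show 0 ≤ 2 * Real.pi * |(y : ℝ)| by positivity)]) Y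
  have h2 := sb_diff hb hb2 y 1 (M := 2) (by
    intro x _
    refine (norm_add_le _ _).trans ?_
    rw [norm_ee]; norm_num) Y
  have h3 : ∀ n, |F b (n - y) - F b n| = 1 / b * (|sb b (n - y) + -1 * sb b n| * |sb b (n - y) + 1 * sb b n|) := by
    intro n
    have h4 : F b (n - y) - F b n = 1 / b * ((sb b (n - y) + -1 * sb b n) * (sb b (n - y) + 1 * sb b n)) := by
      unfold F
      field_simp
      ring
    rw [h4, abs_mul, abs_mul, abs_of_pos (show 0 < 1 / b by positivity)]
  simp only [h3]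
  rw [← Finset.mul_sum]
  have h4 := Finset.sum_mul_sq_le_sq_mul_sq Y (fun n => |sb b (n - y) + -1 * sb b n|)
    (fun n => |sb b (n - y) + 1 * sb b n|)
  simp only [sq_abs] at h4
  set S := ∑ n ∈ Y, |sb b (n - y) + -1 * sb b n| * |sb b (n - y) + 1 * sb b n| with hS
  have hS0 : 0 ≤ S := Finset.sum_nonneg fun _ _ => by positivity
  have h5 : S ^ 2 ≤ (2 * Real.pi * |(y : ℝ)| * b ^ 2) ^ 2 := by
    refine h4.trans ?_
    refine (mul_le_mul h1 h2 (Finset.sum_nonneg fun _ _ => by positivity) (by positivity)).trans (le_of_eq ?_)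
    ring
  have h6 : S ≤ 2 * Real.pi * |(y : ℝ)| * b ^ 2 := by
    exact abs_le_of_sq_le_sq' h5 (by positivity) |>.2
  calc 1 / b * S ≤ 1 / b * (2 * Real.pi * |(y : ℝ)| * b ^ 2) := by gcongr
    _ = _ := by field_simp

end

end Pool.Agent.MpA
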